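import Pool.Agent.Lib.UMB.M.KJ
import Pool.Agent.Lib.UMB.W.E1

/-! # UMB section 1 (lemma KF), chunk KL: theta = F(v) belongs to the class LF -/

set_option autoImplicit false

open Filter Topology Set MeasureTheory
open scoped ContDiff BigOperators

namespace UMB

open Pool.Agent.Lib.PenroseSph (E3 Tens pd)

/-- the pointwise bound of the quotient -/
theorem kl_quot {m κ L k Q : ℝ} (hm : 0 < m) (hmk : m ≤ κ⁻¹) (hk0 : 0 ≤ k) (hkL : k ≤ L)
    {u t : Fin 3 → ℝ} {B T : Matrix (Fin 3) (Fin 3) ℝ} (ht : ∀ i, t i = - m * u i)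
    (hT : ∀ i j, T i j = - m * B i j + k * m ^ 2 * u i * u j) (hQ : vsq u ≤ Q) :
    fsq T / Real.sqrt (vsq t) ≤ 2 * κ⁻¹ * (fsq B / Real.sqrt (vsq u)) + 2 * L ^ 2 * κ⁻¹ ^ 3 * (Q * Real.sqrt Q) := by
  have hv0 : 0 ≤ vsq u := Finset.sum_nonneg fun i _ => sq_nonneg _
  have hQ0 : 0 ≤ Q := hv0.trans hQ
  have hB0 : 0 ≤ fsq B := Finset.sum_nonneg fun i _ => Finset.sum_nonneg fun j _ => sq_nonneg _
  have hκ : 0 < κ⁻¹ := lt_of_lt_of_le hm hmk
  have hL0 : 0 ≤ L := hk0.trans hkL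
  have h1 : vsq t = m ^ 2 * vsq u := by
    unfold vsq
    rw [Finset.mul_sum]
    refine Finset.sum_congr rfl fun i _ => ?_
    rw [ht]; ring
  have h2 : Real.sqrt (vsq t) = m * Real.sqrt (vsq u) := by
    rw [h1, Real.sqrt_mul (sq_nonneg m), Real.sqrt_sq hm.le]
  have h3 : fsq T ≤ 2 * m ^ 2 * fsq B + 2 * k ^ 2 * m ^ 4 * vsq u ^ 2 := by
    have e1 : vsq u ^ 2 = ∑ i, ∑ j, (u i * u j) ^ 2 := by
      unfold vsq
      simp only [Fin.sum_univ_three]
      ring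
    rw [e1]
    unfold fsq
    rw [Finset.mul_sum, Finset.mul_sum, ← Finset.sum_add_distrib]
    refine Finset.sum_le_sum fun i _ => ?_
    rw [Finset.mul_sum, Finset.mul_sum, ← Finset.sum_add_distrib]
    refine Finset.sum_le_sum fun j _ => ?_
    rw [hT]
    nlinarith [sq_nonneg (m * B i j + k * m ^ 2 * (u i * u j))]
  rcases hv0.lt_or_eq with hv | hv
  · have hs : 0 < Real.sqrt (vsq u) := Real.sqrt_pos.2 hv
    have hss : Real.sqrt (vsq u) * Real.sqrt (vsq u) = vsq u := Real.mul_self_sqrt hv0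
    rw [h2]
    have h4 : fsq T / (m * Real.sqrt (vsq u)) ≤ (2 * m ^ 2 * fsq B + 2 * k ^ 2 * m ^ 4 * vsq u ^ 2) / (m * Real.sqrt (vsq u)) :=
      div_le_div_of_nonneg_right h3 (by positivity)
    have h5 : (2 * m ^ 2 * fsq B + 2 * k ^ 2 * m ^ 4 * vsq u ^ 2) / (m * Real.sqrt (vsq u))
        = 2 * m * (fsq B / Real.sqrt (vsq u)) + 2 * k ^ 2 * m ^ 3 * (vsq u * Real.sqrt (vsq u)) := by
      have e2 : vsq u ^ 2 = vsq u * (Real.sqrt (vsq u) * Real.sqrt (vsq u)) := by rw [hss]; ring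
      rw [e2]
      field_simp
    have h6 : 2 * m * (fsq B / Real.sqrt (vsq u)) ≤ 2 * κ⁻¹ * (fsq B / Real.sqrt (vsq u)) :=
      mul_le_mul_of_nonneg_right (by linarith) (by positivity)
    have h7 : 2 * k ^ 2 * m ^ 3 * (vsq u * Real.sqrt (vsq u)) ≤ 2 * L ^ 2 * κ⁻¹ ^ 3 * (Q * Real.sqrt Q) := by
      have e3 : Real.sqrt (vsq u) ≤ Real.sqrt Q := Real.sqrt_le_sqrt hQ
      gcongr
    linarith
  · have h8 : vsq t = 0 := by rw [h1, ← hv, mul_zero]
    rw [h8, Real.sqrt_zero, div_zero]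
    positivity

/-- **KL.** PROOF. `θ = FF p κ ∘ v`, `FF p κ` is smooth on `{z | 0 < KK p z + κ}` (`W.FF_smooth`), an open set which contains
`[0,1]`; so `θ` is `C³` on the open set `W ∩ v⁻¹{...}` (`hv.c3`), a neighbourhood of `cann R`; smooth on `ann R`
(`W.theta_smooth`). `θ = F(1) = 0` on `|x| = 1`, `= F(0)` on `|x| = R`, `F` strictly decreasing (`W.FF_deriv`), `0 < v < 1`.
`D1 θ = - (K+κ)⁻¹ D1 v`, `D2 θ = - (K+κ)⁻¹ D2 v + kt (K+κ)⁻² D1 v D1 v` (`W.D1_theta`, `W.D2_theta` on `ann R`; on the spheres the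
same by the chain rule near the point): `fsq (D2 θ)/√vsq(D1 θ) ≤ C (fsq (D2 v)/√vsq(D1 v) + vsq(D1 v)^(3/2))`, measurable
(continuous functions on `ann R`, square root, division), bounded by KI2. `D.Ok` gives `W.Expo D.p0 D.p`. -/
theorem LF_theta {D : OpData} (hD : D.Ok) {v : E3 → ℝ} (hv : SolX D v) {κ : ℝ} (hκ : 0 < κ) :
    LF D.R 0 (W.FF D.p κ 0) (W.theta D.p κ v) := by
  have hp : W.Expo D.p0 D.p := ⟨hD.one_lt_p0, hD.p_smooth, hD.p_ge, hD.p_le⟩
  have hR := hD.one_lt_R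
  have h0 : ∀ x ∈ ann D.R, 0 ≤ v x := fun x hx => (hv.pos x hx).le
  have hsm := W.theta_smooth hp hκ (UMB.Lin.isOpen_Ann D.R) hv.smooth h0
  obtain ⟨V0, hV0o, hV0c, hV0v⟩ := hv.c3
  have hcK : Continuous (W.KK D.p) := (W.KK_smooth hp).continuous
  have hopen : IsOpen {t : ℝ | 0 < W.KK D.p t + κ} := isOpen_lt continuous_const (hcK.add continuous_const)
  set V : Set E3 := V0 ∩ v ⁻¹' {t : ℝ | 0 < W.KK D.p t + κ} with hV
  have hVo : IsOpen V := hV0v.continuousOn.isOpen_inter_preimage hV0o hopen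
  have hVc : cann D.R ⊆ V := fun x hx => ⟨hV0c hx, W.e1_pos hp hκ (hv.nonneg x hx)⟩
  have hθ3 : ContDiffOn ℝ 3 (W.theta D.p κ v) V := by
    have h1 : ContDiffOn ℝ 3 (W.FF D.p κ ∘ v) V :=
      ((W.FF_smooth hp hκ).of_le (by norm_cast)).comp (hV0v.mono inter_subset_left) fun x hx => hx.2
    exact h1
  have hF1 : W.FF D.p κ 1 = 0 := W.FF_one D.p κ
  have hanti := W.FF_anti hp hκ
  have hF0 : 0 < W.FF D.p κ 0 := by
    have h1 := hanti (show (0 : ℝ) ∈ Ici 0 by simp) (show (1 : ℝ) ∈ Ici 0 by simp) one_pos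
    rwa [hF1] at h1
  have hD1 : ∀ x ∈ cann D.R, ∀ i, D1 (W.theta D.p κ v) x i = - (W.KK D.p (v x) + κ)⁻¹ * D1 v x i := by
    intro x hx i
    have hd : DifferentiableAt ℝ v x :=
      (hV0v.contDiffAt (hV0o.mem_nhds (hV0c hx))).differentiableAt (by norm_num)
    have h1 : HasFDerivAt (W.theta D.p κ v) ((- (W.KK D.p (v x) + κ)⁻¹) • fderiv ℝ v x) x :=
      (W.FF_deriv hp hκ (hv.nonneg x hx)).comp_hasFDerivAt x hd.hasFDerivAt
    unfold D1 pd
    rw [h1.fderiv]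
    rfl
  have hms : MeasurableSet (ann D.R) := UMB.Lin.measurableSet_Ann D.R
  obtain ⟨hKI, hKI0⟩ := KI_global hD hv
  have hD2 : ∀ x ∈ ann D.R, ∀ i j, D2 (W.theta D.p κ v) x i j = - (W.KK D.p (v x) + κ)⁻¹ * D2 v x i j
      + W.kt D.p (v x) * (W.KK D.p (v x) + κ)⁻¹ ^ 2 * D1 v x i * D1 v x j := fun x hx i j =>
    W.D2_theta hp hκ (UMB.Lin.isOpen_Ann D.R) hv.smooth h0 hx i j
  refine ⟨hR, hF0, ⟨V, hVo, hVc, hθ3⟩, hsm, ?_, ?_, ?_, ?_, ?_, ?_, ?_⟩
  · intro x hx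
    change W.FF D.p κ (v x) = 0
    rw [hv.one x hx, hF1]
  · intro x hx
    change W.FF D.p κ (v x) = W.FF D.p κ 0
    rw [hv.zero x hx]
  · intro x hx
    change 0 < W.FF D.p κ (v x)
    rw [← hF1]
    exact hanti (h0 x hx) (by simp) (hv.lt_one x hx)
  · intro x hx
    change W.FF D.p κ (v x) < W.FF D.p κ 0
    exact hanti (by simp) (h0 x hx) (hv.pos x hx)
  · intro x hx hcon
    have hxc : x ∈ cann D.R := by
      rcases hx with h | h
      · exact ⟨h.ge, by rw [h]; exact hR.le⟩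
      · exact ⟨by rw [h]; exact hR.le, h.le⟩
    apply hv.nz x hx
    funext i
    have h1 := hD1 x hxc i
    rw [hcon] at h1
    have h2 : 0 < (W.KK D.p (v x) + κ)⁻¹ := inv_pos.2 (W.e1_pos hp hκ (hv.nonneg x hxc))
    have h3 : (W.KK D.p (v x) + κ)⁻¹ * D1 v x i = 0 := by
      simp only [Pi.zero_apply] at h1
      linarith
    rcases mul_eq_zero.1 h3 with h4 | h4
    · exact absurd h4 h2.ne'
    · exact h4
  · -- kf
    have hpc : ∀ i, ContinuousOn (pd i v) (cann D.R) := by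
      intro i
      have h1 : ContDiffOn ℝ 2 (pd i v) V0 := (hV0v.fderiv_of_isOpen hV0o (m := 2) (by norm_cast)).clm_apply contDiffOn_const
      exact h1.continuousOn.mono hV0c
    have hvc : ContinuousOn (fun x => vsq (D1 v x)) (cann D.R) := continuousOn_finsetSum _ fun i _ => (hpc i).pow 2
    obtain ⟨Q, hQ⟩ := (UMB.Lin.isCompact_cAnn D.R).exists_bound_of_continuousOn hvc
    set L : ℝ := 2 / (D.p0 - 1) with hL
    have c1 : ∀ i, ContinuousOn (pd i (W.theta D.p κ v)) (ann D.R) := fun i =>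
      (smooth_pd (UMB.Lin.isOpen_Ann D.R) hsm i).continuousOn
    have c2 : ∀ i j, ContinuousOn (pd i (pd j (W.theta D.p κ v))) (ann D.R) := fun i j =>
      (smooth_pd (UMB.Lin.isOpen_Ann D.R) (smooth_pd (UMB.Lin.isOpen_Ann D.R) hsm j) i).continuousOn
    have c3 : ContinuousOn (fun x => fsq (D2 (W.theta D.p κ v) x)) (ann D.R) :=
      continuousOn_finsetSum _ fun i _ => continuousOn_finsetSum _ fun j _ => (c2 i j).pow 2
    have c4 : ContinuousOn (fun x => Real.sqrt (vsq (D1 (W.theta D.p κ v) x))) (ann D.R) :=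
      Real.continuous_sqrt.comp_continuousOn (continuousOn_finsetSum _ fun i _ => (c1 i).pow 2)
    have hmeas : AEStronglyMeasurable (fun x => fsq (D2 (W.theta D.p κ v) x) / Real.sqrt (vsq (D1 (W.theta D.p κ v) x)))
        (volume.restrict (ann D.R)) :=
      ((c3.aemeasurable hms).div (c4.aemeasurable hms)).aestronglyMeasurable
    have hfin : IsFiniteMeasure (volume.restrict (ann D.R)) :=
      ⟨by rw [Measure.restrict_apply_univ]; exact UMB.Lin.volume_Ann_lt_top D.R⟩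
    have hdom : IntegrableOn (fun x => 2 * κ⁻¹ * (fsq (D2 v x) / Real.sqrt (vsq (D1 v x)))
        + 2 * L ^ 2 * κ⁻¹ ^ 3 * (Q * Real.sqrt Q)) (ann D.R) := (hKI.const_mul _).add (integrable_const _)
    refine Integrable.mono' hdom hmeas ?_
    filter_upwards [ae_restrict_mem hms] with x hx
    have hxc : x ∈ cann D.R := UMB.Lin.Ann_subset D.R hx
    have hm : 0 < (W.KK D.p (v x) + κ)⁻¹ := inv_pos.2 (W.e1_pos hp hκ (h0 x hx))
    have hmk : (W.KK D.p (v x) + κ)⁻¹ ≤ κ⁻¹ := by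
      refine inv_anti₀ hκ ?_
      have := (W.KK_bd hp (h0 x hx)).1
      linarith [h0 x hx]
    have hk := W.kt_bd hp (v x)
    have hq0 : 0 ≤ fsq (D2 (W.theta D.p κ v) x) / Real.sqrt (vsq (D1 (W.theta D.p κ v) x)) := div_nonneg
      (Finset.sum_nonneg fun i _ => Finset.sum_nonneg fun j _ => sq_nonneg _) (Real.sqrt_nonneg _)
    rw [Real.norm_eq_abs, abs_of_nonneg hq0]
    exact kl_quot hm hmk (by linarith [hk.1]) hk.2 (hD1 x hxc) (hD2 x hx) ((le_abs_self _).trans (hQ x hxc))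
  · -- kf0
    filter_upwards [ae_restrict_mem hms, hKI0] with x hx hx0 hcon
    have hxc : x ∈ cann D.R := UMB.Lin.Ann_subset D.R hx
    have hm : 0 < (W.KK D.p (v x) + κ)⁻¹ := inv_pos.2 (W.e1_pos hp hκ (h0 x hx))
    have h1 : D1 v x = 0 := by
      funext i
      have h2 := hD1 x hxc i
      rw [hcon] at h2
      have h3 : (W.KK D.p (v x) + κ)⁻¹ * D1 v x i = 0 := by
        simp only [Pi.zero_apply] at h2
        linarith
      rcases mul_eq_zero.1 h3 with h4 | h4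
      · exact absurd h4 hm.ne'
      · exact h4
    have h5 := hx0 h1
    ext i j
    rw [hD2 x hx i j, h5, h1]
    simp

end UMB
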