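import Pool.Agent.Lib.UMB.S1.Lim
import Pool.Agent.Lib.UMB.Core
import Pool.Agent.Lib.UMB.W.EDefs

set_option autoImplicit false

/-!
# UMB, section 1: the integrated master identity and the energy inequality (definitions)
-/

open Filter Topology Set MeasureTheory
open scoped ContDiff

namespace UMB

open Pool.Agent.Lib.PenroseSph (E3 Tens pd chr ric scal trg normSqg divg energy momentum momNorm gradNorm normal meanCurv
  trLevel)

/-- Class of the functions whose level sets are used: `C³` near the closed annulus, smooth inside, constant on the two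
boundary spheres with nonzero gradient there, `|D²u|²/|du|` integrable and `D²u = 0` almost everywhere on `{du = 0}`. -/
structure LF (R c1 c2 : ℝ) (u : E3 → ℝ) : Prop where
  one_lt : 1 < R
  lt : c1 < c2
  c3 : ∃ W : Set E3, IsOpen W ∧ cann R ⊆ W ∧ ContDiffOn ℝ 3 u W
  smooth : ContDiffOn ℝ ∞ u (ann R)
  inner : ∀ x : E3, ‖x‖ = 1 → u x = c1
  outer : ∀ x : E3, ‖x‖ = R → u x = c2
  lo : ∀ x ∈ ann R, c1 < u x
  hi : ∀ x ∈ ann R, u x < c2
  nz : ∀ x : E3, ‖x‖ = 1 ∨ ‖x‖ = R → D1 u x ≠ 0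
  kf : IntegrableOn (fun x => fsq (D2 u x) / Real.sqrt (vsq (D1 u x))) (ann R)
  kf0 : ∀ᵐ x ∂(volume.restrict (ann R)), D1 u x = 0 → D2 u x = 0

/-- Solution of the mollified problem with the additional facts: `C³` up to the boundary, strict bounds inside, nonzero
gradient on the spheres. -/
structure SolX (D : OpData) (v : E3 → ℝ) : Prop extends W.Sol D v where
  c3 : ∃ W : Set E3, IsOpen W ∧ cann D.R ⊆ W ∧ ContDiffOn ℝ 3 v W
  pos : ∀ x ∈ ann D.R, 0 < v x
  lt_one : ∀ x ∈ ann D.R, v x < 1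
  nz : ∀ x : E3, ‖x‖ = 1 ∨ ‖x‖ = D.R → D1 v x ≠ 0

/-- The metric and the tensor of section 1: smooth on `{a < |x|}`, `a < 1`. -/
structure GK (g k : Tens) (a : ℝ) : Prop where
  lt : a < 1
  met : MetOn g {x : E3 | a < ‖x‖}
  smooth : ∀ i j, ContDiffOn ℝ ∞ (fun x => k x i j) {x : E3 | a < ‖x‖}
  symm : ∀ x ∈ {x : E3 | a < ‖x‖}, (k x).IsSymm

/-- The density of `∫ (y² - y (H - P)) dσ_g` on a coordinate sphere with respect to the flat surface measure. -/
noncomputable def bd (g k : Tens) (u : E3 → ℝ) (x : E3) : ℝ :=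
  vol g x * (gradNorm g (fun y => ‖y‖) x * (gradNorm g u x ^ 2
    - gradNorm g u x * (meanCurv g (fun y => ‖y‖) x - sphTr g k x)))

/-- `∫_{S_r} (y² - y (H - P)) dσ_g`. -/
noncomputable def bdry (g k : Tens) (u : E3 → ℝ) (r : ℝ) : ℝ :=
  ∫ n : Metric.sphere (0 : E3) 1, r ^ 2 * bd g k u (r • (n : E3)) ∂UMB.Lin.sig

/-- The flux of `vol e^u Y_e` through the sphere of radius `r`. -/
noncomputable def fl (g k : Tens) (u : E3 → ℝ) (e r : ℝ) : ℝ :=
  ∫ n : Metric.sphere (0 : E3) 1, r ^ 2 *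
    ∑ i, vol g (r • (n : E3)) * (Real.exp (u (r • (n : E3))) * Yvec g k u e i (r • (n : E3))) * (n : E3) i ∂UMB.Lin.sig

end UMB
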