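import Pool.Agent.Lib.UMB.M.K4

/-! # UMB section 1, chunk K4b: bounds of kap, Imain and the Mh term -/

set_option autoImplicit false

open Filter Topology Set MeasureTheory
open scoped ContDiff BigOperators

namespace UMB

open Pool.Agent.Lib.PenroseSph (E3 Tens pd chr ric scal trg normSqg divg energy momentum momNorm gradNorm normal meanCurv
  trLevel)

theorem k4b_zero {u : E3 → ℝ} {x : E3} (h : 0 = Real.sqrt (vsq (D1 u x))) : D1 u x = 0 := by
  have h1 : vsq (D1 u x) = 0 := (Real.sqrt_eq_zero (k4_vsq_nn _)).mp h.symm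
  funext i
  have h2 : D1 u x i ^ 2 ≤ vsq (D1 u x) :=
    Finset.single_le_sum (f := fun i => D1 u x i ^ 2) (fun j _ => sq_nonneg _) (Finset.mem_univ i)
  have h3 : D1 u x i ^ 2 = 0 := le_antisymm (h2.trans h1.le) (sq_nonneg _)
  exact pow_eq_zero_iff (two_ne_zero) |>.mp h3

theorem k4b_abs (u : E3 → ℝ) (x : E3) (i : Fin 3) : |pd i u x| ≤ Real.sqrt (vsq (D1 u x)) := by
  rw [← Real.sqrt_sq_eq_abs]
  refine Real.sqrt_le_sqrt ?_
  exact Finset.single_le_sum (f := fun i => D1 u x i ^ 2) (fun j _ => sq_nonneg _) (Finset.mem_univ i)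

theorem k4b_Mh {g k : Tens} {u : E3 → ℝ} {x : E3} {K s B Y : ℝ} (hK : 1 ≤ K) (hB : 1 ≤ B)
    (h : k4_Bd g k u x K s B Y) (i j : Fin 3) :
    |Mh g k u i j x| ≤ (K + 3 * K * B + K ^ 2) * (Real.sqrt (fsq (D2 u x)) + Real.sqrt (vsq (D1 u x))) := by
  have hb0 : 0 ≤ Real.sqrt (vsq (D1 u x)) := Real.sqrt_nonneg _
  have hf0 : 0 ≤ Real.sqrt (fsq (D2 u x)) := Real.sqrt_nonneg _
  have hbB := h.b_le
  have h1 := h.hm i j
  have h2 := k4_mul (h.grad i) (k4b_abs u x j)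
  have h3 : |if i = j then gsq g u x else 0| ≤ K * Real.sqrt (vsq (D1 u x)) ^ 2 := by
    split_ifs
    · exact h.gs
    · rw [abs_zero]
      exact mul_nonneg (by linarith) (sq_nonneg _)
  have hy0 : 0 ≤ yreg g u 0 x := Real.sqrt_nonneg _
  have h4 : |yreg g u 0 x * upk g k i j x| ≤ K * Real.sqrt (vsq (D1 u x)) * K :=
    k4_mul (by rw [abs_of_nonneg hy0]; exact h.y0_le) (h.up i j)
  set b : ℝ := Real.sqrt (vsq (D1 u x)) with hbdef
  set f : ℝ := Real.sqrt (fsq (D2 u x)) with hfdef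
  have h5 : K * b * b ≤ K * B * (f + b) := by
    have e1 : K * b * b ≤ K * B * b := mul_le_mul_of_nonneg_right (mul_le_mul_of_nonneg_left hbB (by linarith)) hb0
    exact e1.trans (mul_le_mul_of_nonneg_left (by linarith) (mul_nonneg (by linarith) (by linarith)))
  have h6 : K * b * K ≤ K ^ 2 * (f + b) := by
    have e1 : K * b * K = K ^ 2 * b := by ring
    rw [e1]
    exact mul_le_mul_of_nonneg_left (by linarith) (sq_nonneg _)
  have h7 : K * b ^ 2 = K * b * b := by ring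
  rw [h7] at h3
  have h8 : (K + 3 * K * B + K ^ 2) * (f + b) = K * (f + b) + 3 * (K * B * (f + b)) + K ^ 2 * (f + b) := by ring
  unfold Mh
  rw [h8]
  rw [abs_le] at h1 h2 h3 h4 ⊢
  constructor
  · linarith [h1.1, h2.1, h3.2, h4.2]
  · linarith [h1.2, h2.2, h3.1, h4.1]

theorem k4b_M {g k : Tens} {u : E3 → ℝ} {x : E3} {K s B Y : ℝ} (hK : 1 ≤ K) (hs : 0 < s) (hB : 1 ≤ B)
    (h : k4_Bd g k u x K s B Y) (h0 : D1 u x = 0 → D2 u x = 0) :
    |(MhSq g k u x - MhTr g k u x ^ 2) / (2 * yreg g u 0 x)| ≤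
      9 * (K + 3 * K * B + K ^ 2) ^ 2 / s * (2 + 2 * B) *
        (1 + Real.sqrt (fsq (D2 u x)) ^ 2 / Real.sqrt (vsq (D1 u x))) := by
  have hM := k4b_Mh hK hB h
  have hy := h.y_ge 0 le_rfl
  have hK0 : 0 ≤ K := by linarith
  have hB0 : 0 ≤ B := by linarith
  set K' : ℝ := K + 3 * K * B + K ^ 2 with hK'
  have hK'0 : 0 ≤ K' := by rw [hK']; positivity
  have hb0 : 0 ≤ Real.sqrt (vsq (D1 u x)) := Real.sqrt_nonneg _
  have hf0 : 0 ≤ Real.sqrt (fsq (D2 u x)) := Real.sqrt_nonneg _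
  have hbB := h.b_le
  set b : ℝ := Real.sqrt (vsq (D1 u x)) with hbdef
  set f : ℝ := Real.sqrt (fsq (D2 u x)) with hfdef
  have hT0 : 0 ≤ f ^ 2 / b := div_nonneg (sq_nonneg _) hb0
  have hsq : |MhSq g k u x| ≤ 9 * (K' * (f + b)) ^ 2 := by
    unfold MhSq
    refine (Finset.abs_sum_le_sum_abs _ _).trans ?_
    have e1 : ∀ i ∈ (Finset.univ : Finset (Fin 3)), |∑ j, Mh g k u i j x * Mh g k u j i x| ≤ 3 * (K' * (f + b)) ^ 2 := by
      intro i _
      refine (Finset.abs_sum_le_sum_abs _ _).trans ?_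
      have e2 : ∀ j ∈ (Finset.univ : Finset (Fin 3)), |Mh g k u i j x * Mh g k u j i x| ≤ (K' * (f + b)) ^ 2 := by
        intro j _
        rw [sq]
        exact k4_mul (hM i j) (hM j i)
      refine (Finset.sum_le_sum e2).trans (le_of_eq ?_)
      simp
    refine (Finset.sum_le_sum e1).trans (le_of_eq ?_)
    simp
    ring
  have htr : |MhTr g k u x| ≤ 3 * (K' * (f + b)) := by
    unfold MhTr
    refine (Finset.abs_sum_le_sum_abs _ _).trans ?_
    refine (Finset.sum_le_sum fun i _ => hM i i).trans (le_of_eq ?_)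
    simp
  have hN : |MhSq g k u x - MhTr g k u x ^ 2| ≤ 18 * K' ^ 2 * (f + b) ^ 2 := by
    have e1 := abs_sub (MhSq g k u x) (MhTr g k u x ^ 2)
    have e2 := k4_mul htr htr
    rw [← sq] at e2
    have e3 : 3 * (K' * (f + b)) * (3 * (K' * (f + b))) = 9 * (K' * (f + b)) ^ 2 := by ring
    have e4 : 18 * K' ^ 2 * (f + b) ^ 2 = 9 * (K' * (f + b)) ^ 2 + 9 * (K' * (f + b)) ^ 2 := by ring
    rw [e3] at e2
    rw [e4]
    linarith
  rcases eq_or_lt_of_le hb0 with hb | hb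
  · have hz2 : D2 u x = 0 := h0 (k4b_zero hb)
    have hf1 : f = 0 := by
      rw [hfdef, hz2]
      simp [fsq]
    rw [hf1, ← hb] at hN
    norm_num at hN
    rw [hN, zero_div, abs_zero]
    positivity
  · have hsb : 0 < s * b := mul_pos hs hb
    have h1 := k4_div hN (by linarith : 0 < 2 * (s * b)) (by linarith : 2 * (s * b) ≤ 2 * yreg g u 0 x)
    refine h1.trans ?_
    have h3 : 18 * K' ^ 2 * (f + b) ^ 2 / (2 * (s * b)) = 9 * K' ^ 2 / s * ((f + b) ^ 2 / b) := by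
      field_simp
      ring
    rw [h3, mul_assoc (9 * K' ^ 2 / s)]
    exact mul_le_mul_of_nonneg_left (k4_quot hf0 hb hbB) (by positivity)

theorem k4b_kap {g k : Tens} {u : E3 → ℝ} {x : E3} {K s B Y : ℝ} (hK : 1 ≤ K) (hs : 0 < s) (hB : 1 ≤ B) (hY : 0 ≤ Y)
    (h : k4_Bd g k u x K s B Y) (h0 : D1 u x = 0 → D2 u x = 0) :
    |kap g u x| ≤ (Y * K + K * B / s + K ^ 2 / s * (2 + 2 * B) + 2 * K ^ 2 / s ^ 3 * (2 + 2 * B)) *
        (1 + Real.sqrt (fsq (D2 u x)) ^ 2 / Real.sqrt (vsq (D1 u x))) := by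
  have hK0 : 0 ≤ K := by linarith
  have hB0 : 0 ≤ B := by linarith
  have hb0 : 0 ≤ Real.sqrt (vsq (D1 u x)) := Real.sqrt_nonneg _
  have hf0 : 0 ≤ Real.sqrt (fsq (D2 u x)) := Real.sqrt_nonneg _
  have hbB := h.b_le
  have hy0 : 0 ≤ yreg g u 0 x := Real.sqrt_nonneg _
  have hyY := h.y_le 0 (by norm_num)
  have hyg := h.y_ge 0 le_rfl
  have hyl := h.y0_le
  rcases eq_or_lt_of_le hb0 with hb | hb
  · have hz2 : D2 u x = 0 := h0 (k4b_zero hb)
    have hf1 : Real.sqrt (fsq (D2 u x)) = 0 := by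
      rw [hz2]
      simp [fsq]
    rw [← hb, mul_zero] at hyl
    have hy : yreg g u 0 x = 0 := le_antisymm hyl hy0
    have hk0 : kap g u x = 0 := by
      unfold kap
      rw [hy]
      norm_num
    rw [hk0, abs_zero]
    have hT0 : 0 ≤ Real.sqrt (fsq (D2 u x)) ^ 2 / Real.sqrt (vsq (D1 u x)) := div_nonneg (sq_nonneg _) hb0
    positivity
  · have t4 := k4_q2 hK hs h hb (e := 0) le_rfl
    have hl := h.lap
    have hq := h.hsq
    have hr := h.ricb
    have hsc := h.sc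
    set b : ℝ := Real.sqrt (vsq (D1 u x)) with hbdef
    set f : ℝ := Real.sqrt (fsq (D2 u x)) with hfdef
    have hT0 : 0 ≤ f ^ 2 / b := div_nonneg (sq_nonneg _) hb0
    have hsb : 0 < s * b := mul_pos hs hb
    have t1 : |yreg g u 0 x * scal g x / 2| ≤ Y * K := by
      have e1 : |yreg g u 0 x * scal g x| ≤ Y * K := k4_mul (by rw [abs_of_nonneg hy0]; exact hyY) hsc
      rw [abs_div, abs_of_pos (by norm_num : (0 : ℝ) < 2)]
      have e2 : 0 ≤ Y * K := mul_nonneg hY hK0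
      linarith
    have t2 : |ricGG g u x / yreg g u 0 x| ≤ K * B / s := by
      refine (k4_div hr hsb hyg).trans ?_
      have h3 : K * b ^ 2 / (s * b) = K * b / s := by
        field_simp
      rw [h3]
      exact div_le_div_of_nonneg_right (mul_le_mul_of_nonneg_left hbB hK0) hs.le
    have t3 : |(hessSq g u x - lapG g u x ^ 2) / (2 * yreg g u 0 x)| ≤
        K ^ 2 / s * (2 + 2 * B) * (1 + f ^ 2 / b) := by
      have h1 : |hessSq g u x - lapG g u x ^ 2| ≤ 2 * K ^ 2 * (f + b) ^ 2 := by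
        have h2 := k4_mul hl hl
        have h4 := abs_sub (hessSq g u x) (lapG g u x ^ 2)
        rw [← sq] at h2
        have h7 : K * (f + b) * (K * (f + b)) = K ^ 2 * (f + b) ^ 2 := by ring
        rw [h7] at h2
        have h8 : K * (f + b) ^ 2 ≤ K ^ 2 * (f + b) ^ 2 :=
          mul_le_mul_of_nonneg_right (by nlinarith) (sq_nonneg _)
        linarith
      have h2 := k4_div h1 (by linarith : 0 < 2 * (s * b)) (by linarith : 2 * (s * b) ≤ 2 * yreg g u 0 x)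
      refine h2.trans ?_
      have h3 : 2 * K ^ 2 * (f + b) ^ 2 / (2 * (s * b)) = K ^ 2 / s * ((f + b) ^ 2 / b) := by
        field_simp
      rw [h3, mul_assoc (K ^ 2 / s)]
      exact mul_le_mul_of_nonneg_left (k4_quot hf0 hb hbB) (by positivity)
    rw [← mul_assoc] at t4
    have hT : 1 ≤ 1 + f ^ 2 / b := by linarith
    have u1 : Y * K ≤ Y * K * (1 + f ^ 2 / b) := le_mul_of_one_le_right (by positivity) hT
    have u2 : K * B / s ≤ K * B / s * (1 + f ^ 2 / b) := le_mul_of_one_le_right (by positivity) hT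
    have hsum : (Y * K + K * B / s + K ^ 2 / s * (2 + 2 * B) + 2 * K ^ 2 / s ^ 3 * (2 + 2 * B)) * (1 + f ^ 2 / b) =
        Y * K * (1 + f ^ 2 / b) + K * B / s * (1 + f ^ 2 / b) + K ^ 2 / s * (2 + 2 * B) * (1 + f ^ 2 / b)
        + 2 * K ^ 2 / s ^ 3 * (2 + 2 * B) * (1 + f ^ 2 / b) := by ring
    unfold kap
    rw [abs_le] at t1 t2 t3 t4
    rw [hsum, abs_le]
    constructor
    · linarith [t1.1, t2.2, t3.2, t4.1]
    · linarith [t1.2, t2.1, t3.1, t4.2]

/-- **K4b.** PROOF. As K4 with `y = yreg g u 0`: `|kap| ≤ C (B + A²/B)`; `|Mh| ≤ C A` (`B` is bounded), so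
`|MhSq - MhTr²|/(2y) ≤ C A²/B`; the rest of `Imain` is bounded (`energy`, `kGG`, `JGrad`: K1, K3). If `B = 0`:
`D2 u x = 0`, everything is zero (division by zero included). -/
theorem K4b_bd {g k : Tens} {a : ℝ} (hG : GK g k a) {R c1 c2 : ℝ} {u : E3 → ℝ} (hu : LF R c1 c2 u) : ∃ K : ℝ, 0 ≤ K ∧
    ∀ x ∈ ann R, (D1 u x = 0 → D2 u x = 0) →
      |vol g x * (Real.exp (u x) * kap g u x)| ≤ K * (1 + fsq (D2 u x) / Real.sqrt (vsq (D1 u x))) ∧
      |vol g x * (Real.exp (u x) * Imain g k u x)| ≤ K * (1 + fsq (D2 u x) / Real.sqrt (vsq (D1 u x))) ∧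
      |vol g x * (Real.exp (u x) * ((MhSq g k u x - MhTr g k u x ^ 2) / (2 * yreg g u 0 x)))| ≤
        K * (1 + fsq (D2 u x) / Real.sqrt (vsq (D1 u x))) ∧
      |vol g x * (Real.exp (u x) * yreg g u 0 x)| ≤ K := by
  obtain ⟨K, s, B, Y, hK, hs, hB, hY, hbd⟩ := k4_setup hG hu
  have hK0 : 0 ≤ K := by linarith
  have hB0 : 0 ≤ B := by linarith
  set P1 : ℝ := Y * K + K * B / s + K ^ 2 / s * (2 + 2 * B) + 2 * K ^ 2 / s ^ 3 * (2 + 2 * B) with hP1
  set P2 : ℝ := 9 * (K + 3 * K * B + K ^ 2) ^ 2 / s * (2 + 2 * B) with hP2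
  have hP1n : 0 ≤ P1 := by rw [hP1]; positivity
  have hP2n : 0 ≤ P2 := by rw [hP2]; positivity
  set P3 : ℝ := K * B ^ 2 * K + K * B ^ 2 + Y * K + K * B with hP3
  have hP3n : 0 ≤ P3 := by rw [hP3]; positivity
  refine ⟨K * (P1 + P2 + P3 + Y), by positivity, ?_⟩
  intro x hx h0
  have h := hbd x hx
  have hf0 := k4_fsq_nn (D2 u x)
  have hfs : Real.sqrt (fsq (D2 u x)) ^ 2 = fsq (D2 u x) := Real.sq_sqrt hf0
  have m1 := k4b_kap hK hs hB hY h h0
  have m2 := k4b_M hK hs hB h h0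
  rw [hfs] at m1 m2
  have hb0 : 0 ≤ Real.sqrt (vsq (D1 u x)) := Real.sqrt_nonneg _
  have hT0 : 0 ≤ fsq (D2 u x) / Real.sqrt (vsq (D1 u x)) := div_nonneg hf0 hb0
  have hT : 1 ≤ 1 + fsq (D2 u x) / Real.sqrt (vsq (D1 u x)) := by linarith
  set T : ℝ := 1 + fsq (D2 u x) / Real.sqrt (vsq (D1 u x)) with hTdef
  have hvK : |vol g x * Real.exp (u x)| ≤ K := by
    rw [abs_of_nonneg h.v_nn]
    exact h.v_le
  have hy0 : 0 ≤ yreg g u 0 x := Real.sqrt_nonneg _
  have hya : |yreg g u 0 x| ≤ Y := by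
    rw [abs_of_nonneg hy0]
    exact h.y_le 0 (by norm_num)
  have hbB := h.b_le
  have hb2 : Real.sqrt (vsq (D1 u x)) ^ 2 ≤ B ^ 2 := pow_le_pow_left₀ hb0 hbB 2
  have key : ∀ z p : ℝ, |z| ≤ p * T → p ≤ P1 + P2 + P3 + Y →
      |vol g x * (Real.exp (u x) * z)| ≤ K * (P1 + P2 + P3 + Y) * T := by
    intro z p hz hp
    have e1 : vol g x * (Real.exp (u x) * z) = vol g x * Real.exp (u x) * z := by ring
    rw [e1, mul_assoc K]
    exact k4_mul hvK (hz.trans (mul_le_mul_of_nonneg_right hp (by linarith)))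
  refine ⟨key _ P1 m1 (by linarith), ?_, key _ P2 m2 (by linarith), ?_⟩
  · refine key _ (P2 + P3) ?_ (by linarith)
    have t1 : |gsq g u x * trg g k x| ≤ K * B ^ 2 * K :=
      k4_mul (h.gs.trans (mul_le_mul_of_nonneg_left hb2 hK0)) h.tr
    have t2 : |kGG g k u x| ≤ K * B ^ 2 := h.kg.trans (mul_le_mul_of_nonneg_left hb2 hK0)
    have t3 : |yreg g u 0 x * energy g k x| ≤ Y * K := k4_mul hya h.en
    have t4 : |JGrad g k u x| ≤ K * B := h.jg.trans (mul_le_mul_of_nonneg_left hbB hK0)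
    have t5 : P3 ≤ P3 * T := le_mul_of_one_le_right hP3n hT
    have t6 : P3 = K * B ^ 2 * K + K * B ^ 2 + Y * K + K * B := hP3
    unfold Imain
    rw [abs_le] at m2 t1 t2 t3 t4 ⊢
    rw [add_mul]
    constructor
    · linarith [m2.1, t1.1, t2.1, t3.1, t4.2]
    · linarith [m2.2, t1.2, t2.2, t3.2, t4.1]
  · have e1 : vol g x * (Real.exp (u x) * yreg g u 0 x) = vol g x * Real.exp (u x) * yreg g u 0 x := by ring
    rw [e1]
    refine k4_mul hvK ?_
    linarith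

end UMB
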