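import Pool.Agent.Lib.UMB.M.Defs

/-! # UMB section 1, chunk K5: measurability -/

set_option autoImplicit false

open Filter Topology Set MeasureTheory
open scoped ContDiff BigOperators

namespace UMB

open Pool.Agent.Lib.PenroseSph (E3 Tens pd chr ric scal trg normSqg divg energy momentum momNorm gradNorm normal meanCurv
  trLevel)

theorem k5_met {g k : Tens} {a : ℝ} (hG : GK g k a) (R : ℝ) : MetOn g (ann R) := by
  have hs : ann R ⊆ {x : E3 | a < ‖x‖} := fun x hx => hG.lt.trans hx.1
  refine ⟨?_, fun i j => (hG.met.smooth i j).mono hs, fun x hx => hG.met.symm x (hs hx), fun x hx => hG.met.pos x (hs hx)⟩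
  exact (isOpen_lt continuous_const continuous_norm).inter (isOpen_lt continuous_norm continuous_const)

theorem k5_sm {U : Set E3} (F : SmR U) {f : E3 → ℝ} (h : ∀ x : U, F.1 x = f x) : ContDiffOn ℝ ∞ f U := by
  refine (smr_smooth F).congr fun x hx => ?_
  rw [extU_of _ hx]
  exact (h ⟨x, hx⟩).symm

theorem k5_am {R : ℝ} {f : E3 → ℝ} (h : ContDiffOn ℝ ∞ f (ann R)) : AEMeasurable f (volume.restrict (ann R)) := by
  have hU : IsOpen (ann R) :=
    (isOpen_lt continuous_const continuous_norm).inter (isOpen_lt continuous_norm continuous_const)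
  exact (h.continuousOn.aestronglyMeasurable hU.measurableSet).aemeasurable

/-- **K5.** PROOF. `vol g`, `u`, `pd i u`, `pd i (pd j u)`, `(g x)⁻¹ i j`, `chr`, `ric`, `scal`, `k`, `trg`, `momentum`,
`energy` are continuous on the open set `ann R` (smooth: `MetOn.*_smooth`, `smr_smooth` with `val_*`), so they are
`AEStronglyMeasurable` for `volume.restrict (ann R)` (`ContinuousOn.aestronglyMeasurable`); the expressions are built from
them with sums, products, `Real.sqrt`, powers and divisions (`AEMeasurable.div` etc.; pass to `AEMeasurable` and back). -/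
theorem K5_meas {g k : Tens} {a : ℝ} (hG : GK g k a) {R : ℝ} {u : E3 → ℝ} (hu : ContDiffOn ℝ ∞ u (ann R)) :
    AEStronglyMeasurable (fun x => vol g x * (Real.exp (u x) * kap g u x)) (volume.restrict (ann R)) ∧
    AEStronglyMeasurable (fun x => vol g x * (Real.exp (u x) * Imain g k u x)) (volume.restrict (ann R)) ∧
    AEStronglyMeasurable (fun x => vol g x * (Real.exp (u x) * ((MhSq g k u x - MhTr g k u x ^ 2) / (2 * yreg g u 0 x))))
      (volume.restrict (ann R)) ∧
    AEStronglyMeasurable (fun x => vol g x * (Real.exp (u x) * yreg g u 0 x)) (volume.restrict (ann R)) ∧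
    ∀ e : ℝ, AEStronglyMeasurable (fun x => vol g x * (Real.exp (u x) * RHe g k u e x)) (volume.restrict (ann R)) := by
  have hm := k5_met hG R
  have hs : ann R ⊆ {x : E3 | a < ‖x‖} := fun x hx => hG.lt.trans hx.1
  have hk : ∀ i j, ContDiffOn ℝ ∞ (fun x => k x i j) (ann R) := fun i j => (hG.smooth i j).mono hs
  have m_vol : AEMeasurable (fun x => vol g x) (volume.restrict (ann R)) := k5_am hm.vol_smooth
  have m_u : AEMeasurable (fun x => u x) (volume.restrict (ann R)) := k5_am hu
  have m_gsq : AEMeasurable (fun x => gsq g u x) (volume.restrict (ann R)) := k5_am (hm.gsq_smooth hu)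
  have m_gr : ∀ i, AEMeasurable (fun x => gradU g u i x) (volume.restrict (ann R)) :=
    fun i => k5_am (k5_sm _ (val_gr hm hu i))
  have m_pd : ∀ i, AEMeasurable (fun x => pd i u x) (volume.restrict (ann R)) :=
    fun i => k5_am (k5_sm _ (val_Du hm hu i))
  have m_hm : ∀ i j, AEMeasurable (fun x => hessM g u i j x) (volume.restrict (ann R)) :=
    fun i j => k5_am (k5_sm _ (val_hm hm hu i j))
  have m_lap : AEMeasurable (fun x => lapG g u x) (volume.restrict (ann R)) := k5_am (k5_sm _ (val_lap hm hu))
  have m_hsq : AEMeasurable (fun x => hessSq g u x) (volume.restrict (ann R)) := k5_am (k5_sm _ (val_hsq hm hu))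
  have m_hgg : AEMeasurable (fun x => hgg g u x) (volume.restrict (ann R)) := k5_am (k5_sm _ (val_hgg hm hu))
  have m_hgq : AEMeasurable (fun x => hgradSq g u x) (volume.restrict (ann R)) := k5_am (k5_sm _ (val_hgq hm hu))
  have m_ricg : AEMeasurable (fun x => ricGG g u x) (volume.restrict (ann R)) := k5_am (k5_sm _ (val_ricg hm hu))
  have m_scal : AEMeasurable (fun x => scal g x) (volume.restrict (ann R)) := k5_am (k5_sm _ (val_scal hm))
  have m_up : ∀ i j, AEMeasurable (fun x => upk g k i j x) (volume.restrict (ann R)) :=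
    fun i j => k5_am (k5_sm _ (val_up hm hk i j))
  have m_tr : AEMeasurable (fun x => trg g k x) (volume.restrict (ann R)) := k5_am (hm.trg_smooth hk)
  have m_kh : AEMeasurable (fun x => kHess g k u x) (volume.restrict (ann R)) := k5_am (k5_sm _ (val_kh hm hu hk))
  have m_kg : AEMeasurable (fun x => kGG g k u x) (volume.restrict (ann R)) := k5_am (k5_sm _ (val_kgg hm hu hk))
  have m_J : AEMeasurable (fun x => JGrad g k u x) (volume.restrict (ann R)) := k5_am (k5_sm _ (val_Jg hm hu hk))
  have m_y : ∀ e, AEMeasurable (fun x => yreg g u e x) (volume.restrict (ann R)) := by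
    intro e
    unfold yreg
    exact (m_gsq.add_const e).sqrt
  have m_inv : ∀ i j, AEMeasurable (fun x => (g x)⁻¹ i j) (volume.restrict (ann R)) :=
    fun i j => k5_am (hm.inv_smooth i j)
  have m_k : ∀ i j, AEMeasurable (fun x => k x i j) (volume.restrict (ann R)) := fun i j => k5_am (hk i j)
  have m_nk : AEMeasurable (fun x => normSqg g k x) (volume.restrict (ann R)) := by
    unfold normSqg
    exact Finset.aemeasurable_fun_sum _ fun i _ => Finset.aemeasurable_fun_sum _ fun j _ =>
      Finset.aemeasurable_fun_sum _ fun l _ => Finset.aemeasurable_fun_sum _ fun m _ =>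
        (((m_inv i l).mul (m_inv j m)).mul (m_k i j)).mul (m_k l m)
  have m_en : AEMeasurable (fun x => energy g k x) (volume.restrict (ann R)) := by
    unfold energy
    exact ((m_scal.sub m_nk).add (m_tr.pow_const 2)).div_const 2
  have m_Mh : ∀ i j, AEMeasurable (fun x => Mh g k u i j x) (volume.restrict (ann R)) := by
    intro i j
    unfold Mh
    by_cases hij : i = j
    · simp only [hij, if_true]
      exact (((m_hm j j).add (((m_gr j).const_mul 2).mul (m_pd j))).sub m_gsq).sub ((m_y 0).mul (m_up j j))
    · simp only [hij, if_false]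
      exact (((m_hm i j).add (((m_gr i).const_mul 2).mul (m_pd j))).sub aemeasurable_const).sub ((m_y 0).mul (m_up i j))
  have m_MhSq : AEMeasurable (fun x => MhSq g k u x) (volume.restrict (ann R)) := by
    unfold MhSq
    exact Finset.aemeasurable_fun_sum _ fun i _ => Finset.aemeasurable_fun_sum _ fun j _ => (m_Mh i j).mul (m_Mh j i)
  have m_MhTr : AEMeasurable (fun x => MhTr g k u x) (volume.restrict (ann R)) := by
    unfold MhTr
    exact Finset.aemeasurable_fun_sum _ fun i _ => m_Mh i i
  have m_exp : AEMeasurable (fun x => Real.exp (u x)) (volume.restrict (ann R)) := m_u.exp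
  have m_q : AEMeasurable (fun x => (MhSq g k u x - MhTr g k u x ^ 2) / (2 * yreg g u 0 x)) (volume.restrict (ann R)) :=
    (m_MhSq.sub (m_MhTr.pow_const 2)).div ((m_y 0).const_mul 2)
  have m_kap : AEMeasurable (fun x => kap g u x) (volume.restrict (ann R)) := by
    unfold kap
    exact (((((m_y 0).mul m_scal).div_const 2).sub (m_ricg.div (m_y 0))).sub
      ((m_hsq.sub (m_lap.pow_const 2)).div ((m_y 0).const_mul 2))).add
      ((m_hgq.sub (m_lap.mul m_hgg)).div ((m_y 0).pow_const 3))
  have m_I : AEMeasurable (fun x => Imain g k u x) (volume.restrict (ann R)) := by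
    unfold Imain
    exact ((m_q.add (m_gsq.mul m_tr)).add m_kg).add (((m_y 0).mul m_en).sub m_J)
  have m_R : ∀ e, AEMeasurable (fun x => RHe g k u e x) (volume.restrict (ann R)) := by
    intro e
    unfold RHe
    have y := m_y e
    exact (((((((((((m_hsq.sub (m_lap.pow_const 2)).add m_ricg).div y).sub
      ((m_hgq.sub (m_lap.mul m_hgg)).div (y.pow_const 3))).add (y.mul m_lap)).add (m_hgg.div y)).add
      (m_tr.mul m_lap)).sub m_kh).sub m_J).add ((m_hgg.sub (m_lap.mul m_gsq)).div y)).add
      (y.mul m_gsq)).add (m_tr.mul m_gsq) |>.sub m_kg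
  exact ⟨(m_vol.mul (m_exp.mul m_kap)).aestronglyMeasurable, (m_vol.mul (m_exp.mul m_I)).aestronglyMeasurable,
    (m_vol.mul (m_exp.mul m_q)).aestronglyMeasurable, (m_vol.mul (m_exp.mul (m_y 0))).aestronglyMeasurable,
    fun e => (m_vol.mul (m_exp.mul (m_R e))).aestronglyMeasurable⟩

end UMB
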