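import Pool.Agent.Lib.UMB.M.K4b
import Pool.Agent.Lib.UMB.M.K5

/-! # UMB section 1, chunk MI: integrability -/

set_option autoImplicit false

open Filter Topology Set MeasureTheory
open scoped ContDiff BigOperators

namespace UMB

open Pool.Agent.Lib.PenroseSph (E3 Tens pd chr ric scal trg normSqg divg energy momentum momNorm gradNorm normal meanCurv
  trLevel)

theorem mi_const (R K : ℝ) : IntegrableOn (fun _ : E3 => K) (ann R) := by
  haveI : IsFiniteMeasure (volume.restrict (ann R)) :=
    ⟨by rw [Measure.restrict_apply_univ]; exact UMB.Lin.volume_Ann_lt_top R⟩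
  exact integrable_const K

theorem mi_bound {R c1 c2 : ℝ} {u : E3 → ℝ} (hu : LF R c1 c2 u) (K : ℝ) :
    IntegrableOn (fun x => K * (1 + fsq (D2 u x) / Real.sqrt (vsq (D1 u x)))) (ann R) :=
  Integrable.const_mul (Integrable.add (mi_const R 1) hu.kf) K

/-- Integrability. PROOF. K5 and K4b: the bound `K (1 + fsq/√vsq)` holds almost everywhere (`kf0`) and is integrable
(`kf`, finite volume of the annulus). -/
theorem M1_int {g k : Tens} {a : ℝ} (hG : GK g k a) {R c1 c2 : ℝ} {u : E3 → ℝ} (hu : LF R c1 c2 u) :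
    IntegrableOn (fun x => vol g x * (Real.exp (u x) * kap g u x)) (ann R) ∧
    IntegrableOn (fun x => vol g x * (Real.exp (u x) * Imain g k u x)) (ann R) ∧
    IntegrableOn (fun x => vol g x * (Real.exp (u x) * ((MhSq g k u x - MhTr g k u x ^ 2) / (2 * yreg g u 0 x)))) (ann R) ∧
    IntegrableOn (fun x => vol g x * (Real.exp (u x) * yreg g u 0 x)) (ann R) := by
  obtain ⟨K, hK0, hK⟩ := K4b_bd hG hu
  obtain ⟨m1, m2, m3, m4, -⟩ := K5_meas (k := k) hG hu.smooth
  have hb := mi_bound hu K
  have hc := mi_const R K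
  have hae : ∀ᵐ x ∂(volume.restrict (ann R)), x ∈ ann R := ae_restrict_mem (UMB.Lin.measurableSet_Ann R)
  refine ⟨Integrable.mono' hb m1 ?_, Integrable.mono' hb m2 ?_, Integrable.mono' hb m3 ?_, Integrable.mono' hc m4 ?_⟩
  · filter_upwards [hae, hu.kf0] with x hx h0
    rw [Real.norm_eq_abs]
    exact (hK x hx h0).1
  · filter_upwards [hae, hu.kf0] with x hx h0
    rw [Real.norm_eq_abs]
    exact (hK x hx h0).2.1
  · filter_upwards [hae, hu.kf0] with x hx h0
    rw [Real.norm_eq_abs]
    exact (hK x hx h0).2.2.1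
  · filter_upwards [hae, hu.kf0] with x hx h0
    rw [Real.norm_eq_abs]
    exact (hK x hx h0).2.2.2

end UMB
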