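import Pool.Agent.Lib.UMB.M.P2

/-! # UMB section 1, chunk R2: pointwise limit of the regularised right side -/

set_option autoImplicit false

open Filter Topology Set MeasureTheory
open scoped ContDiff BigOperators

namespace UMB

open Pool.Agent.Lib.PenroseSph (E3 Tens pd chr ric scal trg normSqg divg energy momentum momNorm gradNorm normal meanCurv
  trLevel)

/-- **R2.** PROOF. Case `0 < gsq g u x`: `e ↦ yreg g u e x = √(gsq + e)` is continuous at `0` with positive value, so
`RHe g k u e x → RHe g k u 0 x = Imain - kap` (`MetOn.RH_zero`). Case `gsq g u x = 0`: `g⁻¹` is positive definite, so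
`pd i u x = 0` for all `i`, i.e. `D1 u x = 0`, so `D2 u x = 0`, `hess = 0`, `gradU = 0`: `RHe g k u e x = 0` for all `e`,
and `Imain = kap = 0` (`Mh = 0`, `yreg g u 0 x = 0`). -/
theorem R2_lim {g k : Tens} {a : ℝ} (hG : GK g k a) {u : E3 → ℝ} {x : E3} (hx : a < ‖x‖)
    (h0 : D1 u x = 0 → D2 u x = 0) :
    Tendsto (fun e => RHe g k u e x) (𝓝[>] 0) (𝓝 (Imain g k u x - kap g u x)) := by
  have hx' : x ∈ {x : E3 | a < ‖x‖} := hx
  have hq := (grad_forms (k := k) hG.met hx' u).1
  have hnn : 0 ≤ gsq g u x := by
    rw [hq]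
    exact p2_nonneg hG.met hx' _
  rcases hnn.lt_or_eq with hf | hf
  · rw [← hG.met.RH_zero hG.symm hx' hf]
    have hy0 : yreg g u 0 x ≠ 0 := by
      unfold yreg
      rw [add_zero]
      exact (Real.sqrt_pos.2 hf).ne'
    have hyc : ContinuousAt (fun e => yreg g u e x) 0 := by
      unfold yreg
      fun_prop
    have hc : ContinuousAt (fun e => RHe g k u e x) 0 := by
      unfold RHe
      have hy3 : yreg g u 0 x ^ 3 ≠ 0 := pow_ne_zero 3 hy0
      fun_prop (disch := assumption)
    exact hc.tendsto.mono_left nhdsWithin_le_nhds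
  · have hG0 : ∀ i, gradU g u i x = 0 := by
      by_contra hne
      have hv : (fun i => gradU g u i x) ≠ 0 := by
        intro h1
        exact hne fun i => congrFun h1 i
      have h3 := hG.met.pos x hx' _ hv
      have h2 : quad g x (fun i => gradU g u i x) = 0 := hq.symm.trans hf.symm
      unfold quad at h2
      linarith
    have hp : ∀ i, pd i u x = 0 := by
      intro i
      rw [← p2_low hG.met hx' u i]
      simp [hG0]
    have hD1 : D1 u x = 0 := funext hp
    have hD2 : ∀ i j, pd i (pd j u) x = 0 := fun i j => congrFun (congrFun (h0 hD1) i) j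
    have hh : ∀ i j, hess g u i j x = 0 := by
      intro i j
      simp [hess, hD2, hp]
    have hM : ∀ i j, hessM g u i j x = 0 := by
      intro i j
      simp [hessM, hh]
    have hL : lapG g u x = 0 := by simp [lapG, hM]
    have hR : ∀ e, RHe g k u e x = 0 := by
      intro e
      simp [RHe, hL, hessSq, hM, ricGG, hG0, hgradSq, hgrad, hgg, kHess, JGrad, ← hf, kGG]
    have hy : yreg g u 0 x = 0 := by simp [yreg, ← hf]
    have hI : Imain g k u x = 0 := by
      simp [Imain, hy, ← hf, kGG, hG0, JGrad]
    have hk : kap g u x = 0 := by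
      simp [kap, hy]
    simp only [hR, hI, hk, sub_zero]
    exact tendsto_const_nhds

end UMB
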