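import Pool.Agent.Lib.UMB.M.Defs

/-! # UMB section 1, chunk K2: pointwise bounds of the Hessian expressions -/

set_option autoImplicit false

/-! # UMB section 1, chunk K2: pointwise bounds of the Hessian expressions -/

open Filter Topology Set MeasureTheory
open scoped ContDiff BigOperators

namespace UMB

open Pool.Agent.Lib.PenroseSph (E3 Tens pd chr ric scal trg normSqg divg energy momentum momNorm gradNorm normal meanCurv
  trLevel)

theorem k2_sum {f : Fin 3 → ℝ} {c : ℝ} (h : ∀ i, |f i| ≤ c) : |∑ i, f i| ≤ 3 * c := by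
  rw [Fin.sum_univ_three]
  calc |f 0 + f 1 + f 2| ≤ |f 0| + |f 1| + |f 2| := abs_add_three _ _ _
    _ ≤ 3 * c := by linarith [h 0, h 1, h 2]

theorem k2_mul {a b p q : ℝ} (ha : |a| ≤ p) (hb : |b| ≤ q) : |a * b| ≤ p * q := by
  rw [abs_mul]
  exact mul_le_mul ha hb (abs_nonneg _) ((abs_nonneg _).trans ha)

theorem k2_C {C : ℝ} (hC : 1 ≤ C) : C ≤ C ^ 5 ∧ C ^ 2 ≤ C ^ 5 ∧ C ^ 3 ≤ C ^ 5 ∧ C ^ 4 ≤ C ^ 5 ∧ 1 ≤ C ^ 5 := by
  refine ⟨?_, ?_, ?_, ?_, ?_⟩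
  · calc C = C ^ 1 := (pow_one C).symm
      _ ≤ C ^ 5 := pow_le_pow_right₀ hC (by norm_num)
  · exact pow_le_pow_right₀ hC (by norm_num)
  · exact pow_le_pow_right₀ hC (by norm_num)
  · exact pow_le_pow_right₀ hC (by norm_num)
  · exact one_le_pow₀ hC

/-- **K2.** The quadratic expressions in `Hess u` and `du`, with constants depending only on a bound `C ≥ 1` of
`g⁻¹`, `chr`. With `A := √fsq(D2 u) + √vsq(D1 u)`, `B := √vsq (D1 u)`. PROOF. `|D2 u i j| ≤ √fsq`, `|pd i u| ≤ B`: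
`|gradU| ≤ 3 C B`, `|hess i j| ≤ √fsq + 3 C B ≤ 3 C A`, `|hessM| ≤ 9 C² A`, then multiply and count the terms (generous
constants: every expression is a sum of at most 81 products). -/
theorem K2_bd (C : ℝ) (hC : 1 ≤ C) : ∃ K : ℝ, 1 ≤ K ∧ ∀ (g : Tens) (u : E3 → ℝ) (x : E3), (∀ i j, |(g x)⁻¹ i j| ≤ C) →
    (∀ l i j, |chr g l i j x| ≤ C) → (∀ i j, |ric g i j x| ≤ C) →
    (∀ i, |gradU g u i x| ≤ K * Real.sqrt (vsq (D1 u x))) ∧
    (∀ i j, |hessM g u i j x| ≤ K * (Real.sqrt (fsq (D2 u x)) + Real.sqrt (vsq (D1 u x)))) ∧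
    |lapG g u x| ≤ K * (Real.sqrt (fsq (D2 u x)) + Real.sqrt (vsq (D1 u x))) ∧
    |hessSq g u x| ≤ K * (Real.sqrt (fsq (D2 u x)) + Real.sqrt (vsq (D1 u x))) ^ 2 ∧
    |ricGG g u x| ≤ K * vsq (D1 u x) ∧ |gsq g u x| ≤ K * vsq (D1 u x) ∧
    |hgradSq g u x| ≤ K * (Real.sqrt (fsq (D2 u x)) + Real.sqrt (vsq (D1 u x))) ^ 2 * vsq (D1 u x) ∧
    |hgg g u x| ≤ K * (Real.sqrt (fsq (D2 u x)) + Real.sqrt (vsq (D1 u x))) * vsq (D1 u x) := by
  refine ⟨6561 * C ^ 5, ?_, ?_⟩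
  · have := (k2_C hC).2.2.2.2
    linarith
  intro g u x hg hch hric
  obtain ⟨c1, c2, c3, c4, c5⟩ := k2_C hC
  have hC0 : 0 ≤ C := by linarith
  obtain ⟨F, hF⟩ : ∃ F, F = Real.sqrt (fsq (D2 u x)) := ⟨_, rfl⟩
  obtain ⟨B, hB⟩ : ∃ B, B = Real.sqrt (vsq (D1 u x)) := ⟨_, rfl⟩
  have hF0 : 0 ≤ F := by rw [hF]; exact Real.sqrt_nonneg _
  have hB0 : 0 ≤ B := by rw [hB]; exact Real.sqrt_nonneg _
  have hv0 : 0 ≤ vsq (D1 u x) := Finset.sum_nonneg fun i _ => sq_nonneg _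
  have hBB : vsq (D1 u x) = B ^ 2 := by rw [hB, Real.sq_sqrt hv0]
  have hd1 : ∀ i, |pd i u x| ≤ B := by
    intro i
    rw [hB]
    apply Real.abs_le_sqrt
    exact Finset.single_le_sum (f := fun i => D1 u x i ^ 2) (fun j _ => sq_nonneg _) (Finset.mem_univ i)
  have hd2 : ∀ i j, |pd i (pd j u) x| ≤ F := by
    intro i j
    rw [hF]
    apply Real.abs_le_sqrt
    have h1 : D2 u x i j ^ 2 ≤ ∑ j, D2 u x i j ^ 2 :=
      Finset.single_le_sum (f := fun j => D2 u x i j ^ 2) (fun j _ => sq_nonneg _) (Finset.mem_univ j)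
    have h2 : ∑ j, D2 u x i j ^ 2 ≤ fsq (D2 u x) :=
      Finset.single_le_sum (f := fun i => ∑ j, D2 u x i j ^ 2)
        (fun i _ => Finset.sum_nonneg fun j _ => sq_nonneg _) (Finset.mem_univ i)
    exact h1.trans h2
  rw [← hF, ← hB, hBB]
  obtain ⟨A, hA⟩ : ∃ A, A = F + B := ⟨_, rfl⟩
  rw [← hA]
  have hA0 : 0 ≤ A := by rw [hA]; positivity
  have g1 : ∀ i, |gradU g u i x| ≤ 3 * (C * B) := fun i => k2_sum fun j => k2_mul (hg i j) (hd1 j)
  have g2 : ∀ i j, |hess g u i j x| ≤ 3 * C * A := by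
    intro i j
    have h1 : |∑ k, chr g k i j x * pd k u x| ≤ 3 * (C * B) := k2_sum fun k => k2_mul (hch k i j) (hd1 k)
    have h2 := hd2 i j
    have h3 : |hess g u i j x| ≤ |pd i (pd j u) x| + |∑ k, chr g k i j x * pd k u x| := by
      unfold hess
      exact abs_sub _ _
    have h4 : F ≤ 3 * C * F := by nlinarith
    rw [hA]
    nlinarith
  have g3 : ∀ a i, |hessM g u a i x| ≤ 9 * C ^ 2 * A := by
    intro a i
    refine (k2_sum fun j => k2_mul (hg a j) (g2 i j)).trans (le_of_eq ?_)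
    ring
  have g4 : ∀ i, |hgrad g u i x| ≤ 27 * C ^ 2 * A * B := by
    intro i
    refine (k2_sum fun j => k2_mul (g2 i j) (g1 j)).trans (le_of_eq ?_)
    ring
  have m1 : 0 ≤ C ^ 2 := by positivity
  refine ⟨fun i => ?_, fun i j => ?_, ?_, ?_, ?_, ?_, ?_, ?_⟩
  · refine (g1 i).trans ?_
    nlinarith [mul_le_mul_of_nonneg_right c1 hB0, mul_nonneg (by positivity : 0 ≤ C ^ 5) hB0]
  · refine (g3 i j).trans ?_
    nlinarith [mul_le_mul_of_nonneg_right c2 hA0, mul_nonneg (by positivity : 0 ≤ C ^ 5) hA0]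
  · have h1 : |lapG g u x| ≤ 3 * (9 * C ^ 2 * A) := k2_sum fun a => g3 a a
    refine h1.trans ?_
    nlinarith [mul_le_mul_of_nonneg_right c2 hA0, mul_nonneg (by positivity : 0 ≤ C ^ 5) hA0]
  · have h1 : |hessSq g u x| ≤ 3 * (3 * (9 * C ^ 2 * A * (9 * C ^ 2 * A))) :=
      k2_sum fun a => k2_sum fun k => k2_mul (g3 a k) (g3 k a)
    have h2 : 3 * (3 * (9 * C ^ 2 * A * (9 * C ^ 2 * A))) = 729 * (C ^ 4 * A ^ 2) := by ring
    rw [h2] at h1
    nlinarith [mul_le_mul_of_nonneg_right c4 (sq_nonneg A), mul_nonneg (by positivity : 0 ≤ C ^ 5) (sq_nonneg A)]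
  · have h1 : |ricGG g u x| ≤ 3 * (3 * (C * (3 * (C * B)) * (3 * (C * B)))) :=
      k2_sum fun j => k2_sum fun k => k2_mul (k2_mul (hric j k) (g1 j)) (g1 k)
    have h2 : 3 * (3 * (C * (3 * (C * B)) * (3 * (C * B)))) = 81 * (C ^ 3 * B ^ 2) := by ring
    rw [h2] at h1
    nlinarith [mul_le_mul_of_nonneg_right c3 (sq_nonneg B), mul_nonneg (by positivity : 0 ≤ C ^ 5) (sq_nonneg B)]
  · have h1 : |gsq g u x| ≤ 3 * (B * (3 * (C * B))) := k2_sum fun a => k2_mul (hd1 a) (g1 a)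
    have h2 : 3 * (B * (3 * (C * B))) = 9 * (C * B ^ 2) := by ring
    rw [h2] at h1
    nlinarith [mul_le_mul_of_nonneg_right c1 (sq_nonneg B), mul_nonneg (by positivity : 0 ≤ C ^ 5) (sq_nonneg B)]
  · have h1 : |hgradSq g u x| ≤ 3 * (3 * (C * (27 * C ^ 2 * A * B) * (27 * C ^ 2 * A * B))) :=
      k2_sum fun i => k2_sum fun j => k2_mul (k2_mul (hg i j) (g4 i)) (g4 j)
    refine h1.trans (le_of_eq ?_)
    ring
  · have h1 : |hgg g u x| ≤ 3 * (27 * C ^ 2 * A * B * (3 * (C * B))) := k2_sum fun i => k2_mul (g4 i) (g1 i)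
    have h2 : 3 * (27 * C ^ 2 * A * B * (3 * (C * B))) = 243 * (C ^ 3 * (A * B ^ 2)) := by ring
    rw [h2] at h1
    have hm : 0 ≤ A * B ^ 2 := by positivity
    have h3 : 6561 * C ^ 5 * A * B ^ 2 = 6561 * (C ^ 5 * (A * B ^ 2)) := by ring
    rw [h3]
    have h4 := mul_le_mul_of_nonneg_right c3 hm
    have h5 : 0 ≤ C ^ 5 * (A * B ^ 2) := by positivity
    linarith

end UMB
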