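import Pool.Agent.Lib.UMB.M.Defs

/-! # UMB section 1, chunk K3: pointwise bounds of the terms with k -/

set_option autoImplicit false

open Filter Topology Set MeasureTheory
open scoped ContDiff BigOperators

namespace UMB

open Pool.Agent.Lib.PenroseSph (E3 Tens pd chr ric scal trg normSqg divg energy momentum momNorm gradNorm normal meanCurv
  trLevel)

theorem k3_sum {f : Fin 3 → ℝ} {M : ℝ} (h : ∀ i, |f i| ≤ M) : |∑ i, f i| ≤ 3 * M := by
  refine (Finset.abs_sum_le_sum_abs _ _).trans ((Finset.sum_le_sum fun i _ => h i).trans_eq ?_)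
  simp

theorem k3_mul {a b A B : ℝ} (ha : |a| ≤ A) (hb : |b| ≤ B) : |a * b| ≤ A * B := by
  rw [abs_mul]
  exact mul_le_mul ha hb (abs_nonneg _) ((abs_nonneg _).trans ha)

theorem k3_vec (v : Fin 3 → ℝ) (i : Fin 3) : |v i| ≤ Real.sqrt (vsq v) := by
  refine Real.abs_le_sqrt ?_
  unfold vsq
  exact Finset.single_le_sum (f := fun i => v i ^ 2) (fun i _ => sq_nonneg _) (Finset.mem_univ i)

theorem k3_mat (B : Matrix (Fin 3) (Fin 3) ℝ) (i j : Fin 3) : |B i j| ≤ Real.sqrt (fsq B) := by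
  refine Real.abs_le_sqrt ?_
  unfold fsq
  refine (Finset.single_le_sum (f := fun j => B i j ^ 2) (fun j _ => sq_nonneg _) (Finset.mem_univ j)).trans ?_
  exact Finset.single_le_sum (f := fun i => ∑ j, B i j ^ 2) (fun i _ => Finset.sum_nonneg fun j _ => sq_nonneg _)
    (Finset.mem_univ i)

/-- **K3.** Bounds of the terms with `k`. PROOF. As K2: `|upk| ≤ 3 C²`, `|pd i u| ≤ √vsq`. -/
theorem K3_bd (C : ℝ) (hC : 1 ≤ C) : ∃ K : ℝ, 1 ≤ K ∧ ∀ (g k : Tens) (u : E3 → ℝ) (x : E3), (∀ i j, |(g x)⁻¹ i j| ≤ C) →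
    (∀ l i j, |chr g l i j x| ≤ C) → (∀ i j, |k x i j| ≤ C) → (∀ j, |momentum g k j x| ≤ C) →
    (∀ i j, |upk g k i j x| ≤ K) ∧ |kGG g k u x| ≤ K * vsq (D1 u x) ∧ |JGrad g k u x| ≤ K * Real.sqrt (vsq (D1 u x)) ∧
    |kHess g k u x| ≤ K * (Real.sqrt (fsq (D2 u x)) + Real.sqrt (vsq (D1 u x))) := by
  have hC0 : 0 ≤ C := by linarith
  have hC2 : 1 ≤ C ^ 2 := one_le_pow₀ hC
  have hC24 : C ^ 2 ≤ C ^ 4 := pow_le_pow_right₀ hC (by norm_num)
  have hC34 : C ^ 3 ≤ C ^ 4 := pow_le_pow_right₀ hC (by norm_num)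
  refine ⟨243 * C ^ 4, by nlinarith, ?_⟩
  intro g k u x hg hch hk hm
  set B := Real.sqrt (vsq (D1 u x)) with hB
  set F := Real.sqrt (fsq (D2 u x)) with hF
  have hB0 : 0 ≤ B := Real.sqrt_nonneg _
  have hF0 : 0 ≤ F := Real.sqrt_nonneg _
  have hBsq : B * B = vsq (D1 u x) := Real.mul_self_sqrt (Finset.sum_nonneg fun i _ => sq_nonneg _)
  have hp : ∀ i, |pd i u x| ≤ B := fun i => k3_vec (D1 u x) i
  have hd : ∀ i j, |pd i (pd j u) x| ≤ F := fun i j => k3_mat (D2 u x) i j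
  have hup : ∀ i j, |upk g k i j x| ≤ 3 * (C * C) := fun i j => k3_sum fun c => k3_mul (hg i c) (hk c j)
  have hG : ∀ i, |gradU g u i x| ≤ 3 * (C * B) := fun i => k3_sum fun j => k3_mul (hg i j) (hp j)
  have hh : ∀ i j, |hess g u i j x| ≤ 3 * (C * (F + B)) := by
    intro i j
    have h1 : |∑ l, chr g l i j x * pd l u x| ≤ 3 * (C * B) := k3_sum fun l => k3_mul (hch l i j) (hp l)
    have h2 : |hess g u i j x| ≤ F + 3 * (C * B) := (abs_sub _ _).trans (add_le_add (hd i j) h1)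
    nlinarith [h2, mul_le_mul_of_nonneg_right hC hF0]
  have hM : ∀ i j, |hessM g u i j x| ≤ 3 * (C * (3 * (C * (F + B)))) :=
    fun i j => k3_sum fun l => k3_mul (hg i l) (hh j l)
  refine ⟨fun i j => (hup i j).trans (by nlinarith), ?_, ?_, ?_⟩
  · have h1 : |kGG g k u x| ≤ 3 * (3 * (B * (3 * (C * C)) * (3 * (C * B)))) :=
      k3_sum fun a => k3_sum fun b => k3_mul (k3_mul (hp a) (hup a b)) (hG b)
    rw [← hBsq]
    nlinarith [h1, mul_le_mul_of_nonneg_right hC34 (mul_nonneg hB0 hB0), mul_nonneg (pow_nonneg hC0 4) (mul_nonneg hB0 hB0)]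
  · have h1 : |JGrad g k u x| ≤ 3 * (C * (3 * (C * B))) := k3_sum fun j => k3_mul (hm j) (hG j)
    nlinarith [h1, mul_le_mul_of_nonneg_right hC24 hB0, mul_nonneg (pow_nonneg hC0 4) hB0]
  · have h1 : |kHess g k u x| ≤ 3 * (3 * (3 * (C * C) * (3 * (C * (3 * (C * (F + B))))))) :=
      k3_sum fun a => k3_sum fun b => k3_mul (hup a b) (hM b a)
    refine h1.trans_eq (by ring)

end UMB
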