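import Pool.Agent.Lib.UMB.M.Defs

/-! # UMB section 1, chunk LB: bounds of u -/

set_option autoImplicit false

open Filter Topology Set MeasureTheory
open scoped ContDiff BigOperators

namespace UMB

open Pool.Agent.Lib.PenroseSph (E3 Tens pd chr ric scal trg normSqg divg energy momentum momNorm gradNorm normal meanCurv
  trLevel)

theorem lb_pd {W : Set E3} (hW : IsOpen W) {u : E3 → ℝ} {m n : WithTop ℕ∞} (hmn : m + 1 ≤ n) (hu : ContDiffOn ℝ n u W)
    (i : Fin 3) : ContDiffOn ℝ m (pd i u) W :=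
  (hu.fderiv_of_isOpen hW hmn).clm_apply contDiffOn_const

theorem lb_compact (R : ℝ) : IsCompact (cann R) := by
  refine Metric.isCompact_of_isClosed_isBounded ?_ ?_
  · have h1 : IsClosed {x : E3 | 1 ≤ ‖x‖} := isClosed_le continuous_const continuous_norm
    have h2 : IsClosed {x : E3 | ‖x‖ ≤ R} := isClosed_le continuous_norm continuous_const
    exact h1.inter h2
  · refine (Metric.isBounded_closedBall (x := (0 : E3)) (r := R)).subset ?_
    intro x hx
    rw [Metric.mem_closedBall, dist_zero_right]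
    exact hx.2

/-- `D1 u`, `D2 u`, `u` are bounded on the closed annulus. PROOF. `u` is `C³` near the compact set `cann R`. -/
theorem LF.bd {R c1 c2 : ℝ} {u : E3 → ℝ} (hu : LF R c1 c2 u) : ∃ B : ℝ, 1 ≤ B ∧ ∀ x ∈ cann R,
    |u x| ≤ B ∧ vsq (D1 u x) ≤ B ∧ fsq (D2 u x) ≤ B := by
  obtain ⟨W, hW, hsub, h3⟩ := hu.c3
  have c0 : ContinuousOn u (cann R) := h3.continuousOn.mono hsub
  have d1 : ∀ j, ContDiffOn ℝ 2 (pd j u) W := fun j => lb_pd hW (by norm_num) h3 j
  have d2 : ∀ i j, ContDiffOn ℝ 1 (pd i (pd j u)) W := fun i j => lb_pd hW (by norm_num) (d1 j) i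
  have c1 : ContinuousOn (fun x => vsq (D1 u x)) (cann R) := by
    unfold vsq D1
    exact continuousOn_finsetSum _ fun i _ => ((d1 i).continuousOn.mono hsub).pow 2
  have c2 : ContinuousOn (fun x => fsq (D2 u x)) (cann R) := by
    unfold fsq D2
    exact continuousOn_finsetSum _ fun i _ => continuousOn_finsetSum _ fun j _ =>
      ((d2 i j).continuousOn.mono hsub).pow 2
  obtain ⟨B0, h0⟩ := (lb_compact R).exists_bound_of_continuousOn c0
  obtain ⟨B1, h1⟩ := (lb_compact R).exists_bound_of_continuousOn c1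
  obtain ⟨B2, h2⟩ := (lb_compact R).exists_bound_of_continuousOn c2
  refine ⟨max 1 (max B0 (max B1 B2)), le_max_left _ _, fun x hx => ⟨?_, ?_, ?_⟩⟩
  · exact (h0 x hx).trans ((le_max_left _ _).trans (le_max_right _ _))
  · exact ((le_abs_self _).trans (h1 x hx)).trans
      ((le_max_left _ _).trans ((le_max_right _ _).trans (le_max_right _ _)))
  · exact ((le_abs_self _).trans (h2 x hx)).trans
      ((le_max_right _ _).trans ((le_max_right _ _).trans (le_max_right _ _)))

end UMB
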