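import Pool.Agent.Lib.UMB.M.K1
import Pool.Agent.Lib.UMB.M.K2
import Pool.Agent.Lib.UMB.M.K3
import Pool.Agent.Lib.UMB.M.LB

/-! # UMB section 1, chunk K4: bounds of the integrands -/

set_option autoImplicit false

open Filter Topology Set MeasureTheory
open scoped ContDiff BigOperators

namespace UMB

open Pool.Agent.Lib.PenroseSph (E3 Tens pd chr ric scal trg normSqg divg energy momentum momNorm gradNorm normal meanCurv
  trLevel)

/-- All bounds at a point, with `b = √vsq (D1 u x)`, `f = √fsq (D2 u x)`. -/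
structure k4_Bd (g k : Tens) (u : E3 → ℝ) (x : E3) (K s B Y : ℝ) : Prop where
  b_le : Real.sqrt (vsq (D1 u x)) ≤ B
  f_le : Real.sqrt (fsq (D2 u x)) ≤ B
  y_ge : ∀ e : ℝ, 0 ≤ e → s * Real.sqrt (vsq (D1 u x)) ≤ yreg g u e x
  y_le : ∀ e : ℝ, e ≤ 1 → yreg g u e x ≤ Y
  y0_le : yreg g u 0 x ≤ K * Real.sqrt (vsq (D1 u x))
  v_nn : 0 ≤ vol g x * Real.exp (u x)
  v_le : vol g x * Real.exp (u x) ≤ K
  grad : ∀ i, |gradU g u i x| ≤ K * Real.sqrt (vsq (D1 u x))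
  hm : ∀ i j, |hessM g u i j x| ≤ K * (Real.sqrt (fsq (D2 u x)) + Real.sqrt (vsq (D1 u x)))
  lap : |lapG g u x| ≤ K * (Real.sqrt (fsq (D2 u x)) + Real.sqrt (vsq (D1 u x)))
  hsq : |hessSq g u x| ≤ K * (Real.sqrt (fsq (D2 u x)) + Real.sqrt (vsq (D1 u x))) ^ 2
  ricb : |ricGG g u x| ≤ K * Real.sqrt (vsq (D1 u x)) ^ 2
  gs : |gsq g u x| ≤ K * Real.sqrt (vsq (D1 u x)) ^ 2
  hgs : |hgradSq g u x| ≤ K * (Real.sqrt (fsq (D2 u x)) + Real.sqrt (vsq (D1 u x))) ^ 2 * Real.sqrt (vsq (D1 u x)) ^ 2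
  hg : |hgg g u x| ≤ K * (Real.sqrt (fsq (D2 u x)) + Real.sqrt (vsq (D1 u x))) * Real.sqrt (vsq (D1 u x)) ^ 2
  up : ∀ i j, |upk g k i j x| ≤ K
  kg : |kGG g k u x| ≤ K * Real.sqrt (vsq (D1 u x)) ^ 2
  jg : |JGrad g k u x| ≤ K * Real.sqrt (vsq (D1 u x))
  kh : |kHess g k u x| ≤ K * (Real.sqrt (fsq (D2 u x)) + Real.sqrt (vsq (D1 u x)))
  tr : |trg g k x| ≤ K
  sc : |scal g x| ≤ K
  en : |energy g k x| ≤ K

theorem k4_gsq_eq (g : Tens) (u : E3 → ℝ) (x : E3) : gsq g u x = ∑ i, ∑ j, (g x)⁻¹ i j * D1 u x i * D1 u x j := by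
  unfold gsq gradU D1
  refine Finset.sum_congr rfl fun i _ => ?_
  rw [Finset.mul_sum]
  refine Finset.sum_congr rfl fun j _ => ?_
  ring

theorem k4_vsq_nn (v : Fin 3 → ℝ) : 0 ≤ vsq v := Finset.sum_nonneg fun i _ => sq_nonneg _

theorem k4_fsq_nn (M : Matrix (Fin 3) (Fin 3) ℝ) : 0 ≤ fsq M :=
  Finset.sum_nonneg fun i _ => Finset.sum_nonneg fun j _ => sq_nonneg _

theorem k4_setup {g k : Tens} {a : ℝ} (hG : GK g k a) {R c1 c2 : ℝ} {u : E3 → ℝ} (hu : LF R c1 c2 u) :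
    ∃ K s B Y : ℝ, 1 ≤ K ∧ 0 < s ∧ 1 ≤ B ∧ 0 ≤ Y ∧ ∀ x ∈ ann R, k4_Bd g k u x K s B Y := by
  obtain ⟨C, hC, h1⟩ := K1_bd hG R
  obtain ⟨c, hc, h2⟩ := K1_ell hG R
  obtain ⟨K2, hK2, h3⟩ := K2_bd C hC
  obtain ⟨K3, hK3, h4⟩ := K3_bd C hC
  obtain ⟨B, hB, h5⟩ := hu.bd
  set K : ℝ := K2 + K3 + C + C * Real.exp B with hK
  have hCe : 0 ≤ C * Real.exp B := mul_nonneg (by linarith) (Real.exp_pos _).le
  have hK2K : K2 ≤ K := by rw [hK]; linarith
  have hK3K : K3 ≤ K := by rw [hK]; linarith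
  have hCK : C ≤ K := by rw [hK]; linarith
  have hK1 : 1 ≤ K := hK2.trans hK2K
  refine ⟨K, Real.sqrt c, B, Real.sqrt (K * B + 1), hK1, Real.sqrt_pos.mpr hc, hB, Real.sqrt_nonneg _, ?_⟩
  intro x hx
  have hx' : x ∈ cann R := ⟨hx.1.le, hx.2.le⟩
  obtain ⟨a1, a2, a3, a4, a5, a6, a7, a8, a9, a10⟩ := h1 x hx'
  obtain ⟨b1, b2, b3⟩ := h2 x hx'
  obtain ⟨e1, e2, e3, e4, e5, e6, e7, e8⟩ := h3 g u x a1 a3 a4
  obtain ⟨f1, f2, f3, f4⟩ := h4 g k u x a1 a3 a6 a8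
  obtain ⟨g1, g2, g3⟩ := h5 x hx'
  have hv0 := k4_vsq_nn (D1 u x)
  have hf0 := k4_fsq_nn (D2 u x)
  have hb0 := Real.sqrt_nonneg (vsq (D1 u x))
  have hF0 := Real.sqrt_nonneg (fsq (D2 u x))
  have hbs : Real.sqrt (vsq (D1 u x)) ^ 2 = vsq (D1 u x) := Real.sq_sqrt hv0
  have hsB : Real.sqrt B ≤ B := by
    rw [Real.sqrt_le_left (by linarith)]
    nlinarith
  have hgl : c * vsq (D1 u x) ≤ gsq g u x := by
    rw [k4_gsq_eq]
    exact b1 (D1 u x)
  have hgu : gsq g u x ≤ K * vsq (D1 u x) := (le_abs_self _).trans (e6.trans (mul_le_mul_of_nonneg_right hK2K hv0))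
  have hA0 : 0 ≤ Real.sqrt (fsq (D2 u x)) + Real.sqrt (vsq (D1 u x)) := add_nonneg hF0 hb0
  refine
    { b_le := (Real.sqrt_le_sqrt g2).trans hsB
      f_le := (Real.sqrt_le_sqrt g3).trans hsB
      y_ge := ?_
      y_le := ?_
      y0_le := ?_
      v_nn := mul_nonneg (Real.sqrt_nonneg _) (Real.exp_pos _).le
      v_le := ?_
      grad := fun i => (e1 i).trans (mul_le_mul_of_nonneg_right hK2K hb0)
      hm := fun i j => (e2 i j).trans (mul_le_mul_of_nonneg_right hK2K hA0)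
      lap := e3.trans (mul_le_mul_of_nonneg_right hK2K hA0)
      hsq := e4.trans (mul_le_mul_of_nonneg_right hK2K (sq_nonneg _))
      ricb := ?_
      gs := ?_
      hgs := ?_
      hg := ?_
      up := fun i j => (f1 i j).trans hK3K
      kg := ?_
      jg := f3.trans (mul_le_mul_of_nonneg_right hK3K hb0)
      kh := f4.trans (mul_le_mul_of_nonneg_right hK3K hA0)
      tr := a7.trans hCK
      sc := a5.trans hCK
      en := a9.trans hCK }
  · intro e he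
    unfold yreg
    rw [← Real.sqrt_mul hc.le]
    exact Real.sqrt_le_sqrt (by linarith)
  · intro e he
    unfold yreg
    refine Real.sqrt_le_sqrt ?_
    have : K * vsq (D1 u x) ≤ K * B := mul_le_mul_of_nonneg_left g2 (by linarith)
    linarith
  · unfold yreg
    rw [add_zero]
    have h6 : K * vsq (D1 u x) ≤ (K * Real.sqrt (vsq (D1 u x))) ^ 2 := by
      rw [mul_pow, hbs]
      refine mul_le_mul_of_nonneg_right ?_ hv0
      nlinarith
    exact (Real.sqrt_le_sqrt (hgu.trans h6)).trans (le_of_eq (Real.sqrt_sq (mul_nonneg (by linarith) hb0)))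
  · have h6 : Real.exp (u x) ≤ Real.exp B := Real.exp_le_exp.mpr ((le_abs_self _).trans g1)
    have h7 : vol g x * Real.exp (u x) ≤ C * Real.exp B :=
      mul_le_mul a10 h6 (Real.exp_pos _).le (by linarith)
    rw [hK]
    linarith
  · rw [hbs]
    exact e5.trans (mul_le_mul_of_nonneg_right hK2K hv0)
  · rw [hbs]
    exact e6.trans (mul_le_mul_of_nonneg_right hK2K hv0)
  · rw [hbs]
    exact e7.trans (mul_le_mul_of_nonneg_right (mul_le_mul_of_nonneg_right hK2K (sq_nonneg _)) hv0)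
  · rw [hbs]
    exact e8.trans (mul_le_mul_of_nonneg_right (mul_le_mul_of_nonneg_right hK2K hA0) hv0)
  · rw [hbs]
    exact f2.trans (mul_le_mul_of_nonneg_right hK3K hv0)

theorem k4_div {N y n l : ℝ} (hN : |N| ≤ n) (hl : 0 < l) (hy : l ≤ y) : |N / y| ≤ n / l := by
  rw [abs_div, abs_of_pos (hl.trans_le hy)]
  exact div_le_div₀ ((abs_nonneg _).trans hN) hN hl hy

theorem k4_mul {p q m n : ℝ} (hp : |p| ≤ m) (hq : |q| ≤ n) : |p * q| ≤ m * n := by
  rw [abs_mul]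
  exact mul_le_mul hp hq (abs_nonneg _) ((abs_nonneg _).trans hp)

/-- `A²/b ≤ (2 + 2B) (1 + f²/b)`. -/
theorem k4_quot {f b B : ℝ} (hf : 0 ≤ f) (hb : 0 < b) (hbB : b ≤ B) :
    (f + b) ^ 2 / b ≤ (2 + 2 * B) * (1 + f ^ 2 / b) := by
  have h1 : (f + b) ^ 2 ≤ 2 * f ^ 2 + 2 * b ^ 2 := by nlinarith [sq_nonneg (f - b)]
  have h2 : (f + b) ^ 2 / b ≤ (2 * f ^ 2 + 2 * b ^ 2) / b := div_le_div_of_nonneg_right h1 hb.le
  have h3 : (2 * f ^ 2 + 2 * b ^ 2) / b = 2 * (f ^ 2 / b) + 2 * b := by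
    field_simp
  have h4 : 0 ≤ f ^ 2 / b := div_nonneg (sq_nonneg _) hb.le
  have h5 : 0 ≤ B := hb.le.trans hbB
  rw [h3] at h2
  nlinarith [mul_nonneg h5 h4]

/-- The second order terms of the right side, divided by the regularised length of the gradient. -/
theorem k4_q2 {g k : Tens} {u : E3 → ℝ} {x : E3} {K s B Y : ℝ} (hK : 1 ≤ K) (hs : 0 < s)
    (h : k4_Bd g k u x K s B Y) (hb : 0 < Real.sqrt (vsq (D1 u x))) {e : ℝ} (he : 0 ≤ e) :
    |(hgradSq g u x - lapG g u x * hgg g u x) / yreg g u e x ^ 3| ≤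
      2 * K ^ 2 / s ^ 3 * ((2 + 2 * B) * (1 + Real.sqrt (fsq (D2 u x)) ^ 2 / Real.sqrt (vsq (D1 u x)))) := by
  set b : ℝ := Real.sqrt (vsq (D1 u x)) with hbdef
  set f : ℝ := Real.sqrt (fsq (D2 u x)) with hfdef
  have hf : 0 ≤ f := Real.sqrt_nonneg _
  have hA : 0 ≤ f + b := by linarith
  have hsb : 0 < s * b := mul_pos hs hb
  have h1 : |hgradSq g u x - lapG g u x * hgg g u x| ≤ 2 * K ^ 2 * (f + b) ^ 2 * b ^ 2 := by
    have h2 := k4_mul h.lap h.hg
    have h3 := abs_sub (hgradSq g u x) (lapG g u x * hgg g u x)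
    have h4 := h.hgs
    have h5 : K * (f + b) ^ 2 * b ^ 2 ≤ K ^ 2 * (f + b) ^ 2 * b ^ 2 := by
      refine mul_le_mul_of_nonneg_right (mul_le_mul_of_nonneg_right ?_ (sq_nonneg _)) (sq_nonneg _)
      nlinarith
    have h6 : K * (f + b) * (K * (f + b) * b ^ 2) = K ^ 2 * (f + b) ^ 2 * b ^ 2 := by ring
    rw [h6] at h2
    linarith
  have h2 := k4_div h1 (pow_pos hsb 3) (pow_le_pow_left₀ hsb.le (h.y_ge e he) 3)
  refine h2.trans ?_
  have h3 : 2 * K ^ 2 * (f + b) ^ 2 * b ^ 2 / (s * b) ^ 3 = 2 * K ^ 2 / s ^ 3 * ((f + b) ^ 2 / b) := by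
    field_simp
  rw [h3]
  exact mul_le_mul_of_nonneg_left (k4_quot hf hb h.b_le) (by positivity)

/-- **K4.** PROOF. Constants from K1, K2, K3, `LF.bd`. Put `B := √vsq(D1 u x)`, `A := √fsq(D2 u x) + B`. If `B = 0` then
`D1 u x = 0` and `D2 u x = 0`, every term is `0` (`hess = 0`, `gradU = 0`). If `B > 0`: `yreg g u e x ≥ √gsq ≥ √c B`
(`K1_ell` for `g⁻¹`, `gsq g u x = ∑ g⁻¹ i j pd i u pd j u`), `yreg g u e x ≤ √(K B² + 1)`; so
`|(hessSq - lap² + ric)/y| ≤ C A²/B`, `|hgradSq - lap hgg|/y³ ≤ C A² B²/B³`, all other terms are bounded, and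
`A²/B ≤ 2 fsq/B + 2 B`. -/
theorem K4_bd {g k : Tens} {a : ℝ} (hG : GK g k a) {R c1 c2 : ℝ} {u : E3 → ℝ} (hu : LF R c1 c2 u) : ∃ K : ℝ, 0 ≤ K ∧
    ∀ x ∈ ann R, (D1 u x = 0 → D2 u x = 0) → ∀ e : ℝ, 0 < e → e ≤ 1 →
      |vol g x * (Real.exp (u x) * RHe g k u e x)| ≤ K * (1 + fsq (D2 u x) / Real.sqrt (vsq (D1 u x))) := by
  obtain ⟨K, s, B, Y, hK, hs, hB, hY, hbd⟩ := k4_setup hG hu
  have hK0 : 0 ≤ K := by linarith
  have hB0 : 0 ≤ B := by linarith
  refine ⟨K * (3 * K ^ 2 / s * (2 + 2 * B) + 2 * K ^ 2 / s ^ 3 * (2 + 2 * B) + Y * (K * (2 * B)) + K * (2 * B) * B / s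
    + K * (K * (2 * B)) + K * (2 * B) + K * B + 4 * K ^ 2 * B * B / s + Y * (K * B ^ 2) + K * (K * B ^ 2) + K * B ^ 2),
    by positivity, ?_⟩
  intro x hx h0 e he he1
  have h := hbd x hx
  have hv0 := k4_vsq_nn (D1 u x)
  have hf0 := k4_fsq_nn (D2 u x)
  have hfs : Real.sqrt (fsq (D2 u x)) ^ 2 = fsq (D2 u x) := Real.sq_sqrt hf0
  have e0 : vol g x * (Real.exp (u x) * RHe g k u e x) = (vol g x * Real.exp (u x)) * RHe g k u e x := by ring
  rw [e0, ← hfs]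
  have hvK : |vol g x * Real.exp (u x)| ≤ K := by
    rw [abs_of_nonneg h.v_nn]
    exact h.v_le
  set b : ℝ := Real.sqrt (vsq (D1 u x)) with hbdef
  set f : ℝ := Real.sqrt (fsq (D2 u x)) with hfdef
  have hf : 0 ≤ f := Real.sqrt_nonneg _
  have hb0 : 0 ≤ b := Real.sqrt_nonneg _
  have hT0 : 0 ≤ f ^ 2 / b := div_nonneg (sq_nonneg _) hb0
  rw [mul_assoc K]
  refine k4_mul hvK ?_
  rcases eq_or_lt_of_le hb0 with hb | hb
  · -- critical points
    have hz : D1 u x = 0 := by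
      have h1 : vsq (D1 u x) = 0 := (Real.sqrt_eq_zero hv0).mp hb.symm
      funext i
      have h2 : D1 u x i ^ 2 ≤ vsq (D1 u x) :=
        Finset.single_le_sum (f := fun i => D1 u x i ^ 2) (fun j _ => sq_nonneg _) (Finset.mem_univ i)
      have h3 : D1 u x i ^ 2 = 0 := le_antisymm (h2.trans h1.le) (sq_nonneg _)
      exact pow_eq_zero_iff (two_ne_zero) |>.mp h3
    have hz2 : D2 u x = 0 := h0 hz
    have hf1 : f = 0 := by
      rw [hfdef, hz2]
      simp [fsq]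
    have hR : RHe g k u e x = 0 := by
      have l := h.lap
      have s1 := h.hsq
      have r := h.ricb
      have g1 := h.gs
      have g2 := h.hgs
      have g3 := h.hg
      have g4 := h.kg
      have g5 := h.jg
      have g6 := h.kh
      rw [← hfdef, ← hbdef, ← hb, hf1] at l s1 g2 g3 g6
      rw [← hbdef, ← hb] at r g1 g4 g5
      norm_num at l s1 r g1 g2 g3 g4 g5 g6
      unfold RHe
      rw [l, s1, r, g1, g2, g3, g4, g5, g6]
      norm_num
    rw [hR, abs_zero]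
    positivity
  · have hsb : 0 < s * b := mul_pos hs hb
    have hyge := h.y_ge e he.le
    have hyle := h.y_le e he1
    have hy0 : 0 ≤ yreg g u e x := Real.sqrt_nonneg _
    have hya : |yreg g u e x| ≤ Y := by
      rw [abs_of_nonneg hy0]
      exact hyle
    have hbB := h.b_le
    have hfB := h.f_le
    have hA : 0 ≤ f + b := by linarith
    have hAB : f + b ≤ 2 * B := by linarith
    have hb2 : b ^ 2 ≤ B ^ 2 := pow_le_pow_left₀ hb0 hbB 2
    have hlap : |lapG g u x| ≤ K * (2 * B) := h.lap.trans (mul_le_mul_of_nonneg_left hAB hK0)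
    have hgs : |gsq g u x| ≤ K * B ^ 2 := h.gs.trans (mul_le_mul_of_nonneg_left hb2 hK0)
    -- first term
    have t1 : |(hessSq g u x - lapG g u x ^ 2 + ricGG g u x) / yreg g u e x| ≤
        3 * K ^ 2 / s * (2 + 2 * B) * (1 + f ^ 2 / b) := by
      have h1 : |hessSq g u x - lapG g u x ^ 2 + ricGG g u x| ≤ 3 * K ^ 2 * (f + b) ^ 2 := by
        have h2 := k4_mul h.lap h.lap
        have h3 := abs_add_le (hessSq g u x - lapG g u x ^ 2) (ricGG g u x)
        have h4 := abs_sub (hessSq g u x) (lapG g u x ^ 2)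
        have h5 := h.hsq
        have h6 := h.ricb
        rw [← sq] at h2
        have h7 : K * (f + b) * (K * (f + b)) = K ^ 2 * (f + b) ^ 2 := by ring
        rw [h7] at h2
        have h8 : K * (f + b) ^ 2 ≤ K ^ 2 * (f + b) ^ 2 :=
          mul_le_mul_of_nonneg_right (by nlinarith) (sq_nonneg _)
        have h9 : K * b ^ 2 ≤ K ^ 2 * (f + b) ^ 2 := by
          refine mul_le_mul (by nlinarith) ?_ (sq_nonneg _) (sq_nonneg _)
          exact pow_le_pow_left₀ hb0 (by linarith) 2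
        linarith
      have h2 := k4_div h1 hsb hyge
      refine h2.trans ?_
      have h3 : 3 * K ^ 2 * (f + b) ^ 2 / (s * b) = 3 * K ^ 2 / s * ((f + b) ^ 2 / b) := by
        field_simp
      rw [h3, mul_assoc (3 * K ^ 2 / s)]
      exact mul_le_mul_of_nonneg_left (k4_quot hf hb hbB) (by positivity)
    have t2 : |(hgradSq g u x - lapG g u x * hgg g u x) / yreg g u e x ^ 3| ≤
        2 * K ^ 2 / s ^ 3 * (2 + 2 * B) * (1 + f ^ 2 / b) := by
      rw [mul_assoc (2 * K ^ 2 / s ^ 3)]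
      exact k4_q2 hK hs h hb he.le
    have t3 : |yreg g u e x * lapG g u x| ≤ Y * (K * (2 * B)) := k4_mul hya hlap
    have hgb : |hgg g u x| ≤ K * (2 * B) * b ^ 2 :=
      h.hg.trans (mul_le_mul_of_nonneg_right (mul_le_mul_of_nonneg_left hAB hK0) (sq_nonneg _))
    have t4 : |hgg g u x / yreg g u e x| ≤ K * (2 * B) * B / s := by
      refine (k4_div hgb hsb hyge).trans ?_
      have h3 : K * (2 * B) * b ^ 2 / (s * b) = K * (2 * B) * b / s := by
        field_simp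
      rw [h3]
      exact div_le_div_of_nonneg_right (mul_le_mul_of_nonneg_left hbB (by positivity)) hs.le
    have t5 : |trg g k x * lapG g u x| ≤ K * (K * (2 * B)) := k4_mul h.tr hlap
    have t6 : |kHess g k u x| ≤ K * (2 * B) := h.kh.trans (mul_le_mul_of_nonneg_left hAB hK0)
    have t7 : |JGrad g k u x| ≤ K * B := h.jg.trans (mul_le_mul_of_nonneg_left hbB hK0)
    have t8 : |(hgg g u x - lapG g u x * gsq g u x) / yreg g u e x| ≤ 4 * K ^ 2 * B * B / s := by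
      have h1 : |hgg g u x - lapG g u x * gsq g u x| ≤ 4 * K ^ 2 * B * b ^ 2 := by
        have h2 := k4_mul hlap h.gs
        have h3 := abs_sub (hgg g u x) (lapG g u x * gsq g u x)
        have h4 : K * (2 * B) * b ^ 2 ≤ K ^ 2 * (2 * B) * b ^ 2 :=
          mul_le_mul_of_nonneg_right (mul_le_mul_of_nonneg_right (by nlinarith) (by positivity)) (sq_nonneg _)
        have h5 : K * (2 * B) * (K * b ^ 2) = K ^ 2 * (2 * B) * b ^ 2 := by ring
        rw [h5] at h2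
        have h6 : 4 * K ^ 2 * B * b ^ 2 = K ^ 2 * (2 * B) * b ^ 2 + K ^ 2 * (2 * B) * b ^ 2 := by ring
        rw [h6]
        linarith
      refine (k4_div h1 hsb hyge).trans ?_
      have h3 : 4 * K ^ 2 * B * b ^ 2 / (s * b) = 4 * K ^ 2 * B * b / s := by
        field_simp
      rw [h3]
      exact div_le_div_of_nonneg_right (mul_le_mul_of_nonneg_left hbB (by positivity)) hs.le
    have t9 : |yreg g u e x * gsq g u x| ≤ Y * (K * B ^ 2) := k4_mul hya hgs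
    have t10 : |trg g k x * gsq g u x| ≤ K * (K * B ^ 2) := k4_mul h.tr hgs
    have t11 : |kGG g k u x| ≤ K * B ^ 2 := h.kg.trans (mul_le_mul_of_nonneg_left hb2 hK0)
    have hT : 1 ≤ 1 + f ^ 2 / b := by linarith
    have up : ∀ z : ℝ, 0 ≤ z → z ≤ z * (1 + f ^ 2 / b) := fun z hz => le_mul_of_one_le_right hz hT
    have u3 := up (Y * (K * (2 * B))) (by positivity)
    have u4 := up (K * (2 * B) * B / s) (by positivity)
    have u5 := up (K * (K * (2 * B))) (by positivity)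
    have u6 := up (K * (2 * B)) (by positivity)
    have u7 := up (K * B) (by positivity)
    have u8 := up (4 * K ^ 2 * B * B / s) (by positivity)
    have u9 := up (Y * (K * B ^ 2)) (by positivity)
    have u10 := up (K * (K * B ^ 2)) (by positivity)
    have u11 := up (K * B ^ 2) (by positivity)
    unfold RHe
    rw [abs_le] at t1 t2 t3 t4 t5 t6 t7 t8 t9 t10 t11
    have hsum : (3 * K ^ 2 / s * (2 + 2 * B) + 2 * K ^ 2 / s ^ 3 * (2 + 2 * B) + Y * (K * (2 * B)) + K * (2 * B) * B / s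
        + K * (K * (2 * B)) + K * (2 * B) + K * B + 4 * K ^ 2 * B * B / s + Y * (K * B ^ 2) + K * (K * B ^ 2) + K * B ^ 2)
          * (1 + f ^ 2 / b) =
        3 * K ^ 2 / s * (2 + 2 * B) * (1 + f ^ 2 / b) + 2 * K ^ 2 / s ^ 3 * (2 + 2 * B) * (1 + f ^ 2 / b)
        + Y * (K * (2 * B)) * (1 + f ^ 2 / b) + K * (2 * B) * B / s * (1 + f ^ 2 / b)
        + K * (K * (2 * B)) * (1 + f ^ 2 / b) + K * (2 * B) * (1 + f ^ 2 / b) + K * B * (1 + f ^ 2 / b)
        + 4 * K ^ 2 * B * B / s * (1 + f ^ 2 / b) + Y * (K * B ^ 2) * (1 + f ^ 2 / b)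
        + K * (K * B ^ 2) * (1 + f ^ 2 / b) + K * B ^ 2 * (1 + f ^ 2 / b) := by ring
    rw [hsum, abs_le]
    constructor
    · linarith [t1.1, t2.2, t3.1, t4.1, t5.1, t6.2, t7.2, t8.1, t9.1, t10.1, t11.2]
    · linarith [t1.2, t2.1, t3.2, t4.2, t5.2, t6.1, t7.1, t8.2, t9.2, t10.2, t11.1]

end UMB
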