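import Pool.Agent.Lib.UMB.M.Defs

/-! # UMB section 1, chunk R0: the vector field is C^1 near the closed annulus -/

set_option autoImplicit false

open Filter Topology Set MeasureTheory
open scoped ContDiff BigOperators

namespace UMB

open Pool.Agent.Lib.PenroseSph (E3 Tens pd chr ric scal trg normSqg divg energy momentum momNorm gradNorm normal meanCurv
  trLevel)

theorem r0_pd {W : Set E3} (hW : IsOpen W) {m n : ℕ} (hmn : m + 1 ≤ n) {F : E3 → ℝ} (hF : ContDiffOn ℝ n F W)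
    (k : Fin 3) : ContDiffOn ℝ m (pd k F) W := by
  have h := hF.fderiv_of_isOpen hW (m := (m : ℕ)) (by exact_mod_cast hmn)
  exact h.clm_apply contDiffOn_const

theorem r0_chr {g : Tens} {U : Set E3} (h : MetOn g U) (k i j : Fin 3) : ContDiffOn ℝ ∞ (chr g k i j) U := by
  refine (smr_smooth (h.ga.Ga k i j)).congr fun x hx => ?_
  rw [extU_of _ hx]
  exact (val_Ga h k i j ⟨x, hx⟩).symm

theorem r0_vol {g : Tens} {U : Set E3} (h : MetOn g U) : ContDiffOn ℝ ∞ (vol g) U := by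
  unfold vol
  exact ContDiffOn.sqrt h.det_smooth fun x hx => (h.det_pos hx).ne'

theorem r0_upk {g k : Tens} {U : Set E3} (h : MetOn g U) (hk : ∀ i j, ContDiffOn ℝ ∞ (fun x => k x i j) U) (a b : Fin 3) :
    ContDiffOn ℝ ∞ (upk g k a b) U := by
  unfold upk
  exact ContDiffOn.sum fun c _ => (h.inv_smooth a c).mul (hk c b)

/-- **R0.** PROOF. `u ∈ C³` on `W`: `pd j u ∈ C²`, `pd i (pd j u) ∈ C¹` (`ContDiffOn.fderiv_of_isOpen`); `(g x)⁻¹ i j` is
smooth on `{a < |x|}` (`MetOn.inv_smooth`), `chr g k i j` is smooth there (`val_Ga` and `smr_smooth`, or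
`(extU ..)` congruence as in `MetOn.gradU_smooth`), `trg g k`, `upk g k a b`, `vol g` are smooth; `gsq + e > 0`
(`MetOn.gsq_nonneg`), so `yreg g u e` is `C²` and positive; `exp u ∈ C³`. Products, sums and a quotient. -/
theorem R0_c1 {g k : Tens} {a : ℝ} (hG : GK g k a) {u : E3 → ℝ} {W : Set E3} (hW : IsOpen W)
    (hWa : ∀ x ∈ W, a < ‖x‖) (hu : ContDiffOn ℝ 3 u W) {e : ℝ} (he : 0 < e) (i : Fin 3) :
    ContDiffOn ℝ 1 (fun x => vol g x * (Real.exp (u x) * Yvec g k u e i x)) W := by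
  have hm := hG.met
  have hsub : W ⊆ {x : E3 | a < ‖x‖} := hWa
  have red : ∀ {F : E3 → ℝ}, ContDiffOn ℝ ∞ F {x : E3 | a < ‖x‖} → ContDiffOn ℝ 1 F W := fun hF =>
    (hF.mono hsub).of_le (by exact_mod_cast le_top)
  have hinv : ∀ i j, ContDiffOn ℝ 1 (fun x => (g x)⁻¹ i j) W := fun i j => red (hm.inv_smooth i j)
  have hchr : ∀ l i j, ContDiffOn ℝ 1 (chr g l i j) W := fun l i j => red (r0_chr hm l i j)
  have htr : ContDiffOn ℝ 1 (trg g k) W := red (hm.trg_smooth hG.smooth)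
  have hup : ∀ a b, ContDiffOn ℝ 1 (upk g k a b) W := fun a b => red (r0_upk hm hG.smooth a b)
  have hvol : ContDiffOn ℝ 1 (vol g) W := red (r0_vol hm)
  have hu3 : ContDiffOn ℝ (3 : ℕ) u W := hu
  have hp2 : ∀ j, ContDiffOn ℝ (2 : ℕ) (pd j u) W := fun j => r0_pd hW (by norm_num) hu3 j
  have hp1 : ∀ j, ContDiffOn ℝ 1 (pd j u) W := fun j => (hp2 j).of_le (by norm_num)
  have hpp : ∀ i j, ContDiffOn ℝ 1 (pd i (pd j u)) W := fun i j => by
    have := r0_pd hW (m := 1) (by norm_num) (hp2 j) i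
    exact_mod_cast this
  have hgr : ∀ a, ContDiffOn ℝ 1 (gradU g u a) W := fun a => by
    unfold gradU
    exact ContDiffOn.sum fun j _ => (hinv a j).mul (hp1 j)
  have hhs : ∀ i j, ContDiffOn ℝ 1 (hess g u i j) W := fun i j => by
    unfold hess
    exact (hpp i j).sub (ContDiffOn.sum fun l _ => (hchr l i j).mul (hp1 l))
  have hhm : ∀ a i, ContDiffOn ℝ 1 (hessM g u a i) W := fun a i => by
    unfold hessM
    exact ContDiffOn.sum fun j _ => (hinv a j).mul (hhs i j)
  have hlap : ContDiffOn ℝ 1 (lapG g u) W := by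
    unfold lapG
    exact ContDiffOn.sum fun a _ => hhm a a
  have hgs : ContDiffOn ℝ 1 (gsq g u) W := by
    unfold gsq
    exact ContDiffOn.sum fun a _ => (hp1 a).mul (hgr a)
  have hpos : ∀ x ∈ W, 0 < gsq g u x + e := fun x hx => by
    have := hm.gsq_nonneg (u := u) (hsub hx)
    positivity
  have hy : ContDiffOn ℝ 1 (yreg g u e) W := by
    unfold yreg
    exact ContDiffOn.sqrt (hgs.add contDiffOn_const) fun x hx => (hpos x hx).ne'
  have hy0 : ∀ x ∈ W, yreg g u e x ≠ 0 := fun x hx => (Real.sqrt_pos.mpr (hpos x hx)).ne'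
  have hY : ContDiffOn ℝ 1 (Yvec g k u e i) W := by
    unfold Yvec
    have h1 : ContDiffOn ℝ 1 (fun x => ∑ b, hessM g u i b x * gradU g u b x - lapG g u x * gradU g u i x) W :=
      (ContDiffOn.sum fun b _ => (hhm i b).mul (hgr b)).sub (hlap.mul (hgr i))
    have h2 : ContDiffOn ℝ 1 (fun x => trg g k x * gradU g u i x - ∑ b, upk g k i b x * gradU g u b x) W :=
      (htr.mul (hgr i)).sub (ContDiffOn.sum fun b _ => (hup i b).mul (hgr b))
    exact ((h1.div hy hy0).add (hy.mul (hgr i))).add h2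
  exact hvol.mul ((hu.of_le (by norm_num)).exp.mul hY)

end UMB
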