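import Pool.Agent.Lib.UMB.M.BC
import Pool.Agent.Lib.UMB.M.K4
import Pool.Agent.Lib.UMB.M.R0

/-! # UMB section 1, chunk R4: limit of the boundary fluxes -/

set_option autoImplicit false

open Filter Topology Set MeasureTheory
open scoped ContDiff BigOperators

namespace UMB

open Pool.Agent.Lib.PenroseSph (E3 Tens pd chr ric scal trg normSqg divg energy momentum momNorm gradNorm normal meanCurv
  trLevel)

/-- the vector `A` of the decomposition `Y_e = A / y_e + y_e ∇u + B` -/
noncomputable def r4A (g : Tens) (u : E3 → ℝ) (a : Fin 3) (x : E3) : ℝ :=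
  ∑ b, hessM g u a b x * gradU g u b x - lapG g u x * gradU g u a x

/-- the vector `B` -/
noncomputable def r4B (g k : Tens) (u : E3 → ℝ) (a : Fin 3) (x : E3) : ℝ :=
  trg g k x * gradU g u a x - ∑ b, upk g k a b x * gradU g u b x

theorem r4_Y (g k : Tens) (u : E3 → ℝ) (e : ℝ) (a : Fin 3) (x : E3) :
    Yvec g k u e a x = r4A g u a x / yreg g u e x + yreg g u e x * gradU g u a x + r4B g k u a x := rfl

theorem r4_chr {g : Tens} {U : Set E3} (h : MetOn g U) (k i j : Fin 3) : ContinuousOn (chr g k i j) U := by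
  have hs : ∀ a i j, ContinuousOn (pd a (fun y => g y i j)) U := fun a i j =>
    (smooth_pd h.isOpen (h.smooth i j) a).continuousOn
  have hi : ∀ i j, ContinuousOn (fun x => (g x)⁻¹ i j) U := fun i j => (h.inv_smooth i j).continuousOn
  unfold chr
  exact continuousOn_const.mul (continuousOn_finsetSum _ fun l _ =>
    (hi k l).mul (((hs i j l).add (hs j i l)).sub (hs l i j)))

theorem r4_cont {g k : Tens} {a : ℝ} (hG : GK g k a) {V : Set E3} (hV : IsOpen V) (hVa : ∀ x ∈ V, a < ‖x‖)
    {u : E3 → ℝ} (hu : ContDiffOn ℝ 3 u V) :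
    (∀ i, ContinuousOn (gradU g u i) V) ∧ (∀ i, ContinuousOn (r4A g u i) V) ∧ (∀ i, ContinuousOn (r4B g k u i) V) ∧
      ContinuousOn (gsq g u) V ∧ ContinuousOn (vol g) V ∧ ContinuousOn u V := by
  have hp : ∀ i, ContDiffOn ℝ 2 (pd i u) V := fun i =>
    (hu.fderiv_of_isOpen hV (m := 2) (by norm_cast)).clm_apply contDiffOn_const
  have hpp : ∀ i j, ContinuousOn (pd i (pd j u)) V := fun i j =>
    (((hp j).fderiv_of_isOpen hV (m := 1) (by norm_cast)).clm_apply contDiffOn_const).continuousOn
  have hp0 : ∀ i, ContinuousOn (pd i u) V := fun i => (hp i).continuousOn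
  have hi : ∀ i j, ContinuousOn (fun x => (g x)⁻¹ i j) V := fun i j =>
    ((hG.met.inv_smooth i j).continuousOn).mono hVa
  have hc : ∀ k i j, ContinuousOn (chr g k i j) V := fun k i j => (r4_chr hG.met k i j).mono hVa
  have hk : ∀ i j, ContinuousOn (fun x => k x i j) V := fun i j => ((hG.smooth i j).continuousOn).mono hVa
  have hgr : ∀ i, ContinuousOn (gradU g u i) V := fun i => by
    unfold gradU
    exact continuousOn_finsetSum _ fun j _ => (hi i j).mul (hp0 j)
  have hh : ∀ i j, ContinuousOn (hess g u i j) V := fun i j => by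
    unfold hess
    exact (hpp i j).sub (continuousOn_finsetSum _ fun l _ => (hc l i j).mul (hp0 l))
  have hm : ∀ i j, ContinuousOn (hessM g u i j) V := fun i j => by
    unfold hessM
    exact continuousOn_finsetSum _ fun l _ => (hi i l).mul (hh j l)
  have hl : ContinuousOn (lapG g u) V := by
    unfold lapG
    exact continuousOn_finsetSum _ fun l _ => hm l l
  have hup : ∀ i j, ContinuousOn (upk g k i j) V := fun i j => by
    unfold upk
    exact continuousOn_finsetSum _ fun l _ => (hi i l).mul (hk l j)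
  have htr : ContinuousOn (trg g k) V := by
    unfold trg
    exact continuousOn_finsetSum _ fun i _ => continuousOn_finsetSum _ fun j _ => (hi i j).mul (hk i j)
  refine ⟨hgr, ?_, ?_, ?_, ?_, hu.continuousOn⟩
  · intro i
    unfold r4A
    exact (continuousOn_finsetSum _ fun b _ => (hm i b).mul (hgr b)).sub (hl.mul (hgr i))
  · intro i
    unfold r4B
    exact (htr.mul (hgr i)).sub (continuousOn_finsetSum _ fun b _ => (hup i b).mul (hgr b))
  · unfold gsq
    exact continuousOn_finsetSum _ fun i _ => (hp0 i).mul (hgr i)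
  · exact (hG.met.vol_smooth.continuousOn).mono hVa

theorem r4_gsq_pos {g : Tens} {U : Set E3} (h : MetOn g U) {u : E3 → ℝ} {x : E3} (hx : x ∈ U) (hd : D1 u x ≠ 0) :
    0 < gsq g u x := by
  have hp := (h.posDef hx).inv
  have h2 := hp.dotProduct_mulVec_pos hd
  have e : star (D1 u x) ⬝ᵥ (g x)⁻¹.mulVec (D1 u x) = gsq g u x := by
    unfold gsq gradU D1
    simp only [dotProduct, Matrix.mulVec, star_trivial, Finset.mul_sum]
  rw [e] at h2
  exact h2

theorem r4_sphere {g k : Tens} {a : ℝ} (hG : GK g k a) {R c1 c2 : ℝ} {u : E3 → ℝ} (hu : LF R c1 c2 u) {ρ c : ℝ}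
    (hρ : ρ = 1 ∨ ρ = R) (hc : ∀ x : E3, ‖x‖ = ρ → u x = c) :
    Tendsto (fun e => fl g k u e ρ) (𝓝[>] 0) (𝓝 (Real.exp c * bdry g k u ρ)) := by
  have hR := hu.one_lt
  have hρ1 : 1 ≤ ρ := by
    rcases hρ with h | h
    · exact h.ge
    · rw [h]; exact hR.le
  have hρ0 : 0 < ρ := by linarith
  have hρR : ρ ≤ R := by
    rcases hρ with h | h
    · rw [h]; exact hR.le
    · exact h.le
  obtain ⟨W, hWo, hWc, hWu⟩ := hu.c3
  set V : Set E3 := W ∩ {x : E3 | a < ‖x‖} with hV
  have hVo : IsOpen V := hWo.inter hG.met.isOpen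
  have hVa : ∀ x ∈ V, a < ‖x‖ := fun x hx => hx.2
  have hVu : ContDiffOn ℝ 3 u V := hWu.mono inter_subset_left
  obtain ⟨cg, cA, cB, cs, cv, cu⟩ := r4_cont hG hVo hVa hVu
  set S : Set E3 := {x : E3 | ‖x‖ = ρ} with hS
  have hSV : S ⊆ V := by
    intro x hx
    have hx' : ‖x‖ = ρ := hx
    exact ⟨hWc ⟨by rw [hx']; exact hρ1, by rw [hx']; exact hρR⟩, by
      change a < ‖x‖
      rw [hx']
      exact lt_of_lt_of_le hG.lt hρ1⟩
  have hSc : IsCompact S := by
    have : S = Metric.sphere (0 : E3) ρ := by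
      ext x
      simp [hS]
    rw [this]
    exact isCompact_sphere 0 ρ
  have hpos : ∀ x ∈ S, 0 < gsq g u x := by
    intro x hx
    have hx' : ‖x‖ = ρ := hx
    refine r4_gsq_pos hG.met (hVa x (hSV hx)) (hu.nz x ?_)
    rw [hx']
    exact hρ
  have hy0 : ∀ x ∈ S, 0 < yreg g u 0 x := by
    intro x hx
    unfold yreg
    rw [add_zero]
    exact Real.sqrt_pos.2 (hpos x hx)
  have hyge : ∀ (e : ℝ), 0 ≤ e → ∀ x, yreg g u 0 x ≤ yreg g u e x := by
    intro e he x
    unfold yreg
    exact Real.sqrt_le_sqrt (by linarith)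
  have hyc : ∀ e : ℝ, ContinuousOn (yreg g u e) S := by
    intro e
    unfold yreg
    exact Real.continuous_sqrt.comp_continuousOn ((cs.mono hSV).add continuousOn_const)
  have hyi : ContinuousOn (fun x => (yreg g u 0 x)⁻¹) S := (hyc 0).inv₀ fun x hx => (hy0 x hx).ne'
  -- bounds
  obtain ⟨b1, hb1⟩ := hSc.exists_bound_of_continuousOn (cv.mono hSV)
  obtain ⟨b2, hb2⟩ := hSc.exists_bound_of_continuousOn hyi
  obtain ⟨b3, hb3⟩ := hSc.exists_bound_of_continuousOn (hyc 1)
  choose b4 hb4 using fun i => hSc.exists_bound_of_continuousOn ((cA i).mono hSV)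
  choose b5 hb5 using fun i => hSc.exists_bound_of_continuousOn ((cB i).mono hSV)
  choose b6 hb6 using fun i => hSc.exists_bound_of_continuousOn ((cg i).mono hSV)
  have hn : ∀ n : Metric.sphere (0 : E3) 1, ‖(n : E3)‖ = 1 := fun n => by simp
  have hnS : ∀ n : Metric.sphere (0 : E3) 1, ρ • (n : E3) ∈ S := by
    intro n
    change ‖ρ • (n : E3)‖ = ρ
    rw [norm_smul, hn n, mul_one, Real.norm_eq_abs, abs_of_pos hρ0]
  have hni : ∀ (n : Metric.sphere (0 : E3) 1) (i : Fin 3), |(n : E3) i| ≤ 1 := by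
    intro n i
    have h5 := PiLp.norm_apply_le (n : E3) i
    rw [hn n, Real.norm_eq_abs] at h5
    exact h5
  have hcomp : ∀ f : E3 → ℝ, ContinuousOn f S → Continuous (fun n : Metric.sphere (0 : E3) 1 => f (ρ • (n : E3))) := by
    intro f hf
    have hc1 : Continuous (fun n : Metric.sphere (0 : E3) 1 => ρ • (n : E3)) := by fun_prop
    exact hf.comp_continuous hc1 hnS
  have hcn : ∀ i, Continuous (fun n : Metric.sphere (0 : E3) 1 => (n : E3) i) := fun i =>
    (EuclideanSpace.proj i : E3 →L[ℝ] ℝ).continuous.comp continuous_subtype_val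
  -- the integrand
  have hYc : ∀ e : ℝ, 0 ≤ e → ∀ i, ContinuousOn (Yvec g k u e i) S := by
    intro e he i
    have h1 : ContinuousOn (fun x => r4A g u i x / yreg g u e x + yreg g u e x * gradU g u i x + r4B g k u i x) S :=
      ((((cA i).mono hSV).div (hyc e) fun x hx => (lt_of_lt_of_le (hy0 x hx) (hyge e he x)).ne').add
        ((hyc e).mul ((cg i).mono hSV))).add ((cB i).mono hSV)
    exact h1
  have hFc : ∀ e : ℝ, 0 ≤ e → Continuous (fun n : Metric.sphere (0 : E3) 1 => ρ ^ 2 *
      ∑ i, vol g (ρ • (n : E3)) * (Real.exp (u (ρ • (n : E3))) * Yvec g k u e i (ρ • (n : E3))) * (n : E3) i) := by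
    intro e he
    refine continuous_const.mul (continuous_finsetSum _ fun i _ => ?_)
    exact ((hcomp _ (cv.mono hSV)).mul ((Real.continuous_exp.comp (hcomp _ (cu.mono hSV))).mul
      (hcomp _ (hYc e he i)))).mul (hcn i)
  have hlim : Tendsto (fun e => fl g k u e ρ) (𝓝[>] 0) (𝓝 (fl g k u 0 ρ)) := by
    unfold fl
    refine tendsto_integral_filter_of_dominated_convergence
      (fun _ => ρ ^ 2 * ∑ i, |b1| * (Real.exp c * (|b4 i| * |b2| + |b3| * |b6 i| + |b5 i|)) * 1) ?_ ?_ ?_ ?_
    · filter_upwards [self_mem_nhdsWithin] with e he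
      exact (hFc e (le_of_lt he)).aestronglyMeasurable
    · have h1 : ∀ᶠ e in 𝓝[>] (0 : ℝ), e ≤ 1 :=
        Filter.Eventually.filter_mono nhdsWithin_le_nhds (Iic_mem_nhds one_pos)
      filter_upwards [self_mem_nhdsWithin, h1] with e he he1
      filter_upwards with n
      have he0 : 0 ≤ e := le_of_lt he
      have hx := hnS n
      have q1 : |vol g (ρ • (n : E3))| ≤ |b1| := (hb1 _ hx).trans (le_abs_self _)
      have q2 : |Real.exp (u (ρ • (n : E3)))| ≤ Real.exp c := by
        rw [abs_of_pos (Real.exp_pos _), hc _ hx]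
      have q3 : |yreg g u e (ρ • (n : E3))| ≤ |b3| := by
        rw [abs_of_nonneg (show 0 ≤ yreg g u e (ρ • (n : E3)) from Real.sqrt_nonneg _)]
        have h4 : yreg g u e (ρ • (n : E3)) ≤ yreg g u 1 (ρ • (n : E3)) := by
          unfold yreg
          exact Real.sqrt_le_sqrt (by linarith)
        exact h4.trans ((le_abs_self _).trans ((hb3 _ hx).trans (le_abs_self _)))
      have q4 : |(yreg g u e (ρ • (n : E3)))⁻¹| ≤ |b2| := by
        have h5 := hy0 _ hx
        have h6 := hyge e he0 (ρ • (n : E3))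
        have h7 := lt_of_lt_of_le h5 h6
        rw [abs_of_pos (inv_pos.2 h7)]
        refine (inv_anti₀ h5 h6).trans ?_
        exact (le_abs_self _).trans ((hb2 _ hx).trans (le_abs_self _))
      rw [Real.norm_eq_abs, abs_mul, abs_of_nonneg (sq_nonneg ρ)]
      refine mul_le_mul_of_nonneg_left ?_ (sq_nonneg ρ)
      refine (Finset.abs_sum_le_sum_abs _ _).trans (Finset.sum_le_sum fun i _ => ?_)
      rw [abs_mul, abs_mul, abs_mul]
      have q5 : |Yvec g k u e i (ρ • (n : E3))| ≤ |b4 i| * |b2| + |b3| * |b6 i| + |b5 i| := by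
        rw [r4_Y]
        refine (abs_add_le _ _).trans (add_le_add ((abs_add_le _ _).trans (add_le_add ?_ ?_)) ?_)
        · rw [div_eq_mul_inv, abs_mul]
          exact mul_le_mul ((hb4 i _ hx).trans (le_abs_self _)) q4 (abs_nonneg _) (abs_nonneg _)
        · rw [abs_mul]
          exact mul_le_mul q3 ((hb6 i _ hx).trans (le_abs_self _)) (abs_nonneg _) (abs_nonneg _)
        · exact (hb5 i _ hx).trans (le_abs_self _)
      exact mul_le_mul (mul_le_mul q1 (mul_le_mul q2 q5 (abs_nonneg _) (Real.exp_pos _).le)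
        (by positivity) (abs_nonneg _)) (hni n i) (abs_nonneg _) (by positivity)
    · exact integrable_const _
    · filter_upwards with n
      have hx := hnS n
      have hyl : Tendsto (fun e => yreg g u e (ρ • (n : E3))) (𝓝[>] 0) (𝓝 (yreg g u 0 (ρ • (n : E3)))) := by
        have hcont : Continuous (fun e : ℝ => yreg g u e (ρ • (n : E3))) := by
          unfold yreg
          fun_prop
        exact (hcont.tendsto 0).mono_left nhdsWithin_le_nhds
      refine Tendsto.const_mul _ (tendsto_finsetSum _ fun i _ => ?_)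
      simp only [r4_Y]
      exact ((((((tendsto_const_nhds.div hyl (hy0 _ hx).ne').add (hyl.mul_const _)).add_const _).const_mul _).const_mul _).mul_const _)
  have hval : fl g k u 0 ρ = Real.exp c * bdry g k u ρ := by
    unfold fl bdry
    rw [← integral_const_mul]
    refine integral_congr_ae (Filter.Eventually.of_forall fun n => ?_)
    have hx := hnS n
    have hx' : ‖ρ • (n : E3)‖ = ρ := hx
    have h1 := BC_bd hG hu (x := ρ • (n : E3)) (by rw [hx']; exact hρ)
    have h2 : ∀ i, (ρ • (n : E3)) i / ‖ρ • (n : E3)‖ = (n : E3) i := by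
      intro i
      rw [hx']
      change ρ * (n : E3) i / ρ = (n : E3) i
      field_simp
    simp only [h2] at h1
    simp only
    rw [h1, hc _ hx]
    ring
  rw [hval] at hlim
  exact hlim

/-- **R4.** PROOF. Let `ρ ∈ {1, R}`. The integrand of `fl g k u e ρ` is a continuous function of `(e, n)` on
`[0,1] × sphere`: all ingredients are continuous near the sphere of radius `ρ` (C³ neighbourhood, R0-type argument) and
`gsq g u ≥ c > 0` on that sphere (`nz`, compactness), so `yreg g u e ≥ √c`. So the integrands converge uniformly as `e → 0`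
(compact sphere, finite measure; or dominated convergence with the pointwise limit), the limit is
`∫ ρ² ∑ vol e^u Y_0^i n_i = ∫ ρ² e^c bd` by BC2 (`x = ρ n`, `x i/‖x‖ = n i`, `u x = c`). -/
theorem R4_lim {g k : Tens} {a : ℝ} (hG : GK g k a) {R c1 c2 : ℝ} {u : E3 → ℝ} (hu : LF R c1 c2 u) :
    Tendsto (fun e => fl g k u e R) (𝓝[>] 0) (𝓝 (Real.exp c2 * bdry g k u R)) ∧
      Tendsto (fun e => fl g k u e 1) (𝓝[>] 0) (𝓝 (Real.exp c1 * bdry g k u 1)) := by
  exact ⟨r4_sphere hG hu (Or.inr rfl) hu.outer, r4_sphere hG hu (Or.inl rfl) hu.inner⟩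

end UMB
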