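import Pool.Agent.Lib.UMB.M.R3
import Pool.Agent.Lib.UMB.M.R4
import Pool.Agent.Lib.UMB.M.K4b
import Pool.Agent.Lib.UMB.M.K5
import Pool.Agent.Lib.UMB.M.R2
import Pool.Agent.Lib.UMB.M.MI

/-! # UMB section 1, chunk M1: the integrated master identity -/

set_option autoImplicit false

open Filter Topology Set MeasureTheory
open scoped ContDiff BigOperators

namespace UMB

open Pool.Agent.Lib.PenroseSph (E3 Tens pd chr ric scal trg normSqg divg energy momentum momNorm gradNorm normal meanCurv
  trLevel)

/-- **M1. The integrated master identity.** PROOF. R3 for `e > 0`; `e → 0`: the left side by R4, the right side by dominated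
convergence (`MeasureTheory.tendsto_integral_filter_of_dominated_convergence` along `𝓝[>] 0`, R2 pointwise a.e., K4 bound,
K5 measurability). Uniqueness of limits. -/
theorem M1_identity {g k : Tens} {a : ℝ} (hG : GK g k a) {R c1 c2 : ℝ} {u : E3 → ℝ} (hu : LF R c1 c2 u) :
    Real.exp c2 * bdry g k u R - Real.exp c1 * bdry g k u 1 =
      ∫ x in ann R, vol g x * (Real.exp (u x) * (Imain g k u x - kap g u x)) := by
  obtain ⟨K, hK0, hK⟩ := K4_bd hG hu
  have hae : ∀ᵐ x ∂(volume.restrict (ann R)), x ∈ ann R := ae_restrict_mem (UMB.Lin.measurableSet_Ann R)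
  have hR : Tendsto (fun e => ∫ x in ann R, vol g x * (Real.exp (u x) * RHe g k u e x)) (𝓝[>] 0)
      (𝓝 (∫ x in ann R, vol g x * (Real.exp (u x) * (Imain g k u x - kap g u x)))) := by
    refine tendsto_integral_filter_of_dominated_convergence
      (fun x => K * (1 + fsq (D2 u x) / Real.sqrt (vsq (D1 u x)))) ?_ ?_ (mi_bound hu K) ?_
    · exact Eventually.of_forall fun e => (K5_meas hG hu.smooth).2.2.2.2 e
    · filter_upwards [Ioc_mem_nhdsGT zero_lt_one] with e he
      filter_upwards [hae, hu.kf0] with x hx h0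
      rw [Real.norm_eq_abs]
      exact hK x hx h0 e he.1 he.2
    · filter_upwards [hae, hu.kf0] with x hx h0
      exact ((R2_lim hG (hG.lt.trans hx.1) h0).const_mul _).const_mul _
  have hL := (R4_lim hG hu).1.sub (R4_lim hG hu).2
  have hE : (fun e => fl g k u e R - fl g k u e 1) =ᶠ[𝓝[>] 0]
      (fun e => ∫ x in ann R, vol g x * (Real.exp (u x) * RHe g k u e x)) := by
    filter_upwards [self_mem_nhdsWithin] with e he
    exact R3_int hG hu he
  exact tendsto_nhds_unique (hL.congr' hE) hR

end UMB
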