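import Pool.Agent.Lib.UMB.M.MI
import Pool.Agent.Lib.H44G.Main

/-! # UMB section 1 (lemma GB): the weak Gauss-Bonnet inequality with the weight `exp` on the whole annulus -/

set_option autoImplicit false

open Filter Topology Set MeasureTheory
open scoped ContDiff BigOperators

namespace UMB

open Pool.Agent.Lib.PenroseSph (E3 Tens pd chr ric scal trg normSqg divg energy momentum momNorm gradNorm normal meanCurv
  trLevel)

theorem MetOn.mono {g : Tens} {U V : Set E3} (h : MetOn g U) (hV : IsOpen V) (hVU : V ⊆ U) : MetOn g V where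
  isOpen := hV
  smooth := fun i j => (h.smooth i j).mono hVU
  symm := fun x hx => h.symm x (hVU hx)
  pos := fun x hx => h.pos x (hVU hx)

/-- The preimage of a null set under a nonzero linear form is null. -/
theorem gb_lin {L : E3 →L[ℝ] ℝ} (hL : L ≠ 0) {N : Set ℝ} (hN : volume N = 0) : volume (L ⁻¹' N) = 0 := by
  have hs : Function.Surjective (L : E3 →ₗ[ℝ] ℝ) := by
    apply LinearMap.surjective
    intro h
    apply hL
    ext x
    simpa using LinearMap.congr_fun h x
  obtain ⟨c, hc0, hmap⟩ := LinearMap.exists_map_addHaar_eq_smul_addHaar (L : E3 →ₗ[ℝ] ℝ)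
    (volume : Measure E3) (volume : Measure ℝ) hs
  have hN' : volume (toMeasurable volume N) = 0 := by rw [measure_toMeasurable]; exact hN
  have hm : MeasurableSet (toMeasurable (volume : Measure ℝ) N) := measurableSet_toMeasurable _ _
  have h1 : (volume : Measure E3) (L ⁻¹' (toMeasurable volume N)) = 0 := by
    have h2 := Measure.map_apply (μ := (volume : Measure E3)) L.continuous.measurable hm
    have h3 : ((volume : Measure E3).map L) (toMeasurable volume N) = 0 := by
      have h4 := congrArg (fun μ : Measure ℝ => μ (toMeasurable volume N)) hmap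
      simp only [Measure.smul_apply, smul_eq_mul] at h4
      rw [hN', mul_zero] at h4
      exact h4
    rw [← h2]; exact h3
  exact measure_mono_null (preimage_mono (subset_toMeasurable _ _)) h1

/-- The preimage of a null set under a submersion is null (locally). -/
theorem gb_preim {f : E3 → ℝ} {x : E3} (hf : ContDiffAt ℝ 1 f x) (hd : fderiv ℝ f x ≠ 0) {N : Set ℝ}
    (hN : volume N = 0) : ∃ U ∈ 𝓝 x, volume (U ∩ f ⁻¹' N) = 0 := by
  set L : E3 →L[ℝ] ℝ := fderiv ℝ f x with hL
  obtain ⟨w, hw⟩ : ∃ w, L w ≠ 0 := by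
    by_contra h
    push Not at h
    exact hd (ContinuousLinearMap.ext h)
  set v : E3 := (L w)⁻¹ • w with hv
  have hLv : L v = 1 := by
    rw [hv, map_smul, smul_eq_mul, inv_mul_cancel₀ hw]
  let Φ : E3 → E3 := fun y => y + (f y - L y) • v
  have hΦ : ContDiffAt ℝ 1 Φ x := by
    have h1 : ContDiffAt ℝ 1 (fun y => f y - L y) x := hf.sub L.contDiff.contDiffAt
    have h2 : ContDiffAt ℝ 1 (fun _ : E3 => v) x := contDiffAt_const
    exact contDiffAt_id.add (h1.smul h2)
  have hLΦ : ∀ y, L (Φ y) = f y := by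
    intro y
    show L (y + (f y - L y) • v) = f y
    rw [map_add, map_smul, hLv, smul_eq_mul, mul_one]
    ring
  have hΦ' : HasFDerivAt Φ ((ContinuousLinearEquiv.refl ℝ E3 : E3 ≃L[ℝ] E3) : E3 →L[ℝ] E3) x := by
    have h1 : HasFDerivAt f L x := (hf.differentiableAt (by norm_num)).hasFDerivAt
    have h2 : HasFDerivAt (fun y => f y - L y) (L - L) x := h1.sub L.hasFDerivAt
    have h3 : HasFDerivAt (fun y => (f y - L y) • v) ((L - L).smulRight v) x := h2.smul_const v
    have h4 := (hasFDerivAt_id (𝕜 := ℝ) x).add h3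
    have h5 : ContinuousLinearMap.id ℝ E3 + (L - L).smulRight v = ((ContinuousLinearEquiv.refl ℝ E3 : E3 ≃L[ℝ] E3) : E3 →L[ℝ] E3) := by
      ext y
      simp
    rw [h5] at h4
    exact h4
  have h10 : (1 : WithTop ℕ∞) ≠ 0 := by norm_num
  set e := hΦ.toOpenPartialHomeomorph Φ hΦ' h10 with he
  have hxe : x ∈ e.source := hΦ.mem_toOpenPartialHomeomorph_source hΦ' h10
  have heΦ : ∀ y, e y = Φ y := fun y => rfl
  have hinv : ContDiffAt ℝ 1 e.symm (Φ x) := hΦ.to_localInverse hΦ' h10
  have hev : ∀ᶠ z in 𝓝 (Φ x), ContDiffAt ℝ 1 e.symm z := hinv.eventually (by simp)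
  have hev2 : ∀ᶠ y in 𝓝 x, ContDiffAt ℝ 1 e.symm (Φ y) := hΦ.continuousAt.eventually hev
  refine ⟨{y | y ∈ e.source ∧ ContDiffAt ℝ 1 e.symm (Φ y)}, ?_, ?_⟩
  · exact Filter.inter_mem (e.open_source.mem_nhds hxe) hev2
  · have hT : volume (L ⁻¹' N ∩ {z | ContDiffAt ℝ 1 e.symm z}) = 0 :=
      measure_mono_null inter_subset_left (gb_lin hd hN)
    have hdiff : DifferentiableOn ℝ e.symm (L ⁻¹' N ∩ {z | ContDiffAt ℝ 1 e.symm z}) := by
      intro z hz
      have hz2 : ContDiffAt ℝ 1 e.symm z := hz.2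
      exact (hz2.differentiableAt (by norm_num)).differentiableWithinAt
    have himg := addHaar_image_eq_zero_of_differentiableOn_of_addHaar_eq_zero volume hdiff hT
    refine measure_mono_null ?_ himg
    rintro y ⟨⟨hy1, hy2⟩, hy3⟩
    refine ⟨Φ y, ⟨?_, hy2⟩, ?_⟩
    · show L (Φ y) ∈ N
      rw [hLΦ]
      exact hy3
    · rw [← heΦ]
      exact e.left_inv hy1

theorem gb_kap {g : Tens} {u : E3 → ℝ} {x : E3} (h : D1 u x = 0) : kap g u x = 0 := by
  have h1 : ∀ i, pd i u x = 0 := fun i => congrFun h i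
  simp [kap, yreg, gsq, gradU, h1, ricGG, hgradSq, hgrad, hgg]

theorem gb_isOpen_ann (R : ℝ) : IsOpen (ann R) :=
  (isOpen_lt continuous_const continuous_norm).inter (isOpen_lt continuous_norm continuous_const)

theorem gb_null {R : ℝ} {u : E3 → ℝ} (hu : ContDiffOn ℝ ∞ u (ann R)) {N : Set ℝ} (hN : volume N = 0) :
    volume {x : E3 | x ∈ ann R ∧ D1 u x ≠ 0 ∧ u x ∈ N} = 0 := by
  apply measure_null_of_locally_null
  intro x hx
  have h1 : ContDiffAt ℝ 1 u x :=
    ((hu x hx.1).contDiffAt ((gb_isOpen_ann R).mem_nhds hx.1)).of_le (by exact_mod_cast le_top)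
  have h2 : fderiv ℝ u x ≠ 0 := by
    intro h
    apply hx.2.1
    funext i
    show fderiv ℝ u x _ = 0
    rw [h]
    rfl
  obtain ⟨U, hU, hUN⟩ := gb_preim h1 h2 hN
  refine ⟨{x : E3 | x ∈ ann R ∧ D1 u x ≠ 0 ∧ u x ∈ N} ∩ U, Filter.inter_mem self_mem_nhdsWithin
    (mem_nhdsWithin_of_mem_nhds hU), ?_⟩
  refine measure_mono_null ?_ hUN
  rintro y ⟨hy1, hy2⟩
  exact ⟨hy2, hy1.2.2⟩

/-- **GB.** The weak Gauss-Bonnet inequality with the weight `exp u`. -/
theorem GB_bound {g k : Tens} {a : ℝ} (hG : GK g k a) {R c1 c2 : ℝ} {u : E3 → ℝ} (hu : LF R c1 c2 u)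
    (hL : Pool.Agent.H44G.IsLevel u c1 c2 R) :
    ∫ x in ann R, vol g x * (Real.exp (u x) * kap g u x) ≤ 4 * Real.pi * (Real.exp c2 - Real.exp c1) := by
  have hopen : IsOpen (ann R) := gb_isOpen_ann R
  have hsub : ann R ⊆ {x : E3 | a < ‖x‖} := fun x hx => lt_trans hG.lt hx.1
  have hmet : MetOn g (Pool.Agent.H44G.shell R) := hG.met.mono hopen hsub
  have hint := (M1_int hG hu).1
  -- the null set of critical values and a measurable hull
  have hcn := (Pool.Agent.H44G.critVals_null hL).1
  set Z : Set ℝ := toMeasurable volume (Pool.Agent.H44G.critVals u R) with hZ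
  have hZ0 : volume Z = 0 := by rw [hZ, measure_toMeasurable]; exact hcn
  have hZm : MeasurableSet Z := measurableSet_toMeasurable _ _
  have hZs : Pool.Agent.H44G.critVals u R ⊆ Z := subset_toMeasurable _ _
  set A : Set ℝ := Ioo c1 c2 \ Z with hA
  have hAm : MeasurableSet A := measurableSet_Ioo.diff hZm
  have hAf : volume A ≠ ⊤ := by
    refine ne_top_of_le_ne_top ?_ (measure_mono sdiff_subset)
    simp
  have hK : ∀ n : ℕ, ∃ K ⊆ A, IsCompact K ∧ volume (A \ K) < ENNReal.ofReal (1 / ((n : ℝ) + 1)) := by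
    intro n
    apply hAm.exists_isCompact_sdiff_lt hAf
    rw [Ne, ENNReal.ofReal_eq_zero, not_le]
    positivity
  choose K hKA hKc hKv using hK
  set L : ℕ → Set ℝ := fun n => ⋃ m ∈ Finset.range (n + 1), K m with hLdef
  have hLA : ∀ n, L n ⊆ A := fun n => iUnion₂_subset fun m _ => hKA m
  have hLc : ∀ n, IsCompact (L n) := fun n => (Finset.range (n + 1)).isCompact_biUnion fun m _ => hKc m
  have hLK : ∀ n, K n ⊆ L n := by
    intro n
    exact subset_biUnion_of_mem (u := fun m => K m) (by simp : n ∈ Finset.range (n + 1))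
  have hLmono : Monotone L := by
    intro m n hmn
    apply biUnion_subset_biUnion_left
    intro x hx
    simp only [Finset.coe_range, mem_Iio] at hx ⊢
    omega
  set W : Set ℝ := Ioo c1 c2 \ ⋃ n, L n with hW
  have hW0 : volume W = 0 := by
    have h1 : volume (A \ ⋃ n, L n) = 0 := by
      by_contra hne
      have hpos : 0 < volume (A \ ⋃ n, L n) := pos_iff_ne_zero.2 hne
      have hlt : ∀ n : ℕ, volume (A \ ⋃ n, L n) ≤ ENNReal.ofReal (1 / ((n : ℝ) + 1)) := by
        intro n
        refine le_trans (measure_mono ?_) (hKv n).le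
        exact sdiff_subset_sdiff_right ((hLK n).trans (subset_iUnion L n))
      have hlim : Tendsto (fun n : ℕ => ENNReal.ofReal (1 / ((n : ℝ) + 1))) atTop (𝓝 (ENNReal.ofReal 0)) :=
        ENNReal.tendsto_ofReal tendsto_one_div_add_atTop_nhds_zero_nat
      rw [ENNReal.ofReal_zero] at hlim
      exact absurd (ge_of_tendsto' hlim hlt) (not_le.2 hpos)
    refine measure_mono_null ?_ (measure_union_null h1 hZ0)
    intro t ht
    by_cases htZ : t ∈ Z
    · exact Or.inr htZ
    · exact Or.inl ⟨⟨ht.1, htZ⟩, ht.2⟩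
  -- the weights
  set η : ℕ → ℝ → ℝ := fun n => (L n).indicator Real.exp with hη
  have hηm : ∀ n, Measurable (η n) := fun n => Real.measurable_exp.indicator (hLc n).measurableSet
  have hη0 : ∀ n t, 0 ≤ η n t := fun n t => indicator_nonneg (fun t _ => (Real.exp_pos t).le) t
  have hηe : ∀ n t, η n t ≤ Real.exp t := fun n t => indicator_le_self' (fun t _ => (Real.exp_pos t).le) t
  have hηM : ∀ n t, η n t ≤ Real.exp c2 := by
    intro n t
    by_cases ht : t ∈ L n
    · rw [hη]
      simp only [indicator_of_mem ht]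
      exact Real.exp_le_exp.2 (hLA n ht).1.2.le
    · rw [hη]
      simp only [indicator_of_notMem ht]
      exact (Real.exp_pos _).le
  have hmain : ∀ n, IntegrableOn (fun x => η n (u x) * (vol g x * kap g u x)) (ann R) ∧
      ∫ x in ann R, η n (u x) * (vol g x * kap g u x) ≤ 4 * Real.pi * ∫ t, η n t := by
    intro n
    exact Pool.Agent.H44G.main hmet hL (hLc n)
      (fun t ht => ⟨(hLA n ht).1, fun hc => (hLA n ht).2 (hZs hc)⟩) (hηm n) (hη0 n) (hηM n)
      (fun t ht => indicator_of_notMem ht _)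
  have hηint : ∀ n, ∫ t, η n t ≤ Real.exp c2 - Real.exp c1 := by
    intro n
    have h1 : ∫ t, η n t = ∫ t in L n, Real.exp t := integral_indicator (hLc n).measurableSet
    have h2 : ∫ t in Ioc c1 c2, Real.exp t = Real.exp c2 - Real.exp c1 := by
      rw [← intervalIntegral.integral_of_le hu.lt.le, integral_exp]
    rw [h1, ← h2]
    apply setIntegral_mono_set
    · exact (Real.continuous_exp.integrableOn_Icc (a := c1) (b := c2)).mono_set Ioc_subset_Icc_self
    · exact Eventually.of_forall fun t => (Real.exp_pos t).le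
    · apply Eventually.of_forall
      intro t ht
      exact Ioo_subset_Ioc_self (hLA n ht).1
  -- the limit
  have hlim : Tendsto (fun n => ∫ x in ann R, η n (u x) * (vol g x * kap g u x)) atTop
      (𝓝 (∫ x in ann R, vol g x * (Real.exp (u x) * kap g u x))) := by
    apply tendsto_integral_of_dominated_convergence (fun x => |vol g x * (Real.exp (u x) * kap g u x)|)
    · intro n
      exact (hmain n).1.aestronglyMeasurable
    · exact hint.abs
    · intro n
      apply Eventually.of_forall
      intro x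
      rw [Real.norm_eq_abs, abs_mul, abs_mul, abs_mul, abs_mul, abs_of_nonneg (hη0 n (u x)), abs_of_pos (Real.exp_pos _)]
      have h1 := hηe n (u x)
      have h2 : 0 ≤ |vol g x| * |kap g u x| := by positivity
      nlinarith [mul_le_mul_of_nonneg_right h1 h2]
    · have hnull := gb_null hu.smooth hW0
      have h1 : ∀ᵐ x ∂(volume.restrict (ann R)), x ∉ {x : E3 | x ∈ ann R ∧ D1 u x ≠ 0 ∧ u x ∈ W} :=
        ae_restrict_of_ae (measure_eq_zero_iff_ae_notMem.1 hnull)
      filter_upwards [h1, ae_restrict_mem hopen.measurableSet] with x hx hxa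
      by_cases hd : D1 u x = 0
      · rw [gb_kap hd]
        simp
      · have hW' : u x ∉ W := fun hc => hx ⟨hxa, hd, hc⟩
        have hIoo : u x ∈ Ioo c1 c2 := ⟨hu.lo x hxa, hu.hi x hxa⟩
        have hmem : u x ∈ ⋃ n, L n := by
          by_contra hc
          exact hW' ⟨hIoo, hc⟩
        obtain ⟨n, hn⟩ := mem_iUnion.1 hmem
        apply tendsto_const_nhds.congr'
        filter_upwards [eventually_ge_atTop n] with m hm
        have h2 : η m (u x) = Real.exp (u x) := indicator_of_mem (hLmono hm hn) _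
        rw [h2]
        ring
  apply le_of_tendsto' hlim
  intro n
  refine le_trans (hmain n).2 ?_
  exact mul_le_mul_of_nonneg_left (hηint n) (by positivity)

end UMB
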