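import Pool.Agent.Lib.UMB.M.Defs

/-! # UMB section 1, chunk P2: quadratic forms in the gradient -/

set_option autoImplicit false

open Filter Topology Set MeasureTheory
open scoped ContDiff BigOperators

namespace UMB

open Pool.Agent.Lib.PenroseSph (E3 Tens pd chr ric scal trg normSqg divg energy momentum momNorm gradNorm normal meanCurv
  trLevel)

theorem p2_low {g : Tens} {U : Set E3} (h : MetOn g U) {x : E3} (hx : x ∈ U) (u : E3 → ℝ) (i : Fin 3) :
    ∑ j, g x i j * gradU g u j x = pd i u x := by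
  have h1 : ∑ j, g x i j * gradU g u j x = ∑ k, (∑ j, g x i j * (g x)⁻¹ j k) * pd k u x := by
    simp only [gradU, Finset.mul_sum, Finset.sum_mul]
    rw [Finset.sum_comm]
    refine Finset.sum_congr rfl fun k _ => Finset.sum_congr rfl fun j _ => by ring
  rw [h1]
  simp only [h.mul_inv hx, ite_mul, one_mul, zero_mul, Finset.sum_ite_eq, Finset.mem_univ, if_true]

theorem p2_gsq {g : Tens} {U : Set E3} (h : MetOn g U) {x : E3} (hx : x ∈ U) (u : E3 → ℝ) :
    gsq g u x = quad g x (fun i => gradU g u i x) := by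
  unfold gsq quad
  refine Finset.sum_congr rfl fun i _ => ?_
  rw [← p2_low h hx u i, Finset.sum_mul]
  refine Finset.sum_congr rfl fun j _ => by ring

theorem p2_nonneg {g : Tens} {U : Set E3} (h : MetOn g U) {x : E3} (hx : x ∈ U) (v : Fin 3 → ℝ) : 0 ≤ quad g x v := by
  by_cases hv : v = 0
  · subst hv
    simp [quad]
  · exact (h.pos x hx v hv).le

theorem p2_kgg {g k : Tens} {U : Set E3} (h : MetOn g U) {x : E3} (hx : x ∈ U) (u : E3 → ℝ) :
    kGG g k u x = quad k x (fun i => gradU g u i x) := by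
  have h1 : ∀ c, gradU g u c x = ∑ a, pd a u x * (g x)⁻¹ a c := by
    intro c
    unfold gradU
    refine Finset.sum_congr rfl fun a _ => ?_
    rw [h.inv_symm hx c a]
    ring
  have h2 : quad k x (fun i => gradU g u i x) = ∑ c, ∑ b, (∑ a, pd a u x * (g x)⁻¹ a c) * k x c b * gradU g u b x := by
    unfold quad
    refine Finset.sum_congr rfl fun c _ => Finset.sum_congr rfl fun b _ => ?_
    rw [← h1 c]
    ring
  rw [h2]
  unfold kGG upk
  simp only [Finset.mul_sum, Finset.sum_mul]
  rw [Finset.sum_comm]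
  conv_rhs => rw [Finset.sum_comm]
  refine Finset.sum_congr rfl fun b _ => ?_
  rw [Finset.sum_comm]
  refine Finset.sum_congr rfl fun c _ => Finset.sum_congr rfl fun a _ => by ring

/-- **P2.** `y² = |du|²`, `k(∇u,∇u)`, `|du|²` as quadratic forms in the vector `∇u`, and `yreg g u 0 = gradNorm g u`.
PROOF. `g⁻¹` is symmetric (`MetOn.inv_symm`), `MetOn.inv_mul`, `MetOn.mul_inv`; write all sums over `Fin 3`
(`Fin.sum_univ_three`) or exchange sums. -/
theorem grad_forms {g k : Tens} {U : Set E3} (h : MetOn g U) {x : E3} (hx : x ∈ U) (u : E3 → ℝ) :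
    gsq g u x = quad g x (fun i => gradU g u i x) ∧ kGG g k u x = quad k x (fun i => gradU g u i x) ∧
      yreg g u 0 x = gradNorm g u x ∧ gradNorm g u x ^ 2 = gsq g u x := by
  have hg : (∑ i, ∑ j, (g x)⁻¹ i j * pd i u x * pd j u x) = gsq g u x := by
    unfold gsq gradU
    refine Finset.sum_congr rfl fun i _ => ?_
    rw [Finset.mul_sum]
    refine Finset.sum_congr rfl fun j _ => by ring
  have h0 : 0 ≤ gsq g u x := by
    rw [p2_gsq h hx u]
    exact p2_nonneg h hx _
  refine ⟨p2_gsq h hx u, p2_kgg h hx u, ?_, ?_⟩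
  · unfold yreg gradNorm
    rw [hg, add_zero]
  · unfold gradNorm
    rw [hg, Real.sq_sqrt h0]

end UMB
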