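import Pool.Agent.Lib.UMB.M.Defs

/-! # UMB section 1, chunk P3: Cauchy-Schwarz for the momentum -/

set_option autoImplicit false

open Filter Topology Set MeasureTheory
open scoped ContDiff BigOperators

namespace UMB

open Pool.Agent.Lib.PenroseSph (E3 Tens pd chr ric scal trg normSqg divg energy momentum momNorm gradNorm normal meanCurv
  trLevel)

theorem p3_quad {g : Tens} {U : Set E3} (h : MetOn g U) {x : E3} (hx : x ∈ U) (v : Fin 3 → ℝ) :
    0 ≤ ∑ i, ∑ j, (g x)⁻¹ i j * v i * v j := by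
  have h1 := (h.posDef hx).inv.posSemidef.dotProduct_mulVec_nonneg v
  have h2 : star v ⬝ᵥ (Matrix.mulVec (g x)⁻¹ v) = ∑ i, ∑ j, (g x)⁻¹ i j * v i * v j := by
    simp only [dotProduct, Matrix.mulVec, star_trivial, Finset.mul_sum]
    refine Finset.sum_congr rfl fun i _ => Finset.sum_congr rfl fun j _ => by ring
  rw [h2] at h1
  exact h1

theorem p3_cs {g : Tens} {U : Set E3} (h : MetOn g U) {x : E3} (hx : x ∈ U) (a b : Fin 3 → ℝ) :
    (∑ i, a i * ∑ j, (g x)⁻¹ i j * b j) ^ 2 ≤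
      (∑ i, ∑ j, (g x)⁻¹ i j * a i * a j) * ∑ i, ∑ j, (g x)⁻¹ i j * b i * b j := by
  have hs := fun i j => h.inv_symm hx i j
  have h1 : ∀ t : ℝ, 0 ≤ (∑ i, ∑ j, (g x)⁻¹ i j * a i * a j) * (t * t) +
      (2 * ∑ i, a i * ∑ j, (g x)⁻¹ i j * b j) * t + ∑ i, ∑ j, (g x)⁻¹ i j * b i * b j := by
    intro t
    have h2 := p3_quad h hx (fun i => t * a i + b i)
    refine h2.trans_eq ?_
    simp only [Fin.sum_univ_three]
    rw [hs 1 0, hs 2 0, hs 2 1]
    ring
  have h3 := discrim_le_zero h1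
  unfold discrim at h3
  nlinarith [h3]

/-- **P3.** `|J(∇u)| ≤ |J| |∇u|`.
PROOF. `JGrad g k u x = ∑_{i j} g⁻¹ i j J_i p_j` with `p = du`; `g⁻¹` is positive definite (`(h.posDef hx).inv`):
Cauchy-Schwarz for the bilinear form `B(a, b) = ∑ g⁻¹ i j a_i b_j`: `B(J, p)² ≤ B(J, J) B(p, p)` (from
`0 ≤ B(B(p,p) J - B(J,p) p, B(p,p) J - B(J,p) p)`, the case `p = 0` is trivial). Take square roots
(`Real.sqrt_mul`). -/
theorem J_le {g k : Tens} {U : Set E3} (h : MetOn g U) {x : E3} (hx : x ∈ U) (u : E3 → ℝ) :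
    |JGrad g k u x| ≤ momNorm g k x * yreg g u 0 x := by
  have h1 := p3_cs h hx (fun j => momentum g k j x) (fun j => pd j u x)
  have hg : gsq g u x = ∑ i, ∑ j, (g x)⁻¹ i j * pd i u x * pd j u x := by
    unfold gsq gradU
    refine Finset.sum_congr rfl fun i _ => ?_
    rw [Finset.mul_sum]
    refine Finset.sum_congr rfl fun j _ => by ring
  have h2 : JGrad g k u x ^ 2 ≤ (∑ i, ∑ j, (g x)⁻¹ i j * momentum g k i x * momentum g k j x) * gsq g u x := by
    rw [hg]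
    exact h1
  unfold momNorm yreg
  rw [add_zero, ← Real.sqrt_mul (p3_quad h hx (fun j => momentum g k j x)), ← Real.sqrt_sq_eq_abs]
  exact Real.sqrt_le_sqrt h2

end UMB
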