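import Pool.Agent.Lib.UMB.M.P1
import Pool.Agent.Lib.UMB.M.P2
import Pool.Agent.Lib.UMB.M.P3

/-! # UMB section 1, chunk P4: lower bound of Imain -/

set_option autoImplicit false

open Filter Topology Set MeasureTheory
open scoped ContDiff BigOperators

namespace UMB

open Pool.Agent.Lib.PenroseSph (E3 Tens pd chr ric scal trg normSqg divg energy momentum momNorm gradNorm normal meanCurv
  trLevel)

/-- **P4.** PROOF. `gsq * trg + kGG ≥ 0` by P1 and P2; `y energy - J(∇u) ≥ y (energy - momNorm) ≥ - y η` by P3. -/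
theorem Imain_ge {g k : Tens} {a : ℝ} (hG : GK g k a) {x : E3} (hx : a < ‖x‖) (h2 : TwoNonneg g k x) {η : ℝ}
    (hd : momNorm g k x ≤ energy g k x + η) (u : E3 → ℝ) :
    (MhSq g k u x - MhTr g k u x ^ 2) / (2 * yreg g u 0 x) - yreg g u 0 x * η ≤ Imain g k u x := by
  have hx' : x ∈ {x : E3 | a < ‖x‖} := hx
  have hP := two_plus (hG.met.posDef hx') (hG.symm x hx') h2 (fun i => gradU g u i x)
  obtain ⟨h1, h3, -, -⟩ := grad_forms (k := k) hG.met hx' u
  rw [← h1, ← h3] at hP
  have hJ := (le_abs_self _).trans (J_le (k := k) hG.met hx' u)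
  have hy : 0 ≤ yreg g u 0 x := Real.sqrt_nonneg _
  have hd' := mul_le_mul_of_nonneg_left hd hy
  unfold Imain
  nlinarith [hP, hJ, hd']

end UMB
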