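import Pool.Agent.Lib.UMB.M.M1
import Pool.Agent.Lib.UMB.M.P4

/-! # UMB section 1, chunk M2: the energy inequality -/

set_option autoImplicit false

open Filter Topology Set MeasureTheory
open scoped ContDiff BigOperators

namespace UMB

open Pool.Agent.Lib.PenroseSph (E3 Tens pd chr ric scal trg normSqg divg energy momentum momNorm gradNorm normal meanCurv
  trLevel)

/-- **M2. The energy inequality.** PROOF. M1, `∫ vol e^u (Imain - kap) = ∫ vol e^u Imain - ∫ vol e^u kap`
(`M1_int`, `integral_sub`), `hGB`, and `Imain ≥ (MhSq - MhTr²)/(2y) - y η` (P4) pointwise on `ann R`, all integrable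
(`η` is continuous, so bounded and measurable on the closed annulus). -/
theorem M2_energy {g k : Tens} {a : ℝ} (hG : GK g k a) {R c1 c2 : ℝ} {u : E3 → ℝ} (hu : LF R c1 c2 u) {η : E3 → ℝ}
    (hη : ContinuousOn η (cann R)) (h2 : ∀ x ∈ ann R, TwoNonneg g k x)
    (hd : ∀ x ∈ ann R, momNorm g k x ≤ energy g k x + η x)
    (hGB : ∫ x in ann R, vol g x * (Real.exp (u x) * kap g u x) ≤ 4 * Real.pi * (Real.exp c2 - Real.exp c1)) :
    Real.exp c1 * (4 * Real.pi + bdry g k u 1)
        + ∫ x in ann R, vol g x * (Real.exp (u x) * ((MhSq g k u x - MhTr g k u x ^ 2) / (2 * yreg g u 0 x)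
          - yreg g u 0 x * η x))
      ≤ Real.exp c2 * (4 * Real.pi + bdry g k u R) := by
  obtain ⟨i1, i2, i3, i4⟩ := M1_int hG hu
  have hid := M1_identity hG hu
  have hmeas := UMB.Lin.measurableSet_Ann R
  obtain ⟨C, hC⟩ := (UMB.Lin.isCompact_cAnn R).exists_bound_of_continuousOn hη
  have i5 : IntegrableOn (fun x => η x * (vol g x * (Real.exp (u x) * yreg g u 0 x))) (ann R) := by
    refine Integrable.bdd_mul (c := C) i4 ((hη.mono (UMB.Lin.Ann_subset R)).aestronglyMeasurable hmeas) ?_
    filter_upwards [ae_restrict_mem hmeas] with x hx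
    exact hC x (UMB.Lin.Ann_subset R hx)
  have e1 : ∫ x in ann R, vol g x * (Real.exp (u x) * (Imain g k u x - kap g u x)) =
      (∫ x in ann R, vol g x * (Real.exp (u x) * Imain g k u x)) - ∫ x in ann R, vol g x * (Real.exp (u x) * kap g u x) := by
    rw [← integral_sub i2 i1]
    refine integral_congr_ae (Eventually.of_forall fun x => ?_)
    show vol g x * (Real.exp (u x) * (Imain g k u x - kap g u x)) =
      vol g x * (Real.exp (u x) * Imain g k u x) - vol g x * (Real.exp (u x) * kap g u x)
    ring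
  have e2 : ∫ x in ann R, vol g x * (Real.exp (u x) * ((MhSq g k u x - MhTr g k u x ^ 2) / (2 * yreg g u 0 x)
      - yreg g u 0 x * η x)) ≤ ∫ x in ann R, vol g x * (Real.exp (u x) * Imain g k u x) := by
    refine setIntegral_mono_on ?_ i2 hmeas ?_
    · refine (Integrable.sub i3 i5).congr (Eventually.of_forall fun x => ?_)
      show vol g x * (Real.exp (u x) * ((MhSq g k u x - MhTr g k u x ^ 2) / (2 * yreg g u 0 x))) -
        η x * (vol g x * (Real.exp (u x) * yreg g u 0 x)) = _
      ring
    · intro x hx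
      refine mul_le_mul_of_nonneg_left (mul_le_mul_of_nonneg_left ?_ (Real.exp_pos _).le) (Real.sqrt_nonneg _)
      exact Imain_ge hG (hG.lt.trans hx.1) (h2 x hx) (hd x hx) u
  rw [e1] at hid
  nlinarith [hid, e2, hGB]

end UMB
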