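import Pool.Agent.Lib.UMB.M.Defs
import Pool.Agent.Lib.UMB.W.B4

/-! # UMB section 1, chunk BA: the normal component on the spheres, algebra for the second derivatives -/

set_option autoImplicit false

open Filter Topology Set MeasureTheory
open scoped ContDiff BigOperators

namespace UMB

open Pool.Agent.Lib.PenroseSph (E3 Tens pd chr ric scal trg normSqg divg energy momentum momNorm gradNorm normal meanCurv
  trLevel)

/-- The field `Hess u(∇u) - Δu ∇u` (upper index). -/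
noncomputable def Vg (g : Tens) (u : E3 → ℝ) (i : Fin 3) (x : E3) : ℝ :=
  ∑ b, hessM g u i b x * gradU g u b x - lapG g u x * gradU g u i x

/-- polynomial identity behind BA -/
theorem ba_alg (S B C : Fin 3 → Fin 3 → ℝ) (x u : Fin 3 → ℝ) (hB : ∀ i j, B i j = B j i) :
    ∑ i, (∑ b, (∑ j, S i j * (B b j - C b j)) * (∑ l, S b l * u l)
        - (∑ a, ∑ j, S a j * (B a j - C a j)) * (∑ l, S i l * u l)) * x i
      = ∑ i, (∑ j, ∑ k, ∑ l, S i j * S k l * (B j k * u l - B k l * u j)) * x i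
        - ∑ i, (∑ b, (∑ j, S i j * C b j) * (∑ l, S b l * u l)
          - (∑ a, ∑ j, S a j * C a j) * (∑ l, S i l * u l)) * x i := by
  have h10 := hB 1 0
  have h20 := hB 2 0
  have h21 := hB 2 1
  simp only [Fin.sum_univ_three, h10, h20, h21]
  ring

/-- `Vg(u)·x` for a function whose gradient at `x` is `l x`. -/
theorem ba_one {g : Tens} {U : Set E3} (h : MetOn g U) {x : E3} (hx : x ∈ U) (hx0 : 0 < ‖x‖) {u : E3 → ℝ} {l : ℝ}
    (hu : ∀ i, D1 u x i = l * x i) (hu2 : ∀ i j, D2 u x i j = D2 u x j i)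
    (hB : ∀ i j k l : Fin 3, x k * ((if i = l then D1 u x j else 0) + x i * D2 u x l j - (if j = l then D1 u x i else 0)
      - x j * D2 u x l i) - x l * ((if i = k then D1 u x j else 0) + x i * D2 u x k j - (if j = k then D1 u x i else 0)
      - x j * D2 u x k i) = 0) :
    ∑ i, Vg g u i x * x i = - l ^ 2 * (((∑ i, ∑ j, (g x)⁻¹ i j * x i * x j) * (∑ k, (g x)⁻¹ k k)
        - ∑ i, (∑ j, (g x)⁻¹ i j * x j) ^ 2)
      + ∑ i, (∑ b, (∑ j, (g x)⁻¹ i j * (∑ m, chr g m b j x * x m)) * (∑ k, (g x)⁻¹ b k * x k)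
          - (∑ a, ∑ j, (g x)⁻¹ a j * (∑ m, chr g m a j x * x m)) * (∑ k, (g x)⁻¹ i k * x k)) * x i) := by
  have hS : ∀ i j, (g x)⁻¹ i j = (g x)⁻¹ j i := h.inv_symm hx
  have hxs : ∑ i, x i ^ 2 = ‖x‖ ^ 2 := (EuclideanSpace.real_norm_sq_eq x).symm
  have hflux := W.flux_alg (x := fun i => x i) (ρ := ‖x‖) hx0 hxs (u := D1 u x) (B := D2 u x) (S := (g x)⁻¹) hu2 hS
    (fun i j => by rw [hu, hu]; ring) hB
  have hpd : ∀ i, pd i u x = l * x i := hu
  have hsum : ∑ i, x i * D1 u x i = l * ‖x‖ ^ 2 := by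
    rw [← hxs, Finset.mul_sum]
    refine Finset.sum_congr rfl fun i _ => ?_
    rw [hu]; ring
  have hC : ∀ b j, ∑ m, chr g m b j x * D1 u x m = l * ∑ m, chr g m b j x * x m := by
    intro b j
    rw [Finset.mul_sum]
    refine Finset.sum_congr rfl fun m _ => ?_
    rw [hu]; ring
  have hV : ∑ i, Vg g u i x * x i = ∑ i, (∑ b, (∑ j, (g x)⁻¹ i j * (D2 u x b j - ∑ m, chr g m b j x * D1 u x m))
        * (∑ k, (g x)⁻¹ b k * D1 u x k)
      - (∑ a, ∑ j, (g x)⁻¹ a j * (D2 u x a j - ∑ m, chr g m a j x * D1 u x m)) * (∑ k, (g x)⁻¹ i k * D1 u x k)) * x i := rfl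
  rw [hV, ba_alg (fun i j => (g x)⁻¹ i j) (fun i j => D2 u x i j) (fun b j => ∑ m, chr g m b j x * D1 u x m) (fun i => x i)
    (D1 u x) hu2, hflux, hsum]
  simp only [hC]
  have hl : ∀ b, ∑ k, (g x)⁻¹ b k * D1 u x k = l * ∑ k, (g x)⁻¹ b k * x k := by
    intro b
    rw [Finset.mul_sum]
    refine Finset.sum_congr rfl fun m _ => ?_
    rw [hu]; ring
  simp only [hl]
  have hx4 : (l * ‖x‖ ^ 2) ^ 2 / ‖x‖ ^ 4 = l ^ 2 := by field_simp
  rw [hx4]
  have h5 : ∀ i, (∑ b, (∑ j, (g x)⁻¹ i j * (l * ∑ m, chr g m b j x * x m)) * (l * ∑ k, (g x)⁻¹ b k * x k)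
      - (∑ a, ∑ j, (g x)⁻¹ a j * (l * ∑ m, chr g m a j x * x m)) * (l * ∑ k, (g x)⁻¹ i k * x k)) * x i
      = l ^ 2 * ((∑ b, (∑ j, (g x)⁻¹ i j * (∑ m, chr g m b j x * x m)) * (∑ k, (g x)⁻¹ b k * x k)
          - (∑ a, ∑ j, (g x)⁻¹ a j * (∑ m, chr g m a j x * x m)) * (∑ k, (g x)⁻¹ i k * x k)) * x i) := by
    intro i
    have e1 : ∀ b i', ∑ j, (g x)⁻¹ i' j * (l * ∑ m, chr g m b j x * x m)
        = l * ∑ j, (g x)⁻¹ i' j * ∑ m, chr g m b j x * x m := by
      intro b i'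
      rw [Finset.mul_sum]
      refine Finset.sum_congr rfl fun j _ => by ring
    simp only [e1]
    have e2 : ∑ b, (l * ∑ j, (g x)⁻¹ i j * ∑ m, chr g m b j x * x m) * (l * ∑ k, (g x)⁻¹ b k * x k)
        = l ^ 2 * ∑ b, (∑ j, (g x)⁻¹ i j * ∑ m, chr g m b j x * x m) * (∑ k, (g x)⁻¹ b k * x k) := by
      rw [Finset.mul_sum]
      refine Finset.sum_congr rfl fun b _ => by ring
    have e3 : ∑ a, l * ∑ j, (g x)⁻¹ a j * ∑ m, chr g m a j x * x m
        = l * ∑ a, ∑ j, (g x)⁻¹ a j * ∑ m, chr g m a j x * x m := by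
      rw [Finset.mul_sum]
    rw [e2, e3]
    ring
  rw [Finset.sum_congr rfl fun i _ => h5 i, ← Finset.mul_sum]
  ring

/-- **BA.** Two functions `u`, `ρ` whose gradients at `x` are multiples `l x_i`, `m x_i` of the position vector and whose
second derivatives satisfy the two relations of `W.B3` (they hold for a function which is constant on the sphere through
`x`): `m² Vg(u)·x = l² Vg(ρ)·x`. PROOF. With `S = g⁻¹`: `Vg g u i x = ∑_jkl S_ij S_kl (Hess_jk u_l - Hess_kl u_j)`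
(`hessM`, `lapG`, `gradU`; symmetry of `S`), `Hess_jk = D2 u j k - ∑_m chr m j k u_m`. The part with `D2`: `W.flux_alg`
gives `- ((∑ x_i u_i)²/ρ0⁴) Q`, `∑ x_i u_i = l ρ0²`, so `- l² Q` with `Q` depending only on `S`, `x`. The Christoffel part is
`- l² ∑ S_ij S_kl (C_jk x_l - C_kl x_j) x_i`, `C_jk = ∑_m chr m j k x_m`. -/
theorem BA_scale {g : Tens} {U : Set E3} (h : MetOn g U) {x : E3} (hx : x ∈ U) (hx0 : 0 < ‖x‖) {u ρ : E3 → ℝ} {l m : ℝ}
    (hu : ∀ i, D1 u x i = l * x i) (hρ : ∀ i, D1 ρ x i = m * x i)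
    (hu2 : ∀ i j, D2 u x i j = D2 u x j i) (hρ2 : ∀ i j, D2 ρ x i j = D2 ρ x j i)
    (hB : ∀ i j k l : Fin 3, x k * ((if i = l then D1 u x j else 0) + x i * D2 u x l j - (if j = l then D1 u x i else 0)
      - x j * D2 u x l i) - x l * ((if i = k then D1 u x j else 0) + x i * D2 u x k j - (if j = k then D1 u x i else 0)
      - x j * D2 u x k i) = 0)
    (hBρ : ∀ i j k l : Fin 3, x k * ((if i = l then D1 ρ x j else 0) + x i * D2 ρ x l j - (if j = l then D1 ρ x i else 0)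
      - x j * D2 ρ x l i) - x l * ((if i = k then D1 ρ x j else 0) + x i * D2 ρ x k j - (if j = k then D1 ρ x i else 0)
      - x j * D2 ρ x k i) = 0) :
    m ^ 2 * ∑ i, Vg g u i x * x i = l ^ 2 * ∑ i, Vg g ρ i x * x i := by
  rw [ba_one h hx hx0 hu hu2 hB, ba_one h hx hx0 hρ hρ2 hBρ]
  ring

end UMB
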