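import Pool.Agent.Lib.UMB.M.Defs

/-! # UMB section 1, chunk BN: the radius function -/

set_option autoImplicit false

open Filter Topology Set MeasureTheory
open scoped ContDiff BigOperators

namespace UMB

open Pool.Agent.Lib.PenroseSph (E3 Tens pd chr ric scal trg normSqg divg energy momentum momNorm gradNorm normal meanCurv
  trLevel)

theorem bn_hasF {y : E3} (hy : y ≠ 0) :
    HasFDerivAt (fun y : E3 => ‖y‖) (‖y‖⁻¹ • innerSL ℝ y) y := by
  have h1 : HasFDerivAt (fun x : E3 => ‖x‖ ^ 2) (2 • innerSL ℝ y) y :=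
    (hasStrictFDerivAt_norm_sq y).hasFDerivAt
  have hn : ‖y‖ ≠ 0 := norm_ne_zero_iff.mpr hy
  have h2 := h1.sqrt (pow_ne_zero 2 hn)
  have h3 : (fun x : E3 => Real.sqrt (‖x‖ ^ 2)) = fun x : E3 => ‖x‖ := by
    funext x
    exact Real.sqrt_sq (norm_nonneg x)
  rw [h3, Real.sqrt_sq (norm_nonneg y)] at h2
  have h4 : (1 / (2 * ‖y‖)) • (2 • innerSL ℝ y) = ‖y‖⁻¹ • innerSL ℝ y := by
    rw [← Nat.cast_smul_eq_nsmul ℝ, smul_smul]
    congr 1
    push_cast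
    field_simp
  rw [h4] at h2
  exact h2

theorem bn_pd {y : E3} (hy : y ≠ 0) (j : Fin 3) : pd j (fun y : E3 => ‖y‖) y = ‖y‖⁻¹ * y j := by
  unfold pd
  rw [(bn_hasF hy).fderiv]
  change ‖y‖⁻¹ * inner ℝ y (EuclideanSpace.single j 1) = _
  rw [EuclideanSpace.inner_single_right]
  simp

theorem bn_D2 {x : E3} (hx : x ≠ 0) (i j : Fin 3) :
    D2 (fun y : E3 => ‖y‖) x i j = (if i = j then ‖x‖⁻¹ else 0) - ‖x‖⁻¹ ^ 3 * x i * x j := by
  have hn : ‖x‖ ≠ 0 := norm_ne_zero_iff.mpr hx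
  have hev : pd j (fun y : E3 => ‖y‖) =ᶠ[𝓝 x] fun y => ‖y‖⁻¹ * y j := by
    filter_upwards [isOpen_compl_singleton.mem_nhds (show x ∈ ({0} : Set E3)ᶜ from hx)] with y hy
    exact bn_pd hy j
  change pd i (pd j (fun y : E3 => ‖y‖)) x = _
  have h1 : pd i (pd j (fun y : E3 => ‖y‖)) x = pd i (fun y => ‖y‖⁻¹ * y j) x := by
    unfold pd
    unfold pd at hev
    rw [hev.fderiv_eq]
  rw [h1]
  have h2 : HasFDerivAt (fun y : E3 => ‖y‖⁻¹) ((-(‖x‖ ^ 2)⁻¹) • (‖x‖⁻¹ • innerSL ℝ x)) x :=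
    (hasDerivAt_inv hn).comp_hasFDerivAt x (bn_hasF hx)
  have h3 : HasFDerivAt (fun y : E3 => y j) (EuclideanSpace.proj j : E3 →L[ℝ] ℝ) x :=
    (EuclideanSpace.proj j : E3 →L[ℝ] ℝ).hasFDerivAt
  have h4 : HasFDerivAt (fun y : E3 => ‖y‖⁻¹ * y j) (‖x‖⁻¹ • (EuclideanSpace.proj j : E3 →L[ℝ] ℝ)
      + x j • ((-(‖x‖ ^ 2)⁻¹) • (‖x‖⁻¹ • innerSL ℝ x))) x := h2.mul h3
  have h5 : pd i (fun y : E3 => ‖y‖⁻¹ * y j) x
      = ‖x‖⁻¹ * (EuclideanSpace.single i (1 : ℝ) : E3) j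
        + x j * (-(‖x‖ ^ 2)⁻¹ * (‖x‖⁻¹ * inner ℝ x (EuclideanSpace.single i 1))) := by
    unfold pd
    rw [HasFDerivAt.fderiv h4]
    rfl
  rw [h5, EuclideanSpace.inner_single_right]
  simp only [conj_trivial, one_mul]
  by_cases hij : i = j
  · subst hij
    simp only [PiLp.single_apply, if_true]
    ring
  · rw [if_neg hij, PiLp.single_apply, if_neg (Ne.symm hij)]
    ring

/-- **BB1.** Derivatives of `ρ = ‖·‖`: `pd i ρ = x_i/‖x‖`, `D2 ρ i j = (δ_ij - x_i x_j/‖x‖²)/‖x‖`, and the relation of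
`W.B3`. PROOF. `PenroseSph.pd_radial`, near `x ≠ 0`; the relation is algebra (`Fin` cases or `ring` with the `if`s). -/
theorem BB_norm {x : E3} (hx : x ≠ 0) : (∀ i, D1 (fun y : E3 => ‖y‖) x i = 1 / ‖x‖ * x i) ∧
    (∀ i j, D2 (fun y : E3 => ‖y‖) x i j = D2 (fun y : E3 => ‖y‖) x j i) ∧
    ∀ i j k l : Fin 3, x k * ((if i = l then D1 (fun y : E3 => ‖y‖) x j else 0) + x i * D2 (fun y : E3 => ‖y‖) x l j
      - (if j = l then D1 (fun y : E3 => ‖y‖) x i else 0) - x j * D2 (fun y : E3 => ‖y‖) x l i)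
      - x l * ((if i = k then D1 (fun y : E3 => ‖y‖) x j else 0) + x i * D2 (fun y : E3 => ‖y‖) x k j
      - (if j = k then D1 (fun y : E3 => ‖y‖) x i else 0) - x j * D2 (fun y : E3 => ‖y‖) x k i) = 0 := by
  have hD1 : ∀ i, D1 (fun y : E3 => ‖y‖) x i = ‖x‖⁻¹ * x i := fun i => bn_pd hx i
  have key : ∀ i j l : Fin 3, (if i = l then D1 (fun y : E3 => ‖y‖) x j else 0) + x i * D2 (fun y : E3 => ‖y‖) x l j
      - (if j = l then D1 (fun y : E3 => ‖y‖) x i else 0) - x j * D2 (fun y : E3 => ‖y‖) x l i = 0 := by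
    intro i j l
    rw [bn_D2 hx, bn_D2 hx, hD1, hD1]
    by_cases h1 : i = l
    · by_cases h2 : j = l
      · rw [if_pos h1, if_pos h2, if_pos h2.symm, if_pos h1.symm]
        ring
      · rw [if_pos h1, if_neg h2, if_neg (Ne.symm h2), if_pos h1.symm]
        ring
    · by_cases h2 : j = l
      · rw [if_neg h1, if_pos h2, if_pos h2.symm, if_neg (Ne.symm h1)]
        ring
      · rw [if_neg h1, if_neg h2, if_neg (Ne.symm h2), if_neg (Ne.symm h1)]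
        ring
  refine ⟨?_, ?_, ?_⟩
  · intro i
    rw [hD1, one_div]
  · intro i j
    rw [bn_D2 hx, bn_D2 hx]
    by_cases h1 : i = j
    · subst h1
      rfl
    · rw [if_neg h1, if_neg (Ne.symm h1)]
      ring
  · intro i j k l
    rw [key i j l, key i j k]
    ring

end UMB
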