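import Pool.Agent.Lib.UMB.M.BA
import Pool.Agent.Lib.UMB.M.BN

/-! # UMB section 1, chunk BB: the radius function -/

set_option autoImplicit false

open Filter Topology Set MeasureTheory
open scoped ContDiff BigOperators

namespace UMB

open Pool.Agent.Lib.PenroseSph (E3 Tens pd chr ric scal trg normSqg divg energy momentum momNorm gradNorm normal meanCurv
  trLevel)

theorem bb_pos {g : Tens} {U : Set E3} (h : MetOn g U) {x : E3} (hx : x ∈ U) {p : Fin 3 → ℝ} (hp : p ≠ 0) :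
    0 < ∑ i, ∑ j, (g x)⁻¹ i j * p i * p j := by
  have h1 := (h.posDef hx).inv
  have h2 := h1.dotProduct_mulVec_pos hp
  have e : star p ⬝ᵥ ((g x)⁻¹).mulVec p = ∑ i, ∑ j, (g x)⁻¹ i j * p i * p j := by
    simp only [dotProduct, Matrix.mulVec, Pi.star_apply, star_trivial, Finset.mul_sum]
    exact Finset.sum_congr rfl fun i _ => Finset.sum_congr rfl fun j _ => by ring
  rw [e] at h2
  exact h2

theorem bb_alg (G H : Fin 3 → Fin 3 → ℝ) (p : Fin 3 → ℝ) (N r : ℝ) (hN : 0 < N) (hG : ∀ i j, G i j = G j i)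
    (hN2 : N ^ 2 = ∑ i, ∑ j, G i j * p i * p j) :
    ∑ i, (∑ b, (∑ c, G i c * H b c) * (∑ j, G b j * p j) - (∑ a, ∑ c, G a c * H a c) * (∑ j, G i j * p j)) * (r * p i) =
      - r * N ^ 3 * ((∑ i, ∑ j, (G i j - (∑ k, G i k * p k) / N * ((∑ k, G j k * p k) / N)) * H i j) / N) := by
  set u : Fin 3 → ℝ := fun i => ∑ k, G i k * p k with hu
  set A : ℝ := ∑ i, ∑ j, G i j * H i j with hA
  set Bq : ℝ := ∑ i, ∑ j, u i * u j * H i j with hB
  have e1 : ∑ i, ∑ j, (G i j - (∑ k, G i k * p k) / N * ((∑ k, G j k * p k) / N)) * H i j = A - Bq / N ^ 2 := by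
    have : ∀ i j, (G i j - (∑ k, G i k * p k) / N * ((∑ k, G j k * p k) / N)) * H i j =
        G i j * H i j - u i * u j * H i j / N ^ 2 := by
      intro i j
      show (G i j - u i / N * (u j / N)) * H i j = _
      field_simp
    simp only [this, Finset.sum_sub_distrib]
    rw [hA, hB]
    simp only [Finset.sum_div]
  have e2 : ∑ i, (∑ b, (∑ c, G i c * H b c) * (∑ j, G b j * p j) - (∑ a, ∑ c, G a c * H a c) * (∑ j, G i j * p j))
      * (r * p i) = r * (Bq - A * N ^ 2) := by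
    rw [hN2, hA, hB]
    simp only [hu, Fin.sum_univ_three, hG 1 0, hG 2 0, hG 2 1]
    ring
  rw [e1, e2]
  field_simp
  ring

/-- **BB2.** -/
theorem BB_mean {g : Tens} {U : Set E3} (h : MetOn g U) {x : E3} (hx : x ∈ U) (hx0 : x ≠ 0) :
    ∑ i, Vg g (fun y => ‖y‖) i x * x i =
      - ‖x‖ * gradNorm g (fun y => ‖y‖) x ^ 3 * meanCurv g (fun y => ‖y‖) x := by
  have hr : 0 < ‖x‖ := norm_pos_iff.2 hx0
  obtain ⟨h1, -, -⟩ := BB_norm hx0
  have hxi : ∀ i, x i = ‖x‖ * pd i (fun y : E3 => ‖y‖) x := by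
    intro i
    have := h1 i
    unfold D1 at this
    rw [this]
    field_simp
  have hp : (fun i => pd i (fun y : E3 => ‖y‖) x) ≠ 0 := by
    intro hc
    apply hx0
    ext i
    rw [hxi i, congrFun hc i]
    simp
  have hpos := bb_pos h hx hp
  have hN : 0 < gradNorm g (fun y => ‖y‖) x := Real.sqrt_pos.2 hpos
  have hN2 : gradNorm g (fun y => ‖y‖) x ^ 2 =
      ∑ i, ∑ j, (g x)⁻¹ i j * pd i (fun y : E3 => ‖y‖) x * pd j (fun y : E3 => ‖y‖) x :=
    Real.sq_sqrt hpos.le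
  have key := bb_alg (fun i j => (g x)⁻¹ i j) (fun i j => hess g (fun y => ‖y‖) i j x)
    (fun i => pd i (fun y : E3 => ‖y‖) x) (gradNorm g (fun y => ‖y‖) x) ‖x‖ hN
    (fun i j => h.inv_symm hx i j) hN2
  calc ∑ i, Vg g (fun y => ‖y‖) i x * x i
      = ∑ i, Vg g (fun y => ‖y‖) i x * (‖x‖ * pd i (fun y : E3 => ‖y‖) x) := by
        refine Finset.sum_congr rfl fun i _ => ?_
        rw [← hxi i]
    _ = _ := key

end UMB
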