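import Pool.Agent.Lib.UMB.M.Defs

/-! # UMB section 1, chunk EX: global C^3 extension -/

set_option autoImplicit false

open Filter Topology Set MeasureTheory
open scoped ContDiff BigOperators

namespace UMB

open Pool.Agent.Lib.PenroseSph (E3 Tens pd chr ric scal trg normSqg divg energy momentum momNorm gradNorm normal meanCurv
  trLevel)

theorem LF.ext {R c1 c2 : ℝ} {u : E3 → ℝ} (h : LF R c1 c2 u) : ∃ (w : E3 → ℝ) (W : Set E3), ContDiff ℝ 3 w ∧ IsOpen W ∧
    cann R ⊆ W ∧ EqOn w u W := by
  obtain ⟨V, hV, hsub, hu⟩ := h.c3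
  have hK : IsCompact (cann R) := UMB.Lin.isCompact_cAnn R
  obtain ⟨f, hf0, hf1, -⟩ := exists_contMDiffMap_zero_one_nhds_of_isClosed
    (modelWithCornersSelf ℝ E3) (n := 3) hV.isClosed_compl hK.isClosed
    (Set.disjoint_compl_left_iff_subset.2 hsub)
  have hf : ContDiff ℝ 3 f := f.contMDiff.contDiff
  rw [eventually_nhdsSet_iff_forall] at hf0 hf1
  refine ⟨fun x => f x * u x, interior {x | f x = 1}, ?_, isOpen_interior, ?_, ?_⟩
  · rw [contDiff_iff_contDiffAt]
    intro x
    by_cases hx : x ∈ V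
    · exact hf.contDiffAt.mul (hu.contDiffAt (hV.mem_nhds hx))
    · have hev : (fun x => f x * u x) =ᶠ[𝓝 x] fun _ => 0 := by
        filter_upwards [hf0 x hx] with y hy
        rw [hy, zero_mul]
      exact contDiffAt_const.congr_of_eventuallyEq hev
  · intro x hx
    rw [mem_interior_iff_mem_nhds]
    exact hf1 x hx
  · intro x hx
    have h2 : x ∈ {x | f x = 1} := interior_subset hx
    have : f x = 1 := h2
    show f x * u x = u x
    rw [this, one_mul]

end UMB
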