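import Pool.Agent.Lib.UMB.M.Defs
import Pool.Agent.Lib.UMB.M.EX
import Pool.Agent.Lib.UMB.W.B3

/-! # UMB section 1, chunk BG: gradient on the spheres -/

set_option autoImplicit false

open Filter Topology Set MeasureTheory
open scoped ContDiff BigOperators

namespace UMB

open Pool.Agent.Lib.PenroseSph (E3 Tens pd chr ric scal trg normSqg divg energy momentum momNorm gradNorm normal meanCurv
  trLevel)

theorem bg_fderiv {w : E3 → ℝ} (x v : E3) : fderiv ℝ w x v = ∑ i, v i * pd i w x := by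
  have hv : v = ∑ i, v i • (EuclideanSpace.single i (1 : ℝ) : E3) := by
    ext j
    simp [Fin.sum_univ_three]
    fin_cases j <;> simp
  conv_lhs => rw [hv]
  rw [map_sum]
  refine Finset.sum_congr rfl fun i _ => ?_
  rw [map_smul, smul_eq_mul]
  rfl

theorem BC_grad {R c1 c2 : ℝ} {u : E3 → ℝ} (hu : LF R c1 c2 u) {x : E3} (hx : ‖x‖ = 1 ∨ ‖x‖ = R) :
    ∃ l : ℝ, 0 < l ∧ ∀ i, D1 u x i = l * x i := by
  obtain ⟨w, W, hw, hW, hsub, heq⟩ := hu.ext
  have hR := hu.one_lt
  have hxc : x ∈ cann R := by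
    rcases hx with h | h
    · exact ⟨h.ge, by rw [h]; exact hR.le⟩
    · exact ⟨by rw [h]; exact hR.le, h.le⟩
  have hxpos : 0 < ‖x‖ := lt_of_lt_of_le one_pos hxc.1
  have hD1 : ∀ i, D1 w x i = D1 u x i := by
    intro i
    unfold D1 Pool.Agent.Lib.PenroseSph.pd
    have : w =ᶠ[𝓝 x] u := by
      filter_upwards [hW.mem_nhds (hsub hxc)] with y hy
      exact heq hy
    rw [this.fderiv_eq]
  have hw1 : ContDiff ℝ 1 w := hw.of_le (by norm_num)
  have hrel : ∀ i j, x i * D1 w x j = x j * D1 w x i := by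
    intro i j
    rcases hx with h | h
    · refine _root_.UMB.W.bdry1 hw1 (ρ := 1) (c := c1) (fun y hy => ?_) h i j
      have hyc : y ∈ cann R := ⟨hy.ge, by rw [hy]; exact hR.le⟩
      rw [heq (hsub hyc), hu.inner y hy]
    · refine _root_.UMB.W.bdry1 hw1 (ρ := R) (c := c2) (fun y hy => ?_) h i j
      have hyc : y ∈ cann R := ⟨by rw [hy]; exact hR.le, hy.le⟩
      rw [heq (hsub hyc), hu.outer y hy]
  have hns : ‖x‖ ^ 2 = ∑ i, x i ^ 2 := EuclideanSpace.real_norm_sq_eq x
  set l : ℝ := (∑ i, x i * D1 w x i) / ‖x‖ ^ 2 with hl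
  have hli : ∀ i, D1 u x i = l * x i := by
    intro i
    rw [← hD1 i, hl, div_mul_eq_mul_div, eq_div_iff (by positivity), hns, Finset.mul_sum, Finset.sum_mul]
    refine Finset.sum_congr rfl fun j _ => ?_
    have := hrel i j
    calc D1 w x i * x j ^ 2 = x j * (x j * D1 w x i) := by ring
      _ = x j * (x i * D1 w x j) := by rw [this]
      _ = _ := by ring
  have hl0 : l ≠ 0 := by
    intro hc
    apply hu.nz x hx
    ext i
    rw [hli i, hc]
    simp
  have hderiv : HasDerivAt (fun t : ℝ => w (x + t • x)) (l * ‖x‖ ^ 2) 0 := by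
    have h1 : HasFDerivAt w (fderiv ℝ w x) (x + (0 : ℝ) • x) := by
      rw [zero_smul, add_zero]
      exact ((hw1.differentiable (by norm_num)) x).hasFDerivAt
    have h2 : HasDerivAt (fun t : ℝ => x + t • x) x 0 := by
      have := ((hasDerivAt_id (0 : ℝ)).smul_const x).const_add x
      simpa using this
    have h3 := h1.comp_hasDerivAt (0 : ℝ) h2
    have h4 : fderiv ℝ w x x = l * ‖x‖ ^ 2 := by
      rw [bg_fderiv, hl, div_mul_cancel₀ _ (by positivity)]
      rfl
    rw [h4] at h3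
    exact h3
  have hnn : 0 ≤ l * ‖x‖ ^ 2 := by
    have hslope := hasDerivAt_iff_tendsto_slope_zero.1 hderiv
    simp only [zero_add, zero_smul, add_zero, smul_eq_mul] at hslope
    have hnorm : ∀ t : ℝ, -1 < t → ‖x + t • x‖ = (1 + t) * ‖x‖ := by
      intro t ht
      have : x + t • x = (1 + t) • x := by rw [add_smul, one_smul]
      rw [this, norm_smul, Real.norm_eq_abs, abs_of_pos (by linarith)]
    rcases hx with h | h
    · have h5 : Tendsto (fun t : ℝ => t⁻¹ * (w (x + t • x) - w x)) (𝓝[>] 0) (𝓝 (l * ‖x‖ ^ 2)) :=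
        hslope.mono_left (nhdsWithin_mono 0 fun t ht => ne_of_gt ht)
      refine ge_of_tendsto h5 ?_
      have h6 : ∀ᶠ t in 𝓝[>] (0 : ℝ), t ∈ Ioo (0 : ℝ) (R - 1) :=
        Ioo_mem_nhdsGT (by linarith)
      filter_upwards [h6] with t ht
      have hn : ‖x + t • x‖ = 1 + t := by rw [hnorm t (by linarith [ht.1]), h, mul_one]
      have hmem : x + t • x ∈ ann R := ⟨by rw [hn]; linarith [ht.1], by rw [hn]; linarith [ht.2]⟩
      have h7 : c1 < u (x + t • x) := hu.lo _ hmem
      have h8 : w (x + t • x) = u (x + t • x) := heq (hsub ⟨hmem.1.le, hmem.2.le⟩)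
      have h9 : w x = c1 := by rw [heq (hsub hxc), hu.inner x h]
      rw [h8, h9]
      exact mul_nonneg (inv_nonneg.2 ht.1.le) (by linarith)
    · have h5 : Tendsto (fun t : ℝ => t⁻¹ * (w (x + t • x) - w x)) (𝓝[<] 0) (𝓝 (l * ‖x‖ ^ 2)) :=
        hslope.mono_left (nhdsWithin_mono 0 fun t ht => ne_of_lt ht)
      refine ge_of_tendsto h5 ?_
      have h6 : ∀ᶠ t in 𝓝[<] (0 : ℝ), t ∈ Ioo (-(1 - 1 / R)) (0 : ℝ) := by
        apply Ioo_mem_nhdsLT
        have : 1 / R < 1 := by
          rw [div_lt_one (by linarith)]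
          exact hR
        linarith
      filter_upwards [h6] with t ht
      have hR0 : 0 < R := by linarith
      have hRinv : 0 < 1 / R := by positivity
      have hn : ‖x + t • x‖ = (1 + t) * R := by rw [hnorm t (by linarith [ht.1]), h]
      have hmem : x + t • x ∈ ann R := by
        refine ⟨?_, ?_⟩
        · rw [hn]
          have h10 : 1 / R < 1 + t := by linarith [ht.1]
          calc 1 = 1 / R * R := by field_simp
            _ < (1 + t) * R := mul_lt_mul_of_pos_right h10 hR0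
        · rw [hn]
          have : (1 + t) * R < 1 * R := mul_lt_mul_of_pos_right (by linarith [ht.2]) hR0
          linarith
      have h7 : u (x + t • x) < c2 := hu.hi _ hmem
      have h8 : w (x + t • x) = u (x + t • x) := heq (hsub ⟨hmem.1.le, hmem.2.le⟩)
      have h9 : w x = c2 := by rw [heq (hsub hxc), hu.outer x h]
      rw [h8, h9]
      exact mul_nonneg_of_nonpos_of_nonpos (inv_nonpos.2 ht.2.le) (by linarith)
  refine ⟨l, ?_, hli⟩
  have h10 : 0 ≤ l := nonneg_of_mul_nonneg_left hnn (by positivity)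
  exact lt_of_le_of_ne h10 (Ne.symm hl0)

end UMB
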