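import Pool.Agent.Lib.UMB.M.BB
import Pool.Agent.Lib.UMB.M.EX
import Pool.Agent.Lib.UMB.M.P2
import Pool.Agent.Lib.UMB.W.B3
import Pool.Agent.Lib.UMB.M.BG
import Pool.Agent.Lib.UMB.Lin.M1

/-! # UMB section 1, chunk BC: the boundary density -/

set_option autoImplicit false

open Filter Topology Set MeasureTheory
open scoped ContDiff BigOperators

namespace UMB

open Pool.Agent.Lib.PenroseSph (E3 Tens pd chr ric scal trg normSqg divg energy momentum momNorm gradNorm normal meanCurv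
  trLevel)

theorem bc_eq1 {f h : E3 → ℝ} {W : Set E3} (hW : IsOpen W) (hE : EqOn f h W) (i : Fin 3) : EqOn (pd i f) (pd i h) W := by
  intro x hx
  have h1 : f =ᶠ[𝓝 x] h := by
    filter_upwards [hW.mem_nhds hx] with y hy
    exact hE hy
  unfold pd
  rw [h1.fderiv_eq]

theorem bc_gsq_pos {g : Tens} {U : Set E3} (h : MetOn g U) {u : E3 → ℝ} {x : E3} (hx : x ∈ U) (hd : D1 u x ≠ 0) :
    0 < gsq g u x := by
  have hp := (h.posDef hx).inv
  have h2 := hp.dotProduct_mulVec_pos hd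
  have e : star (D1 u x) ⬝ᵥ (g x)⁻¹.mulVec (D1 u x) = gsq g u x := by
    unfold gsq gradU D1
    simp only [dotProduct, Matrix.mulVec, star_trivial, Finset.mul_sum]
  rw [e] at h2
  exact h2

/-- **BC2.** The normal component of the unregularised field is the boundary density. PROOF. `l` from BC1, `N = |dρ|_g`,
`y = gradNorm g u x = l ‖x‖ N` (`gradU g u = l ‖x‖ gradU g ρ`). BA with `m = 1/‖x‖` (second derivatives of `u` by
`W.bdry2` for the extension of EX, symmetric by Schwarz), BB: `Vg(u)·x = l² ‖x‖² Vg(ρ)·x = - l² ‖x‖³ N³ H`, so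
`(Vg(u)/y)·(x/‖x‖) = - l ‖x‖ N² H = - y N H`. `y ∇u·x/‖x‖ = y l ‖x‖ N² = y² N`;
`(tr k ∇u - k(∇u))·x/‖x‖ = l ‖x‖ (tr k N² - k(∇ρ,∇ρ)) = y N (tr k - k(ν,ν)) = y N sphTr g k x` (`trLevel`, `normal`). -/
theorem BC_bd {g k : Tens} {a : ℝ} (hG : GK g k a) {R c1 c2 : ℝ} {u : E3 → ℝ} (hu : LF R c1 c2 u) {x : E3}
    (hx : ‖x‖ = 1 ∨ ‖x‖ = R) : ∑ i, vol g x * (Real.exp (u x) * Yvec g k u 0 i x) * (x i / ‖x‖) =
      Real.exp (u x) * bd g k u x := by
  set U : Set E3 := {x : E3 | a < ‖x‖} with hU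
  have hR := hu.one_lt
  have hx1 : 1 ≤ ‖x‖ := by
    rcases hx with h | h
    · exact h.ge
    · rw [h]; exact hR.le
  have hxR : ‖x‖ ≤ R := by
    rcases hx with h | h
    · rw [h]; exact hR.le
    · exact h.le
  have hxU : x ∈ U := lt_of_lt_of_le hG.lt hx1
  have hx0 : 0 < ‖x‖ := by linarith
  have hxn : x ≠ 0 := norm_pos_iff.1 hx0
  obtain ⟨w, Wn, hw, hWo, hWc, hwu⟩ := hu.ext
  have hxW : x ∈ Wn := hWc ⟨hx1, hxR⟩
  have e1 : ∀ i, pd i w x = pd i u x := fun i => bc_eq1 hWo hwu i hxW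
  have e2 : ∀ i j, pd i (pd j w) x = pd i (pd j u) x := fun i j => bc_eq1 hWo (bc_eq1 hWo hwu j) i hxW
  have hD1 : ∀ i, D1 w x i = D1 u x i := e1
  have hD2 : ∀ i j, D2 w x i j = D2 u x i j := e2
  have hw2 : ContDiff ℝ 2 w := hw.of_le (by norm_cast)
  have hu2 : ∀ i j, D2 u x i j = D2 u x j i := by
    intro i j
    rw [← hD2, ← hD2]
    exact UMB.Lin.pd_comm hw2.contDiffAt i j
  have hconst : ∃ c, ∀ y : E3, ‖y‖ = ‖x‖ → w y = c := by
    rcases hx with h | h
    · refine ⟨c1, fun y hy => ?_⟩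
      rw [hwu (hWc ⟨by rw [hy]; exact hx1, by rw [hy]; exact hxR⟩)]
      exact hu.inner y (hy.trans h)
    · refine ⟨c2, fun y hy => ?_⟩
      rw [hwu (hWc ⟨by rw [hy]; exact hx1, by rw [hy]; exact hxR⟩)]
      exact hu.outer y (hy.trans h)
  obtain ⟨c, hc⟩ := hconst
  have hB : ∀ i j k l : Fin 3, x k * ((if i = l then D1 u x j else 0) + x i * D2 u x l j - (if j = l then D1 u x i else 0)
      - x j * D2 u x l i) - x l * ((if i = k then D1 u x j else 0) + x i * D2 u x k j - (if j = k then D1 u x i else 0)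
      - x j * D2 u x k i) = 0 := by
    intro i j k l
    have := W.bdry2 hw2 hc rfl i j k l (x := x)
    simp only [hD1, hD2] at this
    exact this
  obtain ⟨l, hl, hlu⟩ := BC_grad hu hx
  obtain ⟨n1, n2, n3⟩ := BB_norm hxn
  have hBA := BA_scale hG.met hxU hx0 hlu n1 hu2 n2 hB n3
  have hBB := BB_mean hG.met hxU hxn
  obtain ⟨f1, f2, f3, f4⟩ := grad_forms hG.met hxU u (k := k)
  obtain ⟨r1, r2, r3, r4⟩ := grad_forms hG.met hxU (fun y : E3 => ‖y‖) (k := k)
  have hpdu : ∀ i, pd i u x = (l * ‖x‖) * pd i (fun y : E3 => ‖y‖) x := by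
    intro i
    have h1 : pd i (fun y : E3 => ‖y‖) x = 1 / ‖x‖ * x i := n1 i
    have h2 : pd i u x = l * x i := hlu i
    rw [h1, h2]
    field_simp
  set t : ℝ := l * ‖x‖ with ht
  have ht0 : 0 < t := by positivity
  have hgu : ∀ i, gradU g u i x = t * gradU g (fun y : E3 => ‖y‖) i x := by
    intro i
    unfold gradU
    rw [Finset.mul_sum]
    refine Finset.sum_congr rfl fun j _ => ?_
    rw [hpdu]; ring
  set N : ℝ := gradNorm g (fun y : E3 => ‖y‖) x with hN
  have hgsq : gsq g u x = t ^ 2 * N ^ 2 := by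
    rw [r4]
    unfold gsq
    rw [Finset.mul_sum]
    refine Finset.sum_congr rfl fun j _ => ?_
    rw [hpdu, hgu]; ring
  have hNpos : 0 < N := by
    have h1 : 0 < gsq g (fun y : E3 => ‖y‖) x := by
      refine bc_gsq_pos hG.met hxU ?_
      intro h0
      apply hxn
      ext i
      have h2 := n1 i
      rw [h0] at h2
      simp only [Pi.zero_apply] at h2
      have h3 : x i = 0 := by
        by_contra hne
        have : 1 / ‖x‖ * x i ≠ 0 := mul_ne_zero (by positivity) hne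
        exact this h2.symm
      simpa using h3
    rw [← r4] at h1
    have h3 : 0 ≤ N := Real.sqrt_nonneg _
    rcases h3.lt_or_eq with h4 | h4
    · exact h4
    · rw [← h4] at h1
      norm_num at h1
  have hY : gradNorm g u x = t * N := by
    have h1 : gradNorm g u x ^ 2 = (t * N) ^ 2 := by rw [f4, hgsq]; ring
    have h2 : 0 ≤ gradNorm g u x := Real.sqrt_nonneg _
    exact (pow_left_inj₀ h2 (by positivity) two_ne_zero).1 h1
  -- the three parts
  have hVg : ∑ i, Vg g u i x * x i = t ^ 2 * (- ‖x‖ * N ^ 3 * meanCurv g (fun y => ‖y‖) x) := by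
    rw [← hBB]
    have h1 : ∑ i, Vg g u i x * x i = ‖x‖ ^ 2 * ((1 / ‖x‖) ^ 2 * ∑ i, Vg g u i x * x i) := by
      field_simp
    rw [h1, hBA, ht]
    ring
  have hxi : ∀ i, x i = ‖x‖ * pd i (fun y : E3 => ‖y‖) x := by
    intro i
    have h1 : pd i (fun y : E3 => ‖y‖) x = 1 / ‖x‖ * x i := n1 i
    rw [h1]
    field_simp
  have hG1 : ∑ i, gradU g u i x * x i = t * ‖x‖ * N ^ 2 := by
    rw [r4]
    unfold gsq
    rw [Finset.mul_sum]
    refine Finset.sum_congr rfl fun i _ => ?_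
    rw [hgu]
    rw [hxi i]
    ring
  have hP : sphTr g k x * N ^ 2 = trg g k x * N ^ 2 - kGG g k (fun y : E3 => ‖y‖) x := by
    have h1 : sphTr g k x = trg g k x - kGG g k (fun y : E3 => ‖y‖) x / N ^ 2 := by
      rw [r2]
      unfold sphTr trLevel trg quad
      rw [Finset.sum_div, ← Finset.sum_sub_distrib]
      refine Finset.sum_congr rfl fun i _ => ?_
      rw [Finset.sum_div, ← Finset.sum_sub_distrib]
      refine Finset.sum_congr rfl fun j _ => ?_
      have h2 : ∀ i, normal g (fun y : E3 => ‖y‖) i x = gradU g (fun y : E3 => ‖y‖) i x / N := fun i => rfl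
      rw [h2, h2]
      field_simp
    rw [h1]
    field_simp
  have hK1 : ∑ i, (∑ b, upk g k i b x * gradU g u b x) * x i = t * ‖x‖ * kGG g k (fun y : E3 => ‖y‖) x := by
    unfold kGG
    rw [Finset.mul_sum]
    refine Finset.sum_congr rfl fun i _ => ?_
    rw [Finset.sum_mul, Finset.mul_sum]
    refine Finset.sum_congr rfl fun b _ => ?_
    rw [hgu]
    rw [hxi i]
    ring
  have hsum : ∑ i, Yvec g k u 0 i x * (x i / ‖x‖) = N * (gradNorm g u x ^ 2
      - gradNorm g u x * (meanCurv g (fun y => ‖y‖) x - sphTr g k x)) := by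
    have h1 : ∀ i, Yvec g k u 0 i x * (x i / ‖x‖) = (1 / ‖x‖) * ((Vg g u i x * x i) / yreg g u 0 x
        + yreg g u 0 x * (gradU g u i x * x i) + trg g k x * (gradU g u i x * x i)
        - (∑ b, upk g k i b x * gradU g u b x) * x i) := by
      intro i
      unfold Yvec Vg
      ring
    rw [Finset.sum_congr rfl fun i _ => h1 i, ← Finset.mul_sum, Finset.sum_sub_distrib, Finset.sum_add_distrib,
      Finset.sum_add_distrib, ← Finset.sum_div, ← Finset.mul_sum, ← Finset.mul_sum, hVg, hG1, hK1, f3, hY]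
    have h2 : t * ‖x‖ * kGG g k (fun y : E3 => ‖y‖) x = t * ‖x‖ * (trg g k x * N ^ 2 - sphTr g k x * N ^ 2) := by
      rw [hP]; ring
    rw [h2]
    field_simp
    ring
  have hfin : ∑ i, vol g x * (Real.exp (u x) * Yvec g k u 0 i x) * (x i / ‖x‖)
      = vol g x * Real.exp (u x) * ∑ i, Yvec g k u 0 i x * (x i / ‖x‖) := by
    rw [Finset.mul_sum]
    refine Finset.sum_congr rfl fun i _ => by ring
  rw [hfin, hsum]
  unfold bd
  ring

end UMB
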