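import Pool.Agent.Lib.UMB.M.Defs

/-! # UMB section 1, chunk CO: cutoff for the metric -/

set_option autoImplicit false

open Filter Topology Set MeasureTheory
open scoped ContDiff BigOperators

namespace UMB

open Pool.Agent.Lib.PenroseSph (E3 Tens pd chr ric scal trg normSqg divg energy momentum momNorm gradNorm normal meanCurv
  trLevel)

theorem co_gen {n : ℕ∞} {K W : Set E3} (hK : IsClosed K) (hW : IsOpen W) (hc : K ⊆ W) {f : E3 → ℝ}
    (hf : ContDiffOn ℝ n f W) :
    ∃ (F : E3 → ℝ) (W' : Set E3), ContDiff ℝ n F ∧ IsOpen W' ∧ K ⊆ W' ∧ EqOn F f W' := by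
  obtain ⟨u, hu, hKu, huW⟩ := normal_exists_closure_subset hK hW hc
  have hint : K ⊆ interior (closure u) := hKu.trans (interior_maximal subset_closure hu)
  obtain ⟨χ, h1, h0, -⟩ := exists_contMDiffMap_one_nhds_of_subset_interior (n := n)
    (modelWithCornersSelf ℝ E3) hK hint
  have hχ : ContDiff ℝ n (fun x => χ x) := χ.contMDiff.contDiff
  obtain ⟨V, hV, hKV, hV1⟩ := eventually_nhdsSet_iff_exists.1 h1
  refine ⟨fun x => χ x * f x, V, ?_, hV, hKV, ?_⟩
  · rw [contDiff_iff_contDiffAt]
    intro x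
    by_cases hx : x ∈ W
    · exact (hχ.contDiffAt).mul (hf.contDiffAt (hW.mem_nhds hx))
    · have hx' : x ∈ (closure u)ᶜ := fun h => hx (huW h)
      have hev : (fun y => χ y * f y) =ᶠ[𝓝 x] fun _ => 0 := by
        filter_upwards [isClosed_closure.isOpen_compl.mem_nhds hx'] with y hy
        rw [h0 y hy, zero_mul]
      exact contDiffAt_const.congr_of_eventuallyEq hev
  · intro x hx
    simp only
    rw [hV1 x hx, one_mul]

/-- **CO.** A function which is `C¹` on an open neighbourhood `W` of the closed annulus agrees near the closed annulus with a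
global `C¹` function. PROOF. As EX: multiply with a smooth cutoff `χ`, `χ = 1` near `cann R`, `tsupport χ ⊆ W`. -/
theorem c1_ext {R : ℝ} (hR : 1 < R) {W : Set E3} (hW : IsOpen W) (hc : cann R ⊆ W) {f : E3 → ℝ} (hf : ContDiffOn ℝ 1 f W) :
    ∃ (F : E3 → ℝ) (W' : Set E3), ContDiff ℝ 1 F ∧ IsOpen W' ∧ cann R ⊆ W' ∧ EqOn F f W' := by
  have hK : IsClosed (cann R) :=
    (isClosed_le continuous_const continuous_norm).inter (isClosed_le continuous_norm continuous_const)
  exact co_gen (n := 1) hK hW hc hf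

end UMB
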