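import Pool.Agent.Lib.UMB.M.Defs

/-! # UMB section 1, chunk K1e: ellipticity -/

set_option autoImplicit false

open Filter Topology Set MeasureTheory
open scoped ContDiff BigOperators

namespace UMB

open Pool.Agent.Lib.PenroseSph (E3 Tens pd chr ric scal trg normSqg divg energy momentum momNorm gradNorm normal meanCurv
  trLevel)

theorem k1e_sphere : IsCompact {u : Fin 3 → ℝ | ∑ i, u i ^ 2 = 1} := by
  have hcl : IsClosed {u : Fin 3 → ℝ | ∑ i, u i ^ 2 = 1} :=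
    isClosed_eq (by fun_prop) continuous_const
  refine (isCompact_closedBall (0 : Fin 3 → ℝ) 1).of_isClosed_subset hcl ?_
  intro u hu
  rw [mem_closedBall_zero_iff, pi_norm_le_iff_of_nonneg zero_le_one]
  intro i
  rw [Real.norm_eq_abs]
  have h1 : u i ^ 2 ≤ ∑ j, u j ^ 2 :=
    Finset.single_le_sum (f := fun j => u j ^ 2) (fun j _ => sq_nonneg (u j)) (Finset.mem_univ i)
  have h2 : ∑ j, u j ^ 2 = 1 := hu
  rw [h2] at h1
  exact abs_le_one_iff_mul_self_le_one.2 (by nlinarith)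

theorem k1e_low {K : Set E3} (hK : IsCompact K) {A : E3 → Matrix (Fin 3) (Fin 3) ℝ}
    (hA : ∀ i j, ContinuousOn (fun x => A x i j) K)
    (hpos : ∀ x ∈ K, ∀ u : Fin 3 → ℝ, u ≠ 0 → 0 < ∑ i, ∑ j, A x i j * u i * u j) :
    ∃ c : ℝ, 0 < c ∧ ∀ x ∈ K, ∀ ζ : Fin 3 → ℝ, c * ∑ i, ζ i ^ 2 ≤ ∑ i, ∑ j, A x i j * ζ i * ζ j := by
  rcases K.eq_empty_or_nonempty with rfl | ⟨x0, hx0⟩
  · exact ⟨1, one_pos, fun x hx => absurd hx (Set.notMem_empty x)⟩
  have hKS : IsCompact (K ×ˢ {u : Fin 3 → ℝ | ∑ i, u i ^ 2 = 1}) := hK.prod k1e_sphere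
  have hcont : ContinuousOn (fun p : E3 × (Fin 3 → ℝ) => ∑ i, ∑ j, A p.1 i j * p.2 i * p.2 j)
      (K ×ˢ {u : Fin 3 → ℝ | ∑ i, u i ^ 2 = 1}) := by
    refine continuousOn_finsetSum _ fun i _ => continuousOn_finsetSum _ fun j _ => ?_
    have h1 : ContinuousOn (fun p : E3 × (Fin 3 → ℝ) => A p.1 i j)
        (K ×ˢ {u : Fin 3 → ℝ | ∑ i, u i ^ 2 = 1}) :=
      (hA i j).comp continuousOn_fst fun p hp => hp.1
    exact (h1.mul ((continuous_apply i).comp continuous_snd).continuousOn).mul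
      ((continuous_apply j).comp continuous_snd).continuousOn
  have hne : (K ×ˢ {u : Fin 3 → ℝ | ∑ i, u i ^ 2 = 1}).Nonempty := by
    refine ⟨(x0, fun i => if i = 0 then 1 else 0), ⟨hx0, ?_⟩⟩
    change ∑ i : Fin 3, (if i = 0 then (1 : ℝ) else 0) ^ 2 = 1
    simp
  obtain ⟨p0, hp0, hmin⟩ := hKS.exists_isMinOn hne hcont
  have hp : 0 < ∑ i, ∑ j, A p0.1 i j * p0.2 i * p0.2 j := by
    have h2 : p0.2 ≠ 0 := by
      intro h
      have h3 : ∑ i, p0.2 i ^ 2 = 1 := hp0.2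
      rw [h] at h3
      simp at h3
    exact hpos p0.1 hp0.1 p0.2 h2
  refine ⟨_, hp, ?_⟩
  intro x hx ζ
  by_cases hζ : ∑ i, ζ i ^ 2 = 0
  · have h1 : ∀ i, ζ i = 0 := by
      intro i
      have := (Finset.sum_eq_zero_iff_of_nonneg (fun i _ => sq_nonneg (ζ i))).1 hζ i
        (Finset.mem_univ i)
      exact pow_eq_zero_iff (two_ne_zero) |>.1 this
    simp [h1]
  · have hn : 0 ≤ ∑ i, ζ i ^ 2 := Finset.sum_nonneg fun i _ => sq_nonneg (ζ i)
    have hp : 0 < ∑ i, ζ i ^ 2 := lt_of_le_of_ne hn (Ne.symm hζ)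
    set t := Real.sqrt (∑ i, ζ i ^ 2) with ht
    have ht0 : 0 < t := Real.sqrt_pos.2 hp
    have ht2 : t ^ 2 = ∑ i, ζ i ^ 2 := Real.sq_sqrt hn
    have hmem : (x, fun i => t⁻¹ * ζ i) ∈ K ×ˢ {u : Fin 3 → ℝ | ∑ i, u i ^ 2 = 1} := by
      refine ⟨hx, ?_⟩
      change ∑ i, (t⁻¹ * ζ i) ^ 2 = 1
      have : ∀ i, (t⁻¹ * ζ i) ^ 2 = (t⁻¹) ^ 2 * ζ i ^ 2 := fun i => by ring
      rw [Finset.sum_congr rfl fun i _ => this i, ← Finset.mul_sum, ← ht2]
      field_simp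
    have h1 := hmin hmem
    have h2 : ∑ i, ∑ j, A x i j * (t⁻¹ * ζ i) * (t⁻¹ * ζ j)
        = (t⁻¹) ^ 2 * ∑ i, ∑ j, A x i j * ζ i * ζ j := by
      rw [Finset.mul_sum]
      refine Finset.sum_congr rfl fun i _ => ?_
      rw [Finset.mul_sum]
      refine Finset.sum_congr rfl fun j _ => ?_
      ring
    have h3 : ∑ i, ∑ j, A p0.1 i j * p0.2 i * p0.2 j
        ≤ ∑ i, ∑ j, A x i j * (t⁻¹ * ζ i) * (t⁻¹ * ζ j) := h1
    rw [h2] at h3
    have h4 := mul_le_mul_of_nonneg_right h3 (sq_nonneg t)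
    rw [← ht2]
    refine h4.trans (le_of_eq ?_)
    field_simp

theorem k1e_inv {g : Tens} {U : Set E3} (h : MetOn g U) {x : E3} (hx : x ∈ U) (u : Fin 3 → ℝ) (hu : u ≠ 0) :
    0 < ∑ i, ∑ j, (g x)⁻¹ i j * u i * u j := by
  have h1 : ((g x)⁻¹).PosDef := (h.posDef hx).inv
  have h2 := h1.dotProduct_mulVec_pos hu
  have h3 : star u ⬝ᵥ ((g x)⁻¹.mulVec u) = ∑ i, ∑ j, (g x)⁻¹ i j * u i * u j := by
    simp only [dotProduct, Matrix.mulVec, star_trivial, Finset.mul_sum]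
    refine Finset.sum_congr rfl fun i _ => Finset.sum_congr rfl fun j _ => ?_
    ring
  rwa [h3] at h2

/-- Lower bounds: ellipticity of `g⁻¹` and of `g`, `vol`. PROOF. Continuous positive functions
`(x, v) ↦ ∑ g⁻¹ i j v_i v_j` on the compact set `cann R × sphere`, homogeneity; `vol > 0` (`MetOn.vol_pos`). -/
theorem K1_ell {g k : Tens} {a : ℝ} (hG : GK g k a) (R : ℝ) : ∃ c : ℝ, 0 < c ∧ ∀ x ∈ cann R,
    (∀ v : Fin 3 → ℝ, c * vsq v ≤ ∑ i, ∑ j, (g x)⁻¹ i j * v i * v j) ∧ (∀ v : Fin 3 → ℝ, c * vsq v ≤ quad g x v) ∧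
      c ≤ vol g x := by
  have hK : IsCompact (cann R) := UMB.Lin.isCompact_cAnn R
  have hsub : cann R ⊆ {x : E3 | a < ‖x‖} := fun x hx => lt_of_lt_of_le hG.lt hx.1
  obtain ⟨c1, hc1, h1⟩ := k1e_low hK (A := fun x => (g x)⁻¹)
    (fun i j => (hG.met.inv_smooth i j).continuousOn.mono hsub)
    (fun x hx u hu => k1e_inv hG.met (hsub hx) u hu)
  obtain ⟨c2, hc2, h2⟩ := k1e_low hK (A := g)
    (fun i j => (hG.met.smooth i j).continuousOn.mono hsub)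
    (fun x hx u hu => hG.met.pos x (hsub hx) u hu)
  have h3 : ∃ c3 : ℝ, 0 < c3 ∧ ∀ x ∈ cann R, c3 ≤ vol g x := by
    rcases (cann R).eq_empty_or_nonempty with he | hne
    · exact ⟨1, one_pos, fun x hx => absurd (he ▸ hx) (Set.notMem_empty x)⟩
    · obtain ⟨x1, hx1, hmin⟩ := hK.exists_isMinOn hne (hG.met.vol_smooth.continuousOn.mono hsub)
      exact ⟨vol g x1, hG.met.vol_pos (hsub hx1), fun x hx => hmin hx⟩
  obtain ⟨c3, hc3, h3⟩ := h3
  refine ⟨min (min c1 c2) c3, lt_min (lt_min hc1 hc2) hc3, ?_⟩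
  intro x hx
  have hm1 : min (min c1 c2) c3 ≤ c1 := (min_le_left _ _).trans (min_le_left _ _)
  have hm2 : min (min c1 c2) c3 ≤ c2 := (min_le_left _ _).trans (min_le_right _ _)
  have hm3 : min (min c1 c2) c3 ≤ c3 := min_le_right _ _
  refine ⟨?_, ?_, hm3.trans (h3 x hx)⟩
  · intro v
    have hv : 0 ≤ vsq v := Finset.sum_nonneg fun i _ => sq_nonneg (v i)
    exact (mul_le_mul_of_nonneg_right hm1 hv).trans (h1 x hx v)
  · intro v
    have hv : 0 ≤ vsq v := Finset.sum_nonneg fun i _ => sq_nonneg (v i)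
    exact (mul_le_mul_of_nonneg_right hm2 hv).trans (h2 x hx v)

end UMB
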