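import Pool.Agent.Lib.UMB.M.Defs
import Pool.Agent.Lib.UMB.M.K1e

/-! # UMB section 1, chunk K1: bounds of the coefficients on the closed annulus -/

set_option autoImplicit false

open Filter Topology Set MeasureTheory
open scoped ContDiff BigOperators

namespace UMB

open Pool.Agent.Lib.PenroseSph (E3 Tens pd chr ric scal trg normSqg divg energy momentum momNorm gradNorm normal meanCurv
  trLevel)

/-- A finite family of continuous functions is bounded on a compact set. -/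
theorem k1_fam {ι : Type*} [Finite ι] {K U : Set E3} (hK : IsCompact K) (hKU : K ⊆ U) (f : ι → E3 → ℝ)
    (hf : ∀ i, ContDiffOn ℝ ∞ (f i) U) : ∃ C : ℝ, 0 ≤ C ∧ ∀ x ∈ K, ∀ i, |f i x| ≤ C := by
  have _ := Fintype.ofFinite ι
  have h1 : ∀ i, ∃ C : ℝ, ∀ x ∈ K, |f i x| ≤ C := fun i => by
    obtain ⟨C, hC⟩ := hK.exists_bound_of_continuousOn ((hf i).continuousOn.mono hKU)
    exact ⟨C, fun x hx => hC x hx⟩
  choose C hC using h1
  refine ⟨∑ i, |C i|, Finset.sum_nonneg fun i _ => abs_nonneg _, fun x hx i => ?_⟩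
  calc |f i x| ≤ C i := hC i x hx
    _ ≤ |C i| := le_abs_self _
    _ ≤ ∑ i, |C i| := Finset.single_le_sum (f := fun i => |C i|) (fun i _ => abs_nonneg _) (Finset.mem_univ i)

section

variable {g k : Tens} {U : Set E3}

theorem k1_chr (h : MetOn g U) (l i j : Fin 3) : ContDiffOn ℝ ∞ (chr g l i j) U := by
  refine (smr_smooth (h.ga.Ga l i j)).congr fun x hx => ?_
  rw [extU_of _ hx]
  exact (val_Ga h l i j ⟨x, hx⟩).symm

theorem k1_ric (h : MetOn g U) (i j : Fin 3) : ContDiffOn ℝ ∞ (ric g i j) U := by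
  refine (smr_smooth (h.ga.ric i j)).congr fun x hx => ?_
  rw [extU_of _ hx]
  exact (val_ric h i j ⟨x, hx⟩).symm

theorem k1_scal (h : MetOn g U) : ContDiffOn ℝ ∞ (scal g) U := by
  refine (smr_smooth h.ga.scal).congr fun x hx => ?_
  rw [extU_of _ hx]
  exact (val_scal h ⟨x, hx⟩).symm

theorem k1_mom (h : MetOn g U) (hk : ∀ i j, ContDiffOn ℝ ∞ (fun x => k x i j) U) (j : Fin 3) :
    ContDiffOn ℝ ∞ (momentum g k j) U := by
  have hq : ∀ i j, ContDiffOn ℝ ∞ (fun x => (k x - trg g k x • g x) i j) U := by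
    intro i j
    simp only [Matrix.sub_apply, Matrix.smul_apply, smul_eq_mul]
    exact (hk i j).sub ((h.trg_smooth hk).mul (h.smooth i j))
  refine (smr_smooth (h.ga.dvt (fun a b => rest (fun y => (k y - trg g k y • g y) a b) (hq a b)) j)).congr fun x hx => ?_
  rw [extU_of _ hx]
  exact (val_dvt h (fun y => k y - trg g k y • g y) hq j ⟨x, hx⟩).symm

theorem k1_en (h : MetOn g U) (hk : ∀ i j, ContDiffOn ℝ ∞ (fun x => k x i j) U) :
    ContDiffOn ℝ ∞ (energy g k) U := by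
  have h1 := h.inv_smooth
  have h2 : ContDiffOn ℝ ∞ (normSqg g k) U := by
    unfold normSqg
    exact ContDiffOn.sum fun i _ => ContDiffOn.sum fun j _ => ContDiffOn.sum fun k' _ => ContDiffOn.sum fun l _ =>
      (((h1 i k').mul (h1 j l)).mul (hk i j)).mul (hk k' l)
  unfold energy
  exact (((k1_scal h).sub h2).add ((h.trg_smooth hk).pow 2)).div_const 2

end

/-- **K1.** Bounds on the closed annulus. PROOF. All functions are continuous on the compact set `cann R ⊆ {a < |x|}`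
(`MetOn.inv_smooth`, `val_Ga`/`val_ric`/`val_scal` with `smr_smooth` for `chr`, `ric`, `scal`; `momentum` by
`val_dvt`-type congruence or directly; `energy` from `scal`, `normSqg`, `trg`), finitely many of them. -/
theorem K1_bd {g k : Tens} {a : ℝ} (hG : GK g k a) (R : ℝ) : ∃ C : ℝ, 1 ≤ C ∧ ∀ x ∈ cann R,
    (∀ i j, |(g x)⁻¹ i j| ≤ C) ∧ (∀ i j, |g x i j| ≤ C) ∧ (∀ l i j, |chr g l i j x| ≤ C) ∧ (∀ i j, |ric g i j x| ≤ C) ∧
      |scal g x| ≤ C ∧ (∀ i j, |k x i j| ≤ C) ∧ |trg g k x| ≤ C ∧ (∀ j, |momentum g k j x| ≤ C) ∧ |energy g k x| ≤ C ∧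
        vol g x ≤ C := by
  have h := hG.met
  have hk := hG.smooth
  have hKU : cann R ⊆ {x : E3 | a < ‖x‖} := fun x hx => lt_of_lt_of_le hG.lt hx.1
  have hK : IsCompact (cann R) := by
    refine (isCompact_closedBall (0 : E3) R).of_isClosed_subset ?_ fun x hx => mem_closedBall_zero_iff.2 hx.2
    exact (isClosed_le continuous_const continuous_norm).inter (isClosed_le continuous_norm continuous_const)
  obtain ⟨C1, p1, b1⟩ := k1_fam hK hKU (fun p : Fin 3 × Fin 3 => fun x => (g x)⁻¹ p.1 p.2) fun p => h.inv_smooth p.1 p.2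
  obtain ⟨C2, p2, b2⟩ := k1_fam hK hKU (fun p : Fin 3 × Fin 3 => fun x => g x p.1 p.2) fun p => h.smooth p.1 p.2
  obtain ⟨C3, p3, b3⟩ := k1_fam hK hKU (fun p : Fin 3 × Fin 3 × Fin 3 => chr g p.1 p.2.1 p.2.2) fun p =>
    k1_chr h p.1 p.2.1 p.2.2
  obtain ⟨C4, p4, b4⟩ := k1_fam hK hKU (fun p : Fin 3 × Fin 3 => ric g p.1 p.2) fun p => k1_ric h p.1 p.2
  obtain ⟨C5, p5, b5⟩ := k1_fam hK hKU (fun _ : Fin 1 => scal g) fun _ => k1_scal h
  obtain ⟨C6, p6, b6⟩ := k1_fam hK hKU (fun p : Fin 3 × Fin 3 => fun x => k x p.1 p.2) fun p => hk p.1 p.2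
  obtain ⟨C7, p7, b7⟩ := k1_fam hK hKU (fun _ : Fin 1 => trg g k) fun _ => h.trg_smooth hk
  obtain ⟨C8, p8, b8⟩ := k1_fam hK hKU (fun j : Fin 3 => momentum g k j) fun j => k1_mom h hk j
  obtain ⟨C9, p9, b9⟩ := k1_fam hK hKU (fun _ : Fin 1 => energy g k) fun _ => k1_en h hk
  obtain ⟨C10, p10, b10⟩ := k1_fam hK hKU (fun _ : Fin 1 => vol g) fun _ => h.vol_smooth
  refine ⟨1 + C1 + C2 + C3 + C4 + C5 + C6 + C7 + C8 + C9 + C10, by linarith, fun x hx =>
    ⟨fun i j => (b1 x hx (i, j)).trans (by linarith), fun i j => (b2 x hx (i, j)).trans (by linarith),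
    fun l i j => (b3 x hx (l, i, j)).trans (by linarith), fun i j => (b4 x hx (i, j)).trans (by linarith),
    (b5 x hx 0).trans (by linarith), fun i j => (b6 x hx (i, j)).trans (by linarith), (b7 x hx 0).trans (by linarith),
    fun j => (b8 x hx j).trans (by linarith), (b9 x hx 0).trans (by linarith),
    (le_abs_self _).trans ((b10 x hx 0).trans (by linarith))⟩⟩

end UMB
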