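import Pool.Agent.Lib.UMB.S1.Dens
import Pool.Agent.Lib.UMB.W.Defs

/-! # UMB section 1, lemma KF: the divergence identity for `V/√(f+e)` (proved) -/

set_option autoImplicit false

open Filter Topology Set
open scoped ContDiff BigOperators

namespace UMB

open Pool.Agent.Lib.PenroseSph (E3 Tens pd)

section alg
variable {R : Type*} [CommRing R] [Algebra ℝ R] (D : Fin 3 → Derivation ℝ R R)

/-- `V_i = a_ij a_kl (w_jk w_l - w_kl w_j)`. -/
noncomputable def kaV (a : Fin 3 → Fin 3 → R) (w : R) (i : Fin 3) : R :=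
  ∑ j, ∑ k, ∑ l, a i j * a k l * (D j (D k w) * D l w - D k (D l w) * D j w)

theorem ka_div (hc : ∀ i j (f : R), D i (D j f) = D j (D i f)) (a : Fin 3 → Fin 3 → R) (ha : ∀ i j, a i j = a j i) (w : R) :
    ∑ i, D i (kaV D a w i) =
      ∑ i, ∑ j, ∑ k, ∑ l, a i k * a j l * D i (D j w) * D k (D l w) - (∑ i, ∑ j, a i j * D i (D j w)) ^ 2
        + ∑ i, ∑ j, ∑ k, ∑ l, D i (a i j * a k l) * (D j (D k w) * D l w - D k (D l w) * D j w) := by
  unfold kaV
  simp only [map_sum, map_sub, Derivation.leibniz, smul_eq_mul]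
  simp only [Fin.sum_univ_three, ha 1 0, ha 2 0, ha 2 1]
  simp only [hc 1 0, hc 2 0, hc 2 1]
  ring

/-- `P_i = w_ij a_jk w_k`. -/
noncomputable def kaP (a : Fin 3 → Fin 3 → R) (w : R) (i : Fin 3) : R := ∑ j, ∑ k, D i (D j w) * a j k * D k w

theorem ka_VP (hc : ∀ i j (f : R), D i (D j f) = D j (D i f)) (a : Fin 3 → Fin 3 → R) (ha : ∀ i j, a i j = a j i) (w : R) :
    ∑ i, kaV D a w i * kaP D a w i = ∑ i, ∑ j, a i j * kaP D a w i * kaP D a w j
      - (∑ i, ∑ j, a i j * D i (D j w)) * ∑ i, ∑ j, a i j * D j w * kaP D a w i := by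
  have h : ∀ i, kaV D a w i = ∑ j, a i j * kaP D a w j - (∑ k, ∑ l, a k l * D k (D l w)) * ∑ j, a i j * D j w := by
    intro i
    unfold kaV kaP
    simp only [Fin.sum_univ_three, ha 1 0, ha 2 0, ha 2 1, hc 1 0, hc 2 0, hc 2 1]
    ring
  simp only [h]
  generalize kaP D a w = P
  simp only [Fin.sum_univ_three, ha 1 0, ha 2 0, ha 2 1]
  ring

theorem ka_Dr (r s f e : R) (he : ∀ i, D i e = 0) (hs : s * s = f + e) (hr : r * s = 1) (i : Fin 3) :
    D i r = (-1 / 2 : ℝ) • (r ^ 3 * D i f) := by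
  have h := congrArg (D i) hs
  simp only [Derivation.leibniz, smul_eq_mul, map_add, he, add_zero] at h
  have h1 := congrArg (D i) hr
  simp only [Derivation.leibniz, smul_eq_mul] at h1
  rw [show D i (1 : R) = 0 from Derivation.map_one_eq_zero _] at h1
  have h2 : (2 : ℝ) • D i r = (-1 : ℝ) • (r ^ 3 * D i f) := by
    rw [two_smul, neg_one_smul]
    linear_combination (2 * r * h1) - (D i r + D i r) * hr - r ^ 3 * h + (D i s + D i s) * r ^ 2 * hr
  have h3 := congrArg (fun z => (1 / 2 : ℝ) • z) h2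
  simp only [smul_smul] at h3
  norm_num at h3
  rw [h3]
  norm_num

/-- The divergence identity for `r V`. -/
theorem ka_main (hc : ∀ i j (f : R), D i (D j f) = D j (D i f)) (a : Fin 3 → Fin 3 → R) (ha : ∀ i j, a i j = a j i) (w : R)
    (r s e : R) (he : ∀ i, D i e = 0) (hs : s * s = (∑ i, ∑ j, a i j * D i w * D j w) + e) (hr : r * s = 1) :
    ∑ i, D i (r * kaV D a w i) =
      r * (∑ i, ∑ j, ∑ k, ∑ l, a i k * a j l * D i (D j w) * D k (D l w) - (∑ i, ∑ j, a i j * D i (D j w)) ^ 2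
        + ∑ i, ∑ j, ∑ k, ∑ l, D i (a i j * a k l) * (D j (D k w) * D l w - D k (D l w) * D j w))
      - r ^ 3 * (∑ i, ∑ j, a i j * kaP D a w i * kaP D a w j
        - (∑ i, ∑ j, a i j * D i (D j w)) * ∑ i, ∑ j, a i j * D j w * kaP D a w i)
      - (1 / 2 : ℝ) • (r ^ 3 * ∑ i, kaV D a w i * ∑ j, ∑ k, D i (a j k) * D j w * D k w) := by
  have hDf : ∀ i, D i (∑ i, ∑ j, a i j * D i w * D j w) = 2 * kaP D a w i + ∑ j, ∑ k, D i (a j k) * D j w * D k w := by
    intro i
    unfold kaP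
    simp only [map_sum, Derivation.leibniz, smul_eq_mul]
    simp only [Fin.sum_univ_three, ha 1 0, ha 2 0, ha 2 1]
    ring
  have h1 : ∑ i, D i (r * kaV D a w i) = r * ∑ i, D i (kaV D a w i) + ∑ i, D i r * kaV D a w i := by
    simp only [Derivation.leibniz, smul_eq_mul, Fin.sum_univ_three]
    ring
  have h2 : ∑ i, D i r * kaV D a w i = - r ^ 3 * (∑ i, kaV D a w i * kaP D a w i)
      - (1 / 2 : ℝ) • (r ^ 3 * ∑ i, kaV D a w i * ∑ j, ∑ k, D i (a j k) * D j w * D k w) := by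
    have h3 : ∀ i, D i r = - r ^ 3 * kaP D a w i - (1 / 2 : ℝ) • (r ^ 3 * ∑ j, ∑ k, D i (a j k) * D j w * D k w) := by
      intro i
      rw [ka_Dr D r s _ e he hs hr i, hDf, mul_add, smul_add]
      have : (-1 / 2 : ℝ) • (r ^ 3 * (2 * kaP D a w i)) = - r ^ 3 * kaP D a w i := by
        rw [show r ^ 3 * (2 * kaP D a w i) = (2 : ℝ) • (r ^ 3 * kaP D a w i) by rw [two_smul]; ring, smul_smul]
        norm_num
      rw [this, show (-1 / 2 : ℝ) = -(1 / 2) by norm_num, neg_smul]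
      ring
    simp only [h3, sub_mul, Finset.sum_sub_distrib]
    congr 1
    · rw [Finset.mul_sum]
      exact Finset.sum_congr rfl fun i _ => by ring
    · rw [Finset.mul_sum (a := r ^ 3), Finset.smul_sum]
      refine Finset.sum_congr rfl fun i _ => ?_
      rw [smul_mul_assoc]
      congr 1
      ring
  rw [h1, ka_div D hc a ha w, h2, ka_VP D hc a ha w]
  ring

end alg

end UMB
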