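import Pool.Agent.Lib.UMB.M.KA

/-! # UMB section 1, lemma KF: the divergence identity at a point (proved) -/

set_option autoImplicit false

open Filter Topology Set
open scoped ContDiff BigOperators

namespace UMB

open Pool.Agent.Lib.PenroseSph (E3 Tens pd)

/-- `P_i = w_ij S_jk w_k`. -/
noncomputable def kfP (S : Tens) (w : E3 → ℝ) (i : Fin 3) (x : E3) : ℝ := ∑ j, ∑ k, D2 w x i j * S x j k * D1 w x k

/-- The remainder with the derivative of `S` in the derivative of `√`. -/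
noncomputable def kfR (S : Tens) (w : E3 → ℝ) (x : E3) : ℝ :=
  ∑ i, W.VV S w i x * ∑ j, ∑ k, pd i (fun y => S y j k) x * D1 w x j * D1 w x k

variable {U : Set E3} (hU : IsOpen U) {w : E3 → ℝ} (hw : ContDiffOn ℝ ∞ w U) {S : Tens}
  (hS : ∀ i j, ContDiffOn ℝ ∞ (fun x => S x i j) U)

theorem kb_D1 (i : Fin 3) (x : U) : (Dk hU i (rest w hw)).1 x = D1 w x i := Dk_apply hU i _ w (fun _ => rfl) x

theorem kb_D2 (i j : Fin 3) (x : U) : (Dk hU i (Dk hU j (rest w hw))).1 x = D2 w x i j :=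
  Dk_apply hU i _ (pd j w) (fun y => kb_D1 hU hw j y) x

theorem kb_V (i : Fin 3) (x : U) : (kaV (Dk hU) (fun i j => rest (fun x => S x i j) (hS i j)) (rest w hw) i).1 x =
    W.VV S w i x := by
  unfold kaV W.VV
  simp only [val_sum, val_mul, val_sub, kb_D1, kb_D2]
  rfl

theorem kb_P (i : Fin 3) (x : U) : (kaP (Dk hU) (fun i j => rest (fun x => S x i j) (hS i j)) (rest w hw) i).1 x =
    kfP S w i x := by
  unfold kaP kfP
  simp only [val_sum, val_mul, kb_D1, kb_D2]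
  rfl

include hU hw hS in
/-- **KB.** The divergence identity. -/
theorem KF_div (hs : ∀ x ∈ U, ∀ i j, S x i j = S x j i) (h0 : ∀ x ∈ U, 0 ≤ q1 (S x) (D1 w x)) {e : ℝ} (he : 0 < e) {x : E3}
    (hx : x ∈ U) : ∑ i, pd i (fun y => W.VV S w i y / Real.sqrt (q1 (S y) (D1 w y) + e)) x =
      (nsq (S x) (D2 w x) - tr2 (S x) (D2 w x) ^ 2 + W.RR S w x) / Real.sqrt (q1 (S x) (D1 w x) + e)
      - (q1 (S x) (fun i => kfP S w i x) - tr2 (S x) (D2 w x) * ∑ i, ∑ j, S x i j * D1 w x j * kfP S w i x)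
        / Real.sqrt (q1 (S x) (D1 w x) + e) ^ 3
      - 1 / 2 * (kfR S w x / Real.sqrt (q1 (S x) (D1 w x) + e) ^ 3) := by
  have hq : ContDiffOn ℝ ∞ (fun y => q1 (S y) (D1 w y)) U := by
    have h1 : ∀ i, ContDiffOn ℝ ∞ (fun y => D1 w y i) U := fun i => smooth_pd hU hw i
    unfold q1
    exact ContDiffOn.sum fun i _ => ContDiffOn.sum fun j _ => ((hS i j).mul (h1 i)).mul (h1 j)
  have hpos : ∀ y ∈ U, 0 < q1 (S y) (D1 w y) + e := fun y hy => by have := h0 y hy; linarith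
  have hss : ContDiffOn ℝ ∞ (fun y => Real.sqrt (q1 (S y) (D1 w y) + e)) U :=
    (hq.add contDiffOn_const).sqrt fun y hy => (hpos y hy).ne'
  have hrr : ContDiffOn ℝ ∞ (fun y => (Real.sqrt (q1 (S y) (D1 w y) + e))⁻¹) U :=
    hss.inv fun y hy => (Real.sqrt_pos.2 (hpos y hy)).ne'
  have key := ka_main (Dk hU) (Dk_comm hU) (fun i j => rest (fun x => S x i j) (hS i j)) (by
      intro i j
      apply Subtype.ext
      funext y
      exact hs y y.2 i j) (rest w hw) (rest _ hrr) (rest _ hss) (rest (fun _ => e) contDiffOn_const) (by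
      intro i
      apply Subtype.ext
      funext y
      rw [Dk_apply hU i _ (fun _ => e) (fun _ => rfl)]
      show fderiv ℝ (fun _ => e) (y : E3) _ = 0
      simp) (by
      apply Subtype.ext
      funext y
      simp only [val_mul, val_add, val_sum, kb_D1]
      show Real.sqrt (q1 (S y) (D1 w y) + e) * Real.sqrt (q1 (S y) (D1 w y) + e) = q1 (S y) (D1 w y) + e
      rw [Real.mul_self_sqrt (hpos y y.2).le]) (by
      apply Subtype.ext
      funext y
      rw [val_mul]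
      show (Real.sqrt (q1 (S y) (D1 w y) + e))⁻¹ * Real.sqrt (q1 (S y) (D1 w y) + e) = 1
      exact inv_mul_cancel₀ (Real.sqrt_pos.2 (hpos y y.2)).ne')
  have h1 := congrArg (fun f : SmR U => f.1 ⟨x, hx⟩) key
  simp only [val_mul, val_add, val_sub, val_sum, val_pow, val_smul, kb_D1, kb_D2, kb_V, kb_P] at h1
  have e1 : ∀ i, (Dk hU i (rest _ hrr * kaV (Dk hU) (fun i j => rest (fun x => S x i j) (hS i j)) (rest w hw) i)).1 ⟨x, hx⟩ =
      pd i (fun y => W.VV S w i y / Real.sqrt (q1 (S y) (D1 w y) + e)) x := by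
    intro i
    rw [Dk_apply hU i _ (fun y => W.VV S w i y / Real.sqrt (q1 (S y) (D1 w y) + e)) (fun y => by
      rw [val_mul, kb_V]
      show (Real.sqrt (q1 (S y) (D1 w y) + e))⁻¹ * _ = _
      rw [div_eq_inv_mul])]
  have e2 : ∀ i j k l, (Dk hU i (rest (fun x => S x i j) (hS i j) * rest (fun x => S x k l) (hS k l))).1 ⟨x, hx⟩ =
      pd i (fun y => S y i j * S y k l) x := fun i j k l => Dk_apply hU i _ (fun y => S y i j * S y k l) (fun _ => rfl) _
  have e3 : ∀ i j k, (Dk hU i (rest (fun x => S x j k) (hS j k))).1 ⟨x, hx⟩ = pd i (fun y => S y j k) x :=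
    fun i j k => Dk_apply hU i _ (fun y => S y j k) (fun _ => rfl) _
  simp only [e1, e2, e3] at h1
  rw [h1, show (rest _ hrr : SmR U).1 ⟨x, hx⟩ = (Real.sqrt (q1 (S x) (D1 w x) + e))⁻¹ from rfl]
  have q1' : q1 (S x) (fun i => kfP S w i x) = ∑ i, ∑ j, S x i j * kfP S w i x * kfP S w j x := rfl
  rw [q1', div_eq_inv_mul (nsq (S x) (D2 w x) - tr2 (S x) (D2 w x) ^ 2 + W.RR S w x), div_eq_inv_mul _ (Real.sqrt (q1 (S x) (D1 w x) + e) ^ 3),
    div_eq_inv_mul _ (Real.sqrt (q1 (S x) (D1 w x) + e) ^ 3), ← inv_pow]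
  rfl

end UMB
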