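import Pool.Agent.Lib.UMB.Op

/-! # UMB section 1 (lemma KF), chunk KC: the Euclidean inequality -/

set_option autoImplicit false

/-! # UMB section 1 (lemma KF), chunk KC: the Euclidean inequality -/

open Filter Topology Set MeasureTheory
open scoped ContDiff BigOperators

namespace UMB

open Pool.Agent.Lib.PenroseSph (E3 Tens pd)

theorem kc_cs9 (m q : Fin 3 → Fin 3 → ℝ) :
    (∑ i, ∑ j, m i j * q i j) ^ 2 ≤ (∑ i, ∑ j, m i j ^ 2) * ∑ i, ∑ j, q i j ^ 2 := by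
  have h := Finset.sum_mul_sq_le_sq_mul_sq (Finset.univ : Finset (Fin 3 × Fin 3)) (fun p => m p.1 p.2)
    (fun p => q p.1 p.2)
  simpa only [Fintype.sum_prod_type] using h

theorem kc_one (a b c d f g x y z E w0 w1 w2 δ : ℝ) (hE : E = x ^ 2 + y ^ 2 + z ^ 2) (he : E = 1)
    (h0 : w0 = a * x + b * y + c * z) (h1 : w1 = b * x + d * y + f * z) (h2 : w2 = c * x + f * y + g * z)
    (hd : δ = x * w0 + y * w1 + z * w2) :
    (a + d + g - δ) ^ 2 ≤ 2 * ((a ^ 2 + b ^ 2 + c ^ 2 + b ^ 2 + d ^ 2 + f ^ 2 + c ^ 2 + f ^ 2 + g ^ 2)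
      - 2 * (w0 ^ 2 + w1 ^ 2 + w2 ^ 2) + δ ^ 2) := by
  have h := kc_cs9
    (![![a - x * w0 - w0 * x + δ * x * x, b - x * w1 - w0 * y + δ * x * y, c - x * w2 - w0 * z + δ * x * z],
      ![b - y * w0 - w1 * x + δ * y * x, d - y * w1 - w1 * y + δ * y * y, f - y * w2 - w1 * z + δ * y * z],
      ![c - z * w0 - w2 * x + δ * z * x, f - z * w1 - w2 * y + δ * z * y, g - z * w2 - w2 * z + δ * z * z]])
    (![![1 - x * x, -(x * y), -(x * z)], ![-(y * x), 1 - y * y, -(y * z)], ![-(z * x), -(z * y), 1 - z * z]])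
  simp only [Fin.sum_univ_three, Matrix.cons_val_zero, Matrix.cons_val_one, Matrix.cons_val] at h
  have e1 : (a - x * w0 - w0 * x + δ * x * x) * (1 - x * x) + (b - x * w1 - w0 * y + δ * x * y) * -(x * y) +
        (c - x * w2 - w0 * z + δ * x * z) * -(x * z) +
      ((b - y * w0 - w1 * x + δ * y * x) * -(y * x) + (d - y * w1 - w1 * y + δ * y * y) * (1 - y * y) +
        (f - y * w2 - w1 * z + δ * y * z) * -(y * z)) +
      ((c - z * w0 - w2 * x + δ * z * x) * -(z * x) + (f - z * w1 - w2 * y + δ * z * y) * -(z * y) +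
        (g - z * w2 - w2 * z + δ * z * z) * (1 - z * z)) = a + d + g - δ := by
    have t1 : x ^ 2 + y ^ 2 + z ^ 2 = 1 := by rw [← hE, he]
    have t2 : a * x * x + b * y * x + c * z * x + b * x * y + d * y * y + f * z * y + c * x * z + f * y * z + g * z * z = δ := by
      rw [hd, h0, h1, h2]; ring
    linear_combination (-(δ * (x ^ 2 + y ^ 2 + z ^ 2 - 2)) + 2 * (x * w0 + y * w1 + z * w2) - 2 * δ) * t1 - t2 +
      (0 : ℝ) * t2 + 0 * hd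
  have e2 : (a - x * w0 - w0 * x + δ * x * x) ^ 2 + (b - x * w1 - w0 * y + δ * x * y) ^ 2 +
        (c - x * w2 - w0 * z + δ * x * z) ^ 2 +
      ((b - y * w0 - w1 * x + δ * y * x) ^ 2 + (d - y * w1 - w1 * y + δ * y * y) ^ 2 +
        (f - y * w2 - w1 * z + δ * y * z) ^ 2) +
      ((c - z * w0 - w2 * x + δ * z * x) ^ 2 + (f - z * w1 - w2 * y + δ * z * y) ^ 2 +
        (g - z * w2 - w2 * z + δ * z * z) ^ 2) =
      (a ^ 2 + b ^ 2 + c ^ 2 + b ^ 2 + d ^ 2 + f ^ 2 + c ^ 2 + f ^ 2 + g ^ 2)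
      - 2 * (w0 ^ 2 + w1 ^ 2 + w2 ^ 2) + δ ^ 2 := by
    subst hd h0 h1 h2
    have t1 : x ^ 2 + y ^ 2 + z ^ 2 = 1 := by rw [← hE, he]
    linear_combination (2 * ((a * x + b * y + c * z) ^ 2 + (b * x + d * y + f * z) ^ 2 + (c * x + f * y + g * z) ^ 2) +
      (x * (a * x + b * y + c * z) + y * (b * x + d * y + f * z) + z * (c * x + f * y + g * z)) ^ 2 *
        (x ^ 2 + y ^ 2 + z ^ 2 - 3)) * t1
  have e3 : (1 - x * x) ^ 2 + (-(x * y)) ^ 2 + (-(x * z)) ^ 2 + ((-(y * x)) ^ 2 + (1 - y * y) ^ 2 + (-(y * z)) ^ 2) +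
      ((-(z * x)) ^ 2 + (-(z * y)) ^ 2 + (1 - z * z) ^ 2) = 2 := by
    have t1 : x ^ 2 + y ^ 2 + z ^ 2 = 1 := by rw [← hE, he]
    linear_combination (x ^ 2 + y ^ 2 + z ^ 2 - 1) * t1
  rw [e1, e2, e3] at h
  linarith

theorem kc_unit (a b c d f g x y z w0 w1 w2 δ k n s W : ℝ) (he : x ^ 2 + y ^ 2 + z ^ 2 = 1)
    (h0 : w0 = a * x + b * y + c * z) (h1 : w1 = b * x + d * y + f * z) (h2 : w2 = c * x + f * y + g * z)
    (hd : δ = x * w0 + y * w1 + z * w2)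
    (hn : n = a ^ 2 + b ^ 2 + c ^ 2 + b ^ 2 + d ^ 2 + f ^ 2 + c ^ 2 + f ^ 2 + g ^ 2)
    (hs : s = a + d + g) (hW : W = w0 ^ 2 + w1 ^ 2 + w2 ^ 2) (hk0 : 0 ≤ k) (hk1 : k ≤ 1) :
    1 / 10 * n ≤ n - s ^ 2 - k * (W - s * δ) + 5 * s ^ 2 := by
  have k1 := kc_one a b c d f g x y z _ w0 w1 w2 δ rfl he h0 h1 h2 hd
  rw [← hn, ← hW, ← hs] at k1
  have hdW : δ ^ 2 ≤ W := by
    have e1 : W - δ ^ 2 = (w0 * y - w1 * x) ^ 2 + (w0 * z - w2 * x) ^ 2 + (w1 * z - w2 * y) ^ 2 := by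
      rw [hW, hd]
      linear_combination (-(w0 ^ 2 + w1 ^ 2 + w2 ^ 2)) * he
    have h3 : 0 ≤ (w0 * y - w1 * x) ^ 2 + (w0 * z - w2 * x) ^ 2 + (w1 * z - w2 * y) ^ 2 := by positivity
    linarith
  have hcs : ∀ p q r : ℝ, (p * x + q * y + r * z) ^ 2 ≤ p ^ 2 + q ^ 2 + r ^ 2 := by
    intro p q r
    have e1 : p ^ 2 + q ^ 2 + r ^ 2 - (p * x + q * y + r * z) ^ 2 =
        (p * y - q * x) ^ 2 + (p * z - r * x) ^ 2 + (q * z - r * y) ^ 2 := by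
      linear_combination (-(p ^ 2 + q ^ 2 + r ^ 2)) * he
    have h3 : 0 ≤ (p * y - q * x) ^ 2 + (p * z - r * x) ^ 2 + (q * z - r * y) ^ 2 := by positivity
    linarith
  have hWn : W ≤ n := by
    have t0 := hcs a b c
    have t1 := hcs b d f
    have t2 := hcs c f g
    rw [← h0] at t0
    rw [← h1] at t1
    rw [← h2] at t2
    rw [hW, hn]
    linarith
  have hsd : |s * δ| ≤ 1 / 10 * n + 5 / 2 * s ^ 2 := by
    rw [abs_le]
    constructor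
    · nlinarith [sq_nonneg (5 * s + δ)]
    · nlinarith [sq_nonneg (5 * s - δ)]
  have hW0 : 0 ≤ W := le_trans (sq_nonneg δ) hdW
  have hk2 : k * (W - s * δ) ≤ W + |s * δ| := by
    have h3 : W - s * δ ≤ W + |s * δ| := by linarith [neg_abs_le (s * δ)]
    have h4 : 0 ≤ W + |s * δ| := by positivity
    calc k * (W - s * δ) ≤ k * (W + |s * δ|) := mul_le_mul_of_nonneg_left h3 hk0
      _ ≤ 1 * (W + |s * δ|) := mul_le_mul_of_nonneg_right hk1 h4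
      _ = _ := one_mul _
  have hb : 5 * (n - W) ≥ n - 2 * s ^ 2 := by
    nlinarith [sq_nonneg (s + (s - δ)), sq_nonneg (2 * s - δ)]
  nlinarith [sq_nonneg s]

/-- **KC.** PROOF. `n := ∑ B_ij²`, `s := ∑ B_ii`, `W_i := ∑_j B_ij v_j`. If `v = 0` trivial (`s² ≤ 5 s²`, `W = 0`). Otherwise
`v = |v| e`, `c := |v|²/Y² ∈ (0,1]`, the last fraction is `c (|Be|² - s δ)`, `δ := eᵀBe`. Facts: (1) `(s - δ)² ≤ 2 (n - 2|Be|² + δ²)`:
Cauchy-Schwarz for the matrices `Q B Q` and `Q := 1 - e eᵀ` (`tr (QBQ Q) = s - δ`, `|Q|² = 2`, `|QBQ|² = n - 2|Be|² + δ²`;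
for `B` symmetric, `|e| = 1`); (2) `δ² ≤ |Be|²` (Cauchy-Schwarz) and `|Be|² ≤ n`. With `b := n - 2|Be|² + δ² ≥ 0`,
`β := |Be|² - δ² ≥ 0`: `n - |Be|² = b + β`, `δ² ≤ 2s² + 2(s-δ)² ≤ 2 s² + 4 b`, so `n = b + 2β + δ² ≤ 5 (b + β) + 2 s²`, i.e.
`n - |Be|² ≥ n/5 - (2/5) s²`. Finally `c(|Be|² - s δ) ≤ |Be|² + |s||δ| ≤ |Be|² + n/10 + (5/2) s²` (`δ² ≤ n`). -/
theorem KC_eucl {B : Matrix (Fin 3) (Fin 3) ℝ} (hB : ∀ i j, B i j = B j i) (v : Fin 3 → ℝ) {Y : ℝ} (hY : 0 < Y)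
    (hv : ∑ i, v i ^ 2 ≤ Y ^ 2) :
    1 / 10 * (∑ i, ∑ j, B i j ^ 2) ≤ (∑ i, ∑ j, B i j ^ 2) - (∑ i, B i i) ^ 2
      - ((∑ i, (∑ j, B i j * v j) ^ 2) - (∑ i, B i i) * ∑ i, ∑ j, v i * B i j * v j) / Y ^ 2 + 5 * (∑ i, B i i) ^ 2 := by
  simp only [Fin.sum_univ_three] at hv ⊢
  have b1 := hB 1 0
  have b2 := hB 2 0
  have b3 := hB 2 1
  rcases (add_nonneg (add_nonneg (sq_nonneg (v 0)) (sq_nonneg (v 1))) (sq_nonneg (v 2))).eq_or_lt with h0 | h0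
  · have v0 : v 0 = 0 := by nlinarith [sq_nonneg (v 0), sq_nonneg (v 1), sq_nonneg (v 2)]
    have v1 : v 1 = 0 := by nlinarith [sq_nonneg (v 0), sq_nonneg (v 1), sq_nonneg (v 2)]
    have v2 : v 2 = 0 := by nlinarith [sq_nonneg (v 0), sq_nonneg (v 1), sq_nonneg (v 2)]
    rw [v0, v1, v2]
    simp only [mul_zero, add_zero, zero_mul, sub_zero]
    norm_num
    nlinarith [sq_nonneg (B 0 0), sq_nonneg (B 0 1), sq_nonneg (B 0 2), sq_nonneg (B 1 0), sq_nonneg (B 1 1),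
      sq_nonneg (B 1 2), sq_nonneg (B 2 0), sq_nonneg (B 2 1), sq_nonneg (B 2 2), sq_nonneg (B 0 0 + B 1 1 + B 2 2)]
  · obtain ⟨r, hr0, hr⟩ : ∃ r : ℝ, 0 < r ∧ r ^ 2 = v 0 ^ 2 + v 1 ^ 2 + v 2 ^ 2 :=
      ⟨Real.sqrt (v 0 ^ 2 + v 1 ^ 2 + v 2 ^ 2), Real.sqrt_pos.mpr h0, Real.sq_sqrt h0.le⟩
    have hr1 : r ≠ 0 := hr0.ne'
    have key := kc_unit (B 0 0) (B 0 1) (B 0 2) (B 1 1) (B 1 2) (B 2 2) (v 0 / r) (v 1 / r) (v 2 / r) _ _ _ _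
      (r ^ 2 / Y ^ 2) _ _ _ (by field_simp; linarith) rfl rfl rfl rfl rfl rfl rfl (by positivity)
      (by rw [div_le_one (by positivity), hr]; exact hv)
    rw [b1, b2, b3]
    refine le_trans (le_of_eq ?_) (key.trans (le_of_eq ?_))
    · ring
    · field_simp
      ring

end UMB
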