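import Pool.Agent.Lib.UMB.M.KC
import Pool.Agent.Lib.UMB.W.A2
import Pool.Agent.Lib.UMB.W.A4

/-! # UMB section 1 (lemma KF), chunk KD: the inequality for a metric -/

set_option autoImplicit false

/-! # UMB section 1 (lemma KF), chunk KD: the inequality for a metric -/

open Filter Topology Set MeasureTheory
open scoped ContDiff BigOperators

namespace UMB

open Pool.Agent.Lib.PenroseSph (E3 Tens pd)

theorem kd_q (S : Matrix (Fin 3) (Fin 3) ℝ) (w : Fin 3 → ℝ) : q1 S w = w ⬝ᵥ S.mulVec w := by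
  simp only [dotProduct, Matrix.mulVec, q1, Finset.mul_sum]
  refine Finset.sum_congr rfl fun i _ => Finset.sum_congr rfl fun j _ => ?_
  ring

theorem kd_dot {S C : Matrix (Fin 3) (Fin 3) ℝ} (hC : S = C.transpose * C) (w z : Fin 3 → ℝ) :
    C.mulVec w ⬝ᵥ C.mulVec z = w ⬝ᵥ S.mulVec z := by
  rw [hC, ← Matrix.mulVec_mulVec, Matrix.dotProduct_mulVec w, Matrix.vecMul_transpose]

theorem kd_nsq {S C M : Matrix (Fin 3) (Fin 3) ℝ} (hs : ∀ i j, S i j = S j i) (hG : S = C.transpose * C) :
    fsq (C * M * C.transpose) = nsq S M := by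
  rw [W.a2_fsq, W.a2_nsq S M hs, hG]
  have : (C * M * C.transpose) * (C * M * C.transpose).transpose =
      C * (M * C.transpose * C * M.transpose * C.transpose) := by
    simp only [Matrix.transpose_mul, Matrix.transpose_transpose, Matrix.mul_assoc]
  rw [this, Matrix.trace_mul_comm]
  have e : M * C.transpose * C * M.transpose * C.transpose * C =
      M * (C.transpose * C) * (M.transpose * (C.transpose * C)) := by
    simp only [Matrix.mul_assoc]
  have e' : C.transpose * C * M * (C.transpose * C) * M.transpose =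
      (C.transpose * C) * (M * (C.transpose * C) * M.transpose) := by
    simp only [Matrix.mul_assoc]
  rw [e, e', Matrix.trace_mul_comm (C.transpose * C)]
  simp only [Matrix.mul_assoc]

/-- **KD.** PROOF. `S = Cᵀ C` (`W.a2_factor`, `lam > 0`), put `B' := C B Cᵀ` (symmetric), `v' := C u`:
`∑ B'_ij² = nsq S B`, `∑ B'_ii = tr2 S B`, `∑ v'_i² = q1 S u`, with `P_i = ∑_jk B_ij S_jk u_k`:
`∑_i (∑_j B'_ij v'_j)² = q1 S P`, `∑ v'_i B'_ij v'_j = ∑_ij S_ij u_j P_i` (all are traces / matrix products; with `S_ij = ∑_m C_mi C_mj`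
they are identities of polynomials in the entries, `Fin.sum_univ_three`, `ring`, or matrix algebra as in `W.a2_nsq`). Then KC
and `nsq S B ≥ lam² fsq B` (`W.nsq_ge`). -/
theorem KD_metric {lam : ℝ} (hl : 0 < lam) {S B : Matrix (Fin 3) (Fin 3) ℝ} (hS : ∀ i j, S i j = S j i)
    (hB : ∀ i j, B i j = B j i) (hell : ∀ u : Fin 3 → ℝ, lam * vsq u ≤ q1 S u) (u : Fin 3 → ℝ) {Y : ℝ} (hY : 0 < Y)
    (hu : q1 S u ≤ Y ^ 2) :
    1 / 10 * lam ^ 2 * fsq B ≤ nsq S B - tr2 S B ^ 2
      - (q1 S (fun i => ∑ j, ∑ k, B i j * S j k * u k)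
        - tr2 S B * ∑ i, ∑ j, S i j * u j * ∑ k, ∑ l, B i k * S k l * u l) / Y ^ 2 + 5 * tr2 S B ^ 2 := by
  have hpos : ∀ u : Fin 3 → ℝ, u ≠ 0 → 0 < q1 S u := by
    intro w hw
    obtain ⟨i, hi⟩ := Function.ne_iff.mp hw
    have h1 : 0 < vsq w := by
      have h0 : 0 < w i ^ 2 := by
        have : w i ≠ 0 := hi
        positivity
      exact lt_of_lt_of_le h0 (W.a4_vent w i)
    have := hell w
    have h2 : 0 < lam * vsq w := mul_pos hl h1
    linarith
  obtain ⟨C, -, hC⟩ := W.a2_factor hS hpos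
  have hSt : S.transpose = S := by
    ext i j
    exact hS j i
  have hMt : B.transpose = B := by
    ext i j
    exact hB j i
  have hB' : ∀ i j, (C * B * C.transpose) i j = (C * B * C.transpose) j i := by
    intro i j
    have h1 : (C * B * C.transpose).transpose = C * B * C.transpose := by
      rw [Matrix.transpose_mul, Matrix.transpose_mul, Matrix.transpose_transpose, hMt, Matrix.mul_assoc]
    calc (C * B * C.transpose) i j = (C * B * C.transpose).transpose i j := by rw [h1]
      _ = _ := rfl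
  have hv : ∑ i, C.mulVec u i ^ 2 = q1 S u := by
    rw [kd_q, ← kd_dot hC]
    simp only [dotProduct, sq]
  have hP : (fun i => ∑ j, ∑ k, B i j * S j k * u k) = B.mulVec (S.mulVec u) := by
    funext i
    simp only [Matrix.mulVec, dotProduct, Finset.mul_sum]
    exact Finset.sum_congr rfl fun j _ => Finset.sum_congr rfl fun k _ => by ring
  have hBv : (C * B * C.transpose).mulVec (C.mulVec u) = C.mulVec (B.mulVec (S.mulVec u)) := by
    rw [hC]
    simp only [Matrix.mulVec_mulVec, Matrix.mul_assoc]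
  have key := KC_eucl (B := C * B * C.transpose) hB' (C.mulVec u) hY (by rw [hv]; exact hu)
  have e1 : ∑ i, (C * B * C.transpose) i i = tr2 S B := by
    have : ∑ i, (C * B * C.transpose) i i = (C * B * C.transpose).trace := rfl
    rw [this, W.a2_tr, hMt, hC, Matrix.trace_mul_comm, Matrix.mul_assoc]
  have e2 : ∑ i, ∑ j, (C * B * C.transpose) i j ^ 2 = nsq S B := kd_nsq hS hC
  have e3 : ∑ i, (∑ j, (C * B * C.transpose) i j * C.mulVec u j) ^ 2 =
      q1 S (fun i => ∑ j, ∑ k, B i j * S j k * u k) := by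
    rw [hP, kd_q, ← kd_dot hC, ← hBv]
    simp only [dotProduct, sq]
    rfl
  have e4 : ∑ i, ∑ j, C.mulVec u i * (C * B * C.transpose) i j * C.mulVec u j =
      ∑ i, ∑ j, S i j * u j * ∑ k, ∑ l, B i k * S k l * u l := by
    have h1 : ∑ i, ∑ j, C.mulVec u i * (C * B * C.transpose) i j * C.mulVec u j =
        C.mulVec u ⬝ᵥ (C * B * C.transpose).mulVec (C.mulVec u) := by
      simp only [dotProduct, Matrix.mulVec, Finset.mul_sum]
      exact Finset.sum_congr rfl fun i _ => Finset.sum_congr rfl fun j _ => by ring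
    rw [h1, hBv, kd_dot hC]
    have h2 : ∑ i, ∑ j, S i j * u j * ∑ k, ∑ l, B i k * S k l * u l =
        S.mulVec u ⬝ᵥ B.mulVec (S.mulVec u) := by
      rw [← hP]
      simp only [dotProduct, Matrix.mulVec, Finset.sum_mul]
    rw [h2, Matrix.dotProduct_mulVec u, ← Matrix.mulVec_transpose, hSt]
  rw [e1, e2, e3, e4] at key
  have h5 := W.nsq_ge hl.le hS hell B
  refine le_trans ?_ key
  linarith

end UMB
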