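import Pool.Agent.Lib.UMB.M.KB
import Pool.Agent.Lib.UMB.M.KD
import Pool.Agent.Lib.UMB.W.A5

/-! # UMB section 1 (lemma KF), chunk KE: pointwise lower bound of the divergence -/

set_option autoImplicit false

open Filter Topology Set MeasureTheory
open scoped ContDiff BigOperators

namespace UMB

open Pool.Agent.Lib.PenroseSph (E3 Tens pd)

/-- Ellipticity on a compact set. -/
theorem ke_lower {K : Set E3} (hK : IsCompact K) {S : Tens} (h1 : ∀ i j, ContinuousOn (fun x => S x i j) K)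
    (h3 : ∀ x ∈ K, ∀ u : Fin 3 → ℝ, u ≠ 0 → 0 < q1 (S x) u) :
    ∃ lam : ℝ, 0 < lam ∧ ∀ x ∈ K, ∀ u : Fin 3 → ℝ, lam * vsq u ≤ q1 (S x) u := by
  by_cases hne : K.Nonempty
  · have hKK : IsCompact (K ×ˢ {u : Fin 3 → ℝ | vsq u = 1}) := hK.prod W.a5_sphere
    have hKne : (K ×ˢ {u : Fin 3 → ℝ | vsq u = 1}).Nonempty := by
      apply hne.prod
      refine ⟨Pi.single 0 1, ?_⟩
      show vsq _ = 1
      simp [vsq, Fin.sum_univ_three, Pi.single_apply]
    have hcont : ContinuousOn (fun p : E3 × (Fin 3 → ℝ) => q1 (S p.1) p.2)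
        (K ×ˢ {u : Fin 3 → ℝ | vsq u = 1}) := by
      unfold q1
      refine continuousOn_finset_sum _ fun i _ => continuousOn_finset_sum _ fun j _ => ?_
      have h4 : ContinuousOn (fun p : E3 × (Fin 3 → ℝ) => S p.1 i j) (K ×ˢ {u : Fin 3 → ℝ | vsq u = 1}) :=
        (h1 i j).comp continuousOn_fst fun p hp => hp.1
      have h5 : ∀ k : Fin 3, Continuous fun p : E3 × (Fin 3 → ℝ) => p.2 k := fun k =>
        (continuous_apply k).comp continuous_snd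
      exact (h4.mul (h5 i).continuousOn).mul (h5 j).continuousOn
    obtain ⟨⟨x₀, u₀⟩, hmem, hmin⟩ := hKK.exists_isMinOn hKne hcont
    have hu₀ : u₀ ≠ 0 := by
      rintro rfl
      have : vsq (0 : Fin 3 → ℝ) = 1 := hmem.2
      simp [vsq] at this
    refine ⟨q1 (S x₀) u₀, h3 x₀ hmem.1 u₀ hu₀, fun x hx u => ?_⟩
    by_cases hu : vsq u = 0
    · have hu0 : u = 0 := by
        unfold vsq at hu
        rw [Finset.sum_eq_zero_iff_of_nonneg fun _ _ => sq_nonneg _] at hu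
        ext i
        have := hu i (Finset.mem_univ i)
        exact pow_eq_zero_iff (n := 2) (by norm_num) |>.1 this
      subst hu0
      simp [vsq, q1]
    · have hv0 : 0 ≤ vsq u := Finset.sum_nonneg fun _ _ => sq_nonneg _
      have hv : 0 < vsq u := lt_of_le_of_ne hv0 (Ne.symm hu)
      set s := Real.sqrt (vsq u)
      have hs : 0 < s := Real.sqrt_pos.2 hv
      have hs2 : s ^ 2 = vsq u := Real.sq_sqrt hv0
      have hmem2 : vsq (s⁻¹ • u) = 1 := by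
        rw [W.a5_vsq_smul, ← hs2, ← mul_pow, inv_mul_cancel₀ hs.ne', one_pow]
      have h6 := hmin (⟨hx, hmem2⟩ : ((x, s⁻¹ • u) : E3 × (Fin 3 → ℝ)) ∈
        K ×ˢ {u : Fin 3 → ℝ | vsq u = 1})
      have h7 : q1 (S x₀) u₀ ≤ q1 (S x) (s⁻¹ • u) := h6
      rw [W.a5_q1_smul] at h7
      rw [← hs2]
      calc q1 (S x₀) u₀ * s ^ 2 ≤ (s⁻¹ ^ 2 * q1 (S x) u) * s ^ 2 :=
            mul_le_mul_of_nonneg_right h7 (by positivity)
        _ = q1 (S x) u := by
            field_simp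
  · exact ⟨1, one_pos, fun x hx => (hne ⟨x, hx⟩).elim⟩

/-- Bounds for a finite family of continuous functions. -/
theorem ke_bd {K : Set E3} (hK : IsCompact K) {ι : Type*} [Fintype ι] {F : ι → E3 → ℝ}
    (hF : ∀ i, ContinuousOn (F i) K) : ∃ C : ℝ, 0 ≤ C ∧ ∀ x ∈ K, ∀ i, |F i x| ≤ C := by
  choose C hC using fun i => hK.exists_bound_of_continuousOn (hF i)
  refine ⟨∑ i, |C i|, Finset.sum_nonneg fun i _ => abs_nonneg _, fun x hx i => ?_⟩
  have h1 := hC i x hx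
  rw [Real.norm_eq_abs] at h1
  exact (h1.trans (le_abs_self _)).trans
    (Finset.single_le_sum (f := fun i => |C i|) (fun j _ => abs_nonneg _) (Finset.mem_univ i))

theorem ke_v (u : Fin 3 → ℝ) (i : Fin 3) : |u i| ≤ Real.sqrt (vsq u) := by
  rw [← Real.sqrt_sq_eq_abs]
  exact Real.sqrt_le_sqrt (Finset.single_le_sum (f := fun i => u i ^ 2) (fun j _ => sq_nonneg _) (Finset.mem_univ i))

theorem ke_f (M : Matrix (Fin 3) (Fin 3) ℝ) (i j : Fin 3) : |M i j| ≤ Real.sqrt (fsq M) := by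
  rw [← Real.sqrt_sq_eq_abs]
  refine Real.sqrt_le_sqrt ?_
  have h1 : M i j ^ 2 ≤ ∑ j, M i j ^ 2 :=
    Finset.single_le_sum (f := fun j => M i j ^ 2) (fun j _ => sq_nonneg _) (Finset.mem_univ j)
  have h2 : ∑ j, M i j ^ 2 ≤ ∑ i, ∑ j, M i j ^ 2 :=
    Finset.single_le_sum (f := fun i => ∑ j, M i j ^ 2) (fun j _ => Finset.sum_nonneg fun _ _ => sq_nonneg _)
      (Finset.mem_univ i)
  exact h1.trans h2

theorem ke_mul {p q m n : ℝ} (hp : |p| ≤ m) (hq : |q| ≤ n) : |p * q| ≤ m * n := by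
  rw [abs_mul]
  exact mul_le_mul hp hq (abs_nonneg _) ((abs_nonneg _).trans hp)

theorem ke_sum {F : Fin 3 → ℝ} {c : ℝ} (h : ∀ i, |F i| ≤ c) : |∑ i, F i| ≤ 3 * c := by
  refine (Finset.abs_sum_le_sum_abs _ _).trans ((Finset.sum_le_sum fun i _ => h i).trans (le_of_eq ?_))
  simp

theorem ke_div {X A v s r : ℝ} (hX : |X| ≤ A * v) (hA : 0 ≤ A) (hr : 0 < r) (hs : 0 < s) (hv : r * v ≤ s) :
    |X / s| ≤ A / r := by
  rw [abs_div, abs_of_pos hs, div_le_div_iff₀ hs hr]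
  have h1 : |X| * r ≤ A * v * r := mul_le_mul_of_nonneg_right hX hr.le
  have h2 : A * (r * v) ≤ A * s := mul_le_mul_of_nonneg_left hv hA
  nlinarith

theorem ke_div3 {X A v s r : ℝ} (hX : |X| ≤ A * v ^ 3) (hA : 0 ≤ A) (hr : 0 < r) (hs : 0 < s) (hv0 : 0 ≤ v)
    (hv : r * v ≤ s) : |X / s ^ 3| ≤ A / r ^ 3 := by
  refine ke_div (v := v ^ 3) hX hA (pow_pos hr 3) (pow_pos hs 3) ?_
  rw [← mul_pow]
  exact pow_le_pow_left₀ (mul_nonneg hr.le hv0) hv 3

/-- **KE.** PROOF. Constants on the compact set `K ⊆ U`: `lam > 0` with `lam vsq u ≤ q1 (S x) u` (continuity, compactness of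
`K × sphere`), bounds `Lam` of `S`, `∂S`, `D1 w`, `D2 w` (`D2 w` symmetric: `kb_D2` and `Dk_comm`, or Schwarz). Let
`s := √(q1 + e)`, `q1 ≤ s²`, `s ≥ √lam √vsq`. `KF_div`: the sum is
`(1/s)[nsq - tr2² - (q1 P - tr2 T)/s²] + RR/s - kfR/(2s³)`, the bracket is `≥ lam²/10 fsq - 5 tr2²` (KD, `Y = s`),
`tr2²/s ≤ C0² vsq/s ≤ C` , `|RR| ≤ C √fsq √vsq` so `|RR|/s ≤ C`, `|kfR| ≤ C √fsq √vsq vsq`, so `|kfR|/s³ ≤ C`. -/
theorem KE_low {U : Set E3} (hU : IsOpen U) {w : E3 → ℝ} (hw : ContDiffOn ℝ ∞ w U) {S : Tens}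
    (hS : ∀ i j, ContDiffOn ℝ ∞ (fun x => S x i j) U) (hs : ∀ x ∈ U, ∀ i j, S x i j = S x j i)
    (hp : ∀ x ∈ U, ∀ u : Fin 3 → ℝ, u ≠ 0 → 0 < q1 (S x) u) {K : Set E3} (hK : IsCompact K) (hKU : K ⊆ U) {C0 : ℝ}
    (hC0 : ∀ x ∈ K, |tr2 (S x) (D2 w x)| ≤ C0 * Real.sqrt (vsq (D1 w x))) :
    ∃ κ C : ℝ, 0 < κ ∧ 0 ≤ C ∧ ∀ x ∈ K, ∀ e : ℝ, 0 < e → e ≤ 1 →
      κ * (fsq (D2 w x) / Real.sqrt (q1 (S x) (D1 w x) + e)) ≤
        ∑ i, pd i (fun y => W.VV S w i y / Real.sqrt (q1 (S y) (D1 w y) + e)) x + C ∧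
      ∀ i, |W.VV S w i x / Real.sqrt (q1 (S x) (D1 w x) + e)| ≤ C := by
  have cK : ∀ {F : E3 → ℝ}, ContDiffOn ℝ ∞ F U → ContinuousOn F K := fun hF => hF.continuousOn.mono hKU
  obtain ⟨lam, hlam, hell⟩ := ke_lower hK (fun i j => cK (hS i j)) (fun x hx => hp x (hKU hx))
  obtain ⟨L1, hL1, b1⟩ := ke_bd hK (F := fun (q : Fin 3 × Fin 3) x => S x q.1 q.2) (fun q => cK (hS q.1 q.2))
  obtain ⟨L2, hL2, b2⟩ := ke_bd hK (F := fun (q : Fin 3 × Fin 3 × Fin 3) x => pd q.1 (fun y => S y q.2.1 q.2.2) x)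
    (fun q => cK (smooth_pd hU (hS q.2.1 q.2.2) q.1))
  obtain ⟨L3, hL3, b3⟩ := ke_bd hK
    (F := fun (q : Fin 3 × Fin 3 × Fin 3 × Fin 3) x => pd q.1 (fun y => S y q.1 q.2.1 * S y q.2.2.1 q.2.2.2) x)
    (fun q => cK (smooth_pd hU ((hS q.1 q.2.1).mul (hS q.2.2.1 q.2.2.2)) q.1))
  obtain ⟨L4, hL4, b4⟩ := ke_bd hK (F := fun (q : Fin 3 × Fin 3) x => D2 w x q.1 q.2)
    (fun q => cK (smooth_pd hU (smooth_pd hU hw q.2) q.1))
  obtain ⟨L5, hL5, b5⟩ := ke_bd hK (F := fun (q : Fin 3) x => D1 w x q) (fun q => cK (smooth_pd hU hw q))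
  set L : ℝ := L1 + L2 + L3 + 3 * L4 + 2 * L5 with hL
  have hL0 : 0 ≤ L := by rw [hL]; positivity
  set r : ℝ := Real.sqrt lam with hrdef
  have hr : 0 < r := Real.sqrt_pos.mpr hlam
  have hr2 : r ^ 2 = lam := Real.sq_sqrt hlam.le
  refine ⟨1 / 10 * lam ^ 2, 5 * (C0 ^ 2 * L / r) + 162 * L ^ 2 / r + 1 / 2 * (27 * L * (54 * L ^ 3) / r ^ 3)
    + 54 * L ^ 3 / r, by positivity, by positivity, ?_⟩
  intro x hx e he he1
  have hxU := hKU hx
  -- sizes at the point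
  have hv0 : 0 ≤ vsq (D1 w x) := Finset.sum_nonneg fun i _ => sq_nonneg _
  have hf0 : 0 ≤ fsq (D2 w x) := Finset.sum_nonneg fun i _ => Finset.sum_nonneg fun j _ => sq_nonneg _
  have hq0 : lam * vsq (D1 w x) ≤ q1 (S x) (D1 w x) := hell x hx _
  have hqn : ∀ y ∈ U, 0 ≤ q1 (S y) (D1 w y) := by
    intro y hy
    by_cases h0 : D1 w y = 0
    · rw [h0]
      simp [q1]
    · exact (hp y hy _ h0).le
  have hqe : 0 < q1 (S x) (D1 w x) + e := by
    have := hqn x hxU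
    linarith
  set s : ℝ := Real.sqrt (q1 (S x) (D1 w x) + e) with hsdef
  have hs0 : 0 < s := Real.sqrt_pos.mpr hqe
  have hs2 : s ^ 2 = q1 (S x) (D1 w x) + e := Real.sq_sqrt hqe.le
  set v : ℝ := Real.sqrt (vsq (D1 w x)) with hvdef
  set f : ℝ := Real.sqrt (fsq (D2 w x)) with hfdef
  have hv : 0 ≤ v := Real.sqrt_nonneg _
  have hf : 0 ≤ f := Real.sqrt_nonneg _
  have hv2 : v ^ 2 = vsq (D1 w x) := Real.sq_sqrt hv0
  have hrv : r * v ≤ s := by
    rw [hrdef, hvdef, hsdef, ← Real.sqrt_mul hlam.le]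
    exact Real.sqrt_le_sqrt (by linarith)
  have hfL : f ≤ L := by
    have h1 : fsq (D2 w x) ≤ (3 * L4) ^ 2 := by
      unfold fsq
      have h2 : ∀ i j, D2 w x i j ^ 2 ≤ L4 ^ 2 := by
        intro i j
        rw [← sq_abs]
        exact pow_le_pow_left₀ (abs_nonneg _) (b4 x hx (i, j)) 2
      refine (Finset.sum_le_sum fun i _ => Finset.sum_le_sum fun j _ => h2 i j).trans (le_of_eq ?_)
      simp
      ring
    have h3 : f ≤ 3 * L4 := by
      rw [hfdef]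
      exact Real.sqrt_le_iff.mpr ⟨by positivity, h1⟩
    rw [hL]
    linarith
  have hvL : v ≤ L := by
    have h1 : vsq (D1 w x) ≤ (2 * L5) ^ 2 := by
      unfold vsq
      have h2 : ∀ i, D1 w x i ^ 2 ≤ L5 ^ 2 := by
        intro i
        rw [← sq_abs]
        exact pow_le_pow_left₀ (abs_nonneg _) (b5 x hx i) 2
      refine (Finset.sum_le_sum fun i _ => h2 i).trans ?_
      simp
      nlinarith [sq_nonneg L5]
    have h3 : v ≤ 2 * L5 := by
      rw [hvdef]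
      exact Real.sqrt_le_iff.mpr ⟨by positivity, h1⟩
    rw [hL]
    linarith
  have sS : ∀ i j, |S x i j| ≤ L := fun i j => (b1 x hx (i, j)).trans (by rw [hL]; linarith)
  have sdS : ∀ i j k, |pd i (fun y => S y j k) x| ≤ L := fun i j k => (b2 x hx (i, j, k)).trans (by rw [hL]; linarith)
  have sdSS : ∀ i j k l, |pd i (fun y => S y i j * S y k l) x| ≤ L := fun i j k l =>
    (b3 x hx (i, j, k, l)).trans (by rw [hL]; linarith)
  have s1 : ∀ i, |D1 w x i| ≤ v := fun i => ke_v _ i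
  have s2 : ∀ i j, |D2 w x i j| ≤ f := fun i j => ke_f _ i j
  have sc : ∀ j k l, |D2 w x j k * D1 w x l - D2 w x k l * D1 w x j| ≤ 2 * (f * v) := by
    intro j k l
    have h1 := ke_mul (s2 j k) (s1 l)
    have h2 := ke_mul (s2 k l) (s1 j)
    have h3 := abs_sub (D2 w x j k * D1 w x l) (D2 w x k l * D1 w x j)
    linarith
  have hfv : f * v ≤ L * v := mul_le_mul_of_nonneg_right hfL hv
  -- VV
  have hVV : ∀ i, |W.VV S w i x| ≤ 54 * L ^ 3 * v := by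
    intro i
    have h1 : |W.VV S w i x| ≤ 3 * (3 * (3 * (L * L * (2 * (f * v))))) := by
      unfold W.VV
      refine ke_sum fun j => ke_sum fun k => ke_sum fun l => ?_
      exact ke_mul (ke_mul (sS i j) (sS k l)) (sc j k l)
    refine h1.trans ?_
    have h2 : 3 * (3 * (3 * (L * L * (2 * (f * v))))) = 54 * L ^ 2 * (f * v) := by ring
    have h3 : 54 * L ^ 3 * v = 54 * L ^ 2 * (L * v) := by ring
    rw [h2, h3]
    exact mul_le_mul_of_nonneg_left hfv (by positivity)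
  have hRR : |W.RR S w x| ≤ 162 * L ^ 2 * v := by
    have h1 : |W.RR S w x| ≤ 3 * (3 * (3 * (3 * (L * (2 * (f * v)))))) := by
      unfold W.RR
      refine ke_sum fun i => ke_sum fun j => ke_sum fun k => ke_sum fun l => ?_
      exact ke_mul (sdSS i j k l) (sc j k l)
    refine h1.trans ?_
    have h2 : 3 * (3 * (3 * (3 * (L * (2 * (f * v)))))) = 162 * L * (f * v) := by ring
    have h3 : 162 * L ^ 2 * v = 162 * L * (L * v) := by ring
    rw [h2, h3]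
    exact mul_le_mul_of_nonneg_left hfv (by positivity)
  have hkR : |kfR S w x| ≤ 27 * L * (54 * L ^ 3) * v ^ 3 := by
    have h1 : |kfR S w x| ≤ 3 * (54 * L ^ 3 * v * (3 * (3 * (L * v * v)))) := by
      unfold kfR
      refine ke_sum fun i => ke_mul (hVV i) (ke_sum fun j => ke_sum fun k => ?_)
      exact ke_mul (ke_mul (sdS i j k) (s1 j)) (s1 k)
    refine h1.trans (le_of_eq ?_)
    ring
  have htr : |5 * tr2 (S x) (D2 w x) ^ 2| ≤ 5 * (C0 ^ 2 * L) * v := by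
    have h1 := hC0 x hx
    have h2 : tr2 (S x) (D2 w x) ^ 2 ≤ (C0 * v) ^ 2 := by
      rw [← sq_abs]
      exact pow_le_pow_left₀ (abs_nonneg _) h1 2
    rw [abs_of_nonneg (by positivity)]
    have h3 : (C0 * v) ^ 2 ≤ C0 ^ 2 * L * v := by
      have h4 : (C0 * v) ^ 2 = C0 ^ 2 * v * v := by ring
      rw [h4]
      refine mul_le_mul_of_nonneg_right (mul_le_mul_of_nonneg_left hvL (sq_nonneg _)) hv
    linarith
  have dRR := ke_div hRR (by positivity) hr hs0 hrv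
  have dkR := ke_div3 hkR (by positivity) hr hs0 hv hrv
  have dtr := ke_div htr (by positivity) hr hs0 hrv
  have dVV := fun i => ke_div (hVV i) (by positivity) hr hs0 hrv
  -- symmetry of D2
  have hsymm : ∀ i j, D2 w x i j = D2 w x j i := by
    intro i j
    have h1 := kb_D2 hU hw i j ⟨x, hxU⟩
    have h2 := kb_D2 hU hw j i ⟨x, hxU⟩
    rw [← h1, ← h2, Dk_comm]
  have hKD := KD_metric hlam (hs x hxU) hsymm (hell x hx) (D1 w x) hs0 (by rw [hs2]; linarith)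
  have hdiv := KF_div hU hw hS hs hqn he hxU
  constructor
  · rw [hdiv]
    rw [← hsdef]
    have e1 : q1 (S x) (fun i => ∑ j, ∑ k, D2 w x i j * S x j k * D1 w x k) = q1 (S x) (fun i => kfP S w i x) := rfl
    have e2 : (∑ i, ∑ j, S x i j * D1 w x j * ∑ k, ∑ l, D2 w x i k * S x k l * D1 w x l) =
        ∑ i, ∑ j, S x i j * D1 w x j * kfP S w i x := rfl
    rw [e1, e2] at hKD
    set N : ℝ := nsq (S x) (D2 w x) with hN
    set T2 : ℝ := tr2 (S x) (D2 w x) with hT2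
    set Q : ℝ := q1 (S x) (fun i => kfP S w i x) - T2 * ∑ i, ∑ j, S x i j * D1 w x j * kfP S w i x with hQ
    have h1 : 1 / 10 * lam ^ 2 * (fsq (D2 w x) / s) ≤ (N - T2 ^ 2 - Q / s ^ 2 + 5 * T2 ^ 2) / s := by
      rw [mul_div_assoc']
      exact div_le_div_of_nonneg_right hKD hs0.le
    have h2 : (N - T2 ^ 2 - Q / s ^ 2 + 5 * T2 ^ 2) / s = (N - T2 ^ 2 + W.RR S w x) / s - Q / s ^ 3
        - W.RR S w x / s + 5 * T2 ^ 2 / s := by
      field_simp
      ring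
    rw [h2] at h1
    rw [abs_le] at dRR dkR dtr
    have h3 : 5 * (C0 ^ 2 * L) / r = 5 * (C0 ^ 2 * L / r) := by ring
    rw [h3] at dtr
    have h4 : 0 ≤ 54 * L ^ 3 / r := by positivity
    linarith [dRR.1, dRR.2, dkR.1, dkR.2, dtr.1, dtr.2]
  · intro i
    refine (dVV i).trans ?_
    have h1 : 0 ≤ 5 * (C0 ^ 2 * L / r) := by positivity
    have h2 : 0 ≤ 162 * L ^ 2 / r := by positivity
    have h3 : 0 ≤ 1 / 2 * (27 * L * (54 * L ^ 3) / r ^ 3) := by positivity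
    linarith

end UMB
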