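import Pool.Agent.Lib.UMB.Op

/-! # UMB section 1 (lemma KF), chunk KZ: integral of a divergence -/

set_option autoImplicit false

open Filter Topology Set MeasureTheory
open scoped ContDiff BigOperators

namespace UMB

open Pool.Agent.Lib.PenroseSph (E3 Tens pd)

theorem kz_int {f : E3 → ℝ} (hf : ContDiff ℝ 1 f) (hc : HasCompactSupport f) (i : Fin 3) :
    Integrable (fun x => pd i f x) := by
  have h1 : Continuous (fun x => pd i f x) := by
    unfold pd
    have := hf.continuous_fderiv one_ne_zero
    fun_prop
  refine h1.integrable_of_hasCompactSupport ?_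
  unfold pd
  exact hc.fderiv_apply (𝕜 := ℝ) _

theorem kz_one {f : E3 → ℝ} (hf : ContDiff ℝ 1 f) (hc : HasCompactSupport f) (i : Fin 3) :
    ∫ x : E3, pd i f x = 0 := by
  have h1 := kz_int hf hc i
  unfold pd at h1 ⊢
  have h2 := integral_mul_fderiv_eq_neg_fderiv_mul_of_integrable (μ := (volume : Measure E3)) (𝕜 := ℝ)
    (f := fun _ : E3 => (1 : ℝ)) (g := f) (v := EuclideanSpace.single i 1) (by simp) (by simpa using h1)
    (by simpa using hf.continuous.integrable_of_hasCompactSupport hc) (fun x _ => differentiableAt_const _)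
    (fun x _ => (hf.differentiable one_ne_zero) x)
  simpa using h2

/-- **KG0.** The integral of the divergence of a compactly supported `C¹` field is zero. PROOF.
`integral_fderiv_eq_zero`-type lemma of Mathlib (e.g. `integral_mul_fderiv_eq_neg_fderiv_mul_of_integrable` with the constant
function, or `UMB.Lin.int_pd`-like), for each `i`. -/
theorem KG_zero {F : Fin 3 → E3 → ℝ} (hF : ∀ i, ContDiff ℝ 1 (F i)) (hc : ∀ i, HasCompactSupport (F i)) :
    ∫ x : E3, ∑ i, pd i (F i) x = 0 := by
  rw [integral_finset_sum]
  · refine Finset.sum_eq_zero fun i _ => ?_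
    exact kz_one (hF i) (hc i) i
  · intro i _
    exact kz_int (hF i) (hc i) i

end UMB
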