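import Pool.Agent.Lib.UMB.M.KE
import Pool.Agent.Lib.UMB.M.KZ

/-! # UMB section 1 (lemma KF), chunk KG: the integrated bound -/

set_option autoImplicit false

open Filter Topology Set MeasureTheory
open scoped ContDiff BigOperators

namespace UMB

open Pool.Agent.Lib.PenroseSph (E3 Tens pd)

/-- A cutoff function times a function which is smooth near its support. -/
theorem kg_mul {L U : Set E3} (hU : IsOpen U) (hL : IsClosed L) (hLU : L ⊆ U) {f : E3 → ℝ} (hf : ContDiff ℝ ∞ f)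
    (hf0 : ∀ x, x ∉ L → f x = 0) {v : E3 → ℝ} (hv : ContDiffOn ℝ ∞ v U) : ContDiff ℝ ∞ fun x => f x * v x := by
  rw [contDiff_iff_contDiffAt]
  intro x
  by_cases hx : x ∈ U
  · exact hf.contDiffAt.mul ((hv x hx).contDiffAt (hU.mem_nhds hx))
  · have h1 : (fun x => f x * v x) =ᶠ[𝓝 x] fun _ => 0 := by
      filter_upwards [hL.isOpen_compl.mem_nhds (fun h => hx (hLU h))] with y hy
      rw [hf0 y hy, zero_mul]
    exact contDiffAt_const.congr_of_eventuallyEq h1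

theorem kg_pd0 {L : Set E3} (hL : IsClosed L) {f : E3 → ℝ} (hf0 : ∀ x, x ∉ L → f x = 0) (i : Fin 3) {x : E3} (hx : x ∉ L) :
    pd i f x = 0 := by
  have h1 : f =ᶠ[𝓝 x] fun _ => 0 := by
    filter_upwards [hL.isOpen_compl.mem_nhds hx] with y hy
    exact hf0 y hy
  have h2 : pd i f x = pd i (fun _ => (0 : ℝ)) x := by
    unfold pd
    rw [h1.fderiv_eq]
  rw [h2]
  unfold pd
  simp

theorem kg_pdc {f : E3 → ℝ} (hf : ContDiff ℝ ∞ f) (i : Fin 3) : Continuous (pd i f) := by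
  unfold pd
  exact (hf.continuous_fderiv (by simp)).clm_apply continuous_const

theorem kg_pdmul {f v : E3 → ℝ} {x : E3} (hf : DifferentiableAt ℝ f x) (hv : DifferentiableAt ℝ v x) (i : Fin 3) :
    pd i (fun y => f y * v y) x = f x * pd i v x + pd i f x * v x := by
  unfold pd
  have h := (hf.hasFDerivAt.mul hv.hasFDerivAt).fderiv
  have e : (fun y => f y * v y) = f * v := rfl
  rw [e, h]
  simp only [add_apply, smul_apply, smul_eq_mul]
  ring

theorem kg_smooth {U : Set E3} (hU : IsOpen U) {w : E3 → ℝ} (hw : ContDiffOn ℝ ∞ w U) {S : Tens}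
    (hS : ∀ i j, ContDiffOn ℝ ∞ (fun x => S x i j) U) (h0 : ∀ x ∈ U, 0 ≤ q1 (S x) (D1 w x)) {e : ℝ} (he : 0 < e) :
    (∀ i, ContDiffOn ℝ ∞ (fun y => W.VV S w i y / Real.sqrt (q1 (S y) (D1 w y) + e)) U) ∧
      ContDiffOn ℝ ∞ (fun y => fsq (D2 w y) / Real.sqrt (q1 (S y) (D1 w y) + e)) U := by
  have h1 : ∀ i, ContDiffOn ℝ ∞ (fun y => D1 w y i) U := fun i => smooth_pd hU hw i
  have h2 : ∀ i j, ContDiffOn ℝ ∞ (fun y => D2 w y i j) U := fun i j => smooth_pd hU (smooth_pd hU hw j) i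
  have hq : ContDiffOn ℝ ∞ (fun y => q1 (S y) (D1 w y)) U := by
    unfold q1
    exact ContDiffOn.sum fun i _ => ContDiffOn.sum fun j _ => ((hS i j).mul (h1 i)).mul (h1 j)
  have hpos : ∀ y ∈ U, 0 < q1 (S y) (D1 w y) + e := fun y hy => by have := h0 y hy; linarith
  have hss : ContDiffOn ℝ ∞ (fun y => Real.sqrt (q1 (S y) (D1 w y) + e)) U :=
    (hq.add contDiffOn_const).sqrt fun y hy => (hpos y hy).ne'
  have hne : ∀ y ∈ U, Real.sqrt (q1 (S y) (D1 w y) + e) ≠ 0 := fun y hy => (Real.sqrt_pos.2 (hpos y hy)).ne'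
  refine ⟨fun i => ContDiffOn.div ?_ hss hne, ContDiffOn.div ?_ hss hne⟩
  · unfold W.VV
    exact ContDiffOn.sum fun j _ => ContDiffOn.sum fun k _ => ContDiffOn.sum fun l _ =>
      ((hS i j).mul (hS k l)).mul (((h2 j k).mul (h1 l)).sub ((h2 k l).mul (h1 j)))
  · unfold fsq
    exact ContDiffOn.sum fun i _ => ContDiffOn.sum fun j _ => (h2 i j).pow 2

/-- **KG.** PROOF. Smooth cutoff `ζ`, `0 ≤ ζ ≤ 1`, `ζ = 1` on `K`, compact support `K' := tsupport ζ ⊆ U`
(`exists_contDiff_tsupport_subset` or `exists_smooth_one_nhds...`). `F_i := ζ V_i/s` is globally smooth with compact support, so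
`0 = ∫ ∑ pd i F_i = ∫ ζ ∑ pd i (V_i/s) + ∫ ∑ (V_i/s) pd i ζ`; with KE on the compact set `K'` (constants `κ, C`):
`κ ∫ ζ fsq/s ≤ ∫ ζ ∑ pd i (V_i/s) + C ∫ ζ ≤ 3 C sup|∂ζ| vol(K') + C vol(K')`, and `∫_K ≤ ∫ ζ`. -/
theorem KG_bound {U : Set E3} (hU : IsOpen U) {w : E3 → ℝ} (hw : ContDiffOn ℝ ∞ w U) {S : Tens}
    (hS : ∀ i j, ContDiffOn ℝ ∞ (fun x => S x i j) U) (hs : ∀ x ∈ U, ∀ i j, S x i j = S x j i)
    (hp : ∀ x ∈ U, ∀ u : Fin 3 → ℝ, u ≠ 0 → 0 < q1 (S x) u) {K : Set E3} (hK : IsCompact K) (hKU : K ⊆ U) {C0 : ℝ}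
    (hC0 : ∀ x ∈ U, |tr2 (S x) (D2 w x)| ≤ C0 * Real.sqrt (vsq (D1 w x))) :
    ∃ C : ℝ, ∀ e : ℝ, 0 < e → e ≤ 1 → ∫ x in K, fsq (D2 w x) / Real.sqrt (q1 (S x) (D1 w x) + e) ≤ C := by
  have h0 : ∀ x ∈ U, 0 ≤ q1 (S x) (D1 w x) := by
    intro x hx
    by_cases h : D1 w x = 0
    · rw [h]
      unfold q1
      simp
    · exact (hp x hx _ h).le
  obtain ⟨L, hL, hKL, hLU⟩ := exists_compact_between hK hU hKU
  obtain ⟨f, hf1, hf2, hf3⟩ := exists_contMDiffMap_one_nhds_of_subset_interior (n := ⊤) (I := modelWithCornersSelf ℝ E3)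
    hK.isClosed hKL
  have hf : ContDiff ℝ ∞ (f : E3 → ℝ) := contMDiff_iff_contDiff.1 f.contMDiff
  obtain ⟨ζ, hζ⟩ : ∃ ζ : E3 → ℝ, ζ = f := ⟨_, rfl⟩
  rw [← hζ] at hf
  have hz0 : ∀ x, x ∉ L → ζ x = 0 := fun x hx => by rw [hζ]; exact hf2 x hx
  have hz1 : ∀ x ∈ K, ζ x = 1 := fun x hx => by
    rw [hζ]
    exact (hf1.filter_mono (nhds_le_nhdsSet hx)).self_of_nhds
  have hzn : ∀ x, 0 ≤ ζ x := fun x => by rw [hζ]; exact (hf3 x).1
  obtain ⟨κ, C, hκ, hC, hlow⟩ := KE_low hU hw hS hs hp hL hLU fun x hx => hC0 x (hLU hx)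
  -- the majorant
  let Hf : E3 → ℝ := fun x => C * ζ x + C * ∑ i, |pd i ζ x|
  have hHc : Continuous Hf := by
    refine (continuous_const.mul hf.continuous).add (continuous_const.mul ?_)
    exact continuous_finsetSum _ fun i _ => (kg_pdc hf i).abs
  have hHs : HasCompactSupport Hf := HasCompactSupport.intro hL fun x hx => by
    simp only [Hf]
    rw [hz0 x hx]
    simp only [kg_pd0 hL.isClosed hz0 _ hx]
    simp
  have hHn : ∀ x, 0 ≤ Hf x := fun x =>
    add_nonneg (mul_nonneg hC (hzn x)) (mul_nonneg hC (Finset.sum_nonneg fun i _ => abs_nonneg _))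
  refine ⟨(∫ x, Hf x) / κ, fun e he he1 => ?_⟩
  obtain ⟨sm1, sm2⟩ := kg_smooth hU hw hS h0 he
  let G : Fin 3 → E3 → ℝ := fun i y => W.VV S w i y / Real.sqrt (q1 (S y) (D1 w y) + e)
  let Q : E3 → ℝ := fun y => fsq (D2 w y) / Real.sqrt (q1 (S y) (D1 w y) + e)
  have hQ0 : ∀ x, 0 ≤ Q x := fun x => div_nonneg
    (Finset.sum_nonneg fun i _ => Finset.sum_nonneg fun j _ => sq_nonneg _) (Real.sqrt_nonneg _)
  have hF : ∀ i, ContDiff ℝ ∞ fun x => ζ x * G i x := fun i => kg_mul hU hL.isClosed hLU hf hz0 (sm1 i)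
  have hF0 : ∀ i, ∀ x, x ∉ L → ζ x * G i x = 0 := fun i x hx => by rw [hz0 x hx, zero_mul]
  have hFs : ∀ i, HasCompactSupport fun x => ζ x * G i x := fun i => HasCompactSupport.intro hL (hF0 i)
  have hzero : ∫ x, ∑ i, pd i (fun x => ζ x * G i x) x = 0 :=
    KG_zero (fun i => (hF i).of_le (by simp)) hFs
  have hQc : Continuous fun x => ζ x * Q x := (kg_mul hU hL.isClosed hLU hf hz0 sm2).continuous
  have hQs : HasCompactSupport fun x => ζ x * Q x := HasCompactSupport.intro hL fun x hx => by rw [hz0 x hx, zero_mul]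
  have hQi : Integrable fun x => ζ x * Q x := hQc.integrable_of_hasCompactSupport hQs
  have hDi : Integrable fun x => ∑ i, pd i (fun x => ζ x * G i x) x := by
    refine integrable_finsetSum _ fun i _ => ?_
    exact (kg_pdc (hF i) i).integrable_of_hasCompactSupport
      (HasCompactSupport.intro hL fun x hx => kg_pd0 hL.isClosed (hF0 i) i hx)
  have hHi : Integrable Hf := hHc.integrable_of_hasCompactSupport hHs
  have hpt : ∀ x, κ * (ζ x * Q x) ≤ ∑ i, pd i (fun x => ζ x * G i x) x + Hf x := by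
    intro x
    by_cases hx : x ∈ L
    · obtain ⟨a1, a2⟩ := hlow x hx e he he1
      have hxU : U ∈ 𝓝 x := hU.mem_nhds (hLU hx)
      have e1 : ∀ i, pd i (fun x => ζ x * G i x) x = ζ x * pd i (G i) x + pd i ζ x * G i x := fun i =>
        kg_pdmul (hf.contDiffAt.differentiableAt (by simp)) (((sm1 i).contDiffAt hxU).differentiableAt (by simp)) i
      have e2 : ∑ i, pd i (fun x => ζ x * G i x) x = ζ x * ∑ i, pd i (G i) x + ∑ i, pd i ζ x * G i x := by
        simp only [e1]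
        rw [Finset.sum_add_distrib, Finset.mul_sum]
      have e3 : -(C * ∑ i, |pd i ζ x|) ≤ ∑ i, pd i ζ x * G i x := by
        rw [Finset.mul_sum, ← Finset.sum_neg_distrib]
        refine Finset.sum_le_sum fun i _ => ?_
        have h1 : |pd i ζ x * G i x| ≤ C * |pd i ζ x| := by
          rw [abs_mul, mul_comm C]
          exact mul_le_mul_of_nonneg_left (a2 i) (abs_nonneg _)
        exact (abs_le.1 h1).1
      have e4 : ζ x * (κ * Q x) ≤ ζ x * (∑ i, pd i (G i) x + C) := mul_le_mul_of_nonneg_left a1 (hzn x)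
      rw [e2]
      simp only [Hf]
      have e5 : κ * (ζ x * Q x) = ζ x * (κ * Q x) := by ring
      rw [e5]
      linarith
    · rw [hz0 x hx]
      have e1 : ∑ i, pd i (fun x => ζ x * G i x) x = 0 :=
        Finset.sum_eq_zero fun i _ => kg_pd0 hL.isClosed (hF0 i) i hx
      rw [e1]
      have := hHn x
      linarith
  have hint : κ * ∫ x, ζ x * Q x ≤ ∫ x, Hf x := by
    rw [← integral_const_mul]
    calc ∫ x, κ * (ζ x * Q x) ≤ ∫ x, (∑ i, pd i (fun x => ζ x * G i x) x + Hf x) :=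
          integral_mono (hQi.const_mul κ) (hDi.add hHi) hpt
      _ = ∫ x, Hf x := by rw [integral_add hDi hHi, hzero, zero_add]
  have hK1 : ∫ x in K, Q x = ∫ x in K, ζ x * Q x := by
    refine setIntegral_congr_fun hK.measurableSet fun x hx => ?_
    simp only [hz1 x hx, one_mul]
  have hK2 : ∫ x in K, ζ x * Q x ≤ ∫ x, ζ x * Q x :=
    setIntegral_le_integral hQi (Filter.Eventually.of_forall fun x => mul_nonneg (hzn x) (hQ0 x))
  change ∫ x in K, Q x ≤ _
  rw [hK1, le_div_iff₀ hκ]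
  calc (∫ x in K, ζ x * Q x) * κ ≤ (∫ x, ζ x * Q x) * κ := mul_le_mul_of_nonneg_right hK2 hκ.le
    _ = κ * ∫ x, ζ x * Q x := mul_comm _ _
    _ ≤ ∫ x, Hf x := hint

end UMB
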