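import Pool.Agent.Lib.UMB.Op

/-! # UMB section 1 (lemma KF), chunk KX: Fatou -/

set_option autoImplicit false

open Filter Topology Set MeasureTheory
open scoped ContDiff BigOperators

namespace UMB

open Pool.Agent.Lib.PenroseSph (E3 Tens pd)

/-- **KH0.** PROOF. `e_n := 1/(n+1)`; `f_n := F/√(q + e_n) ≥ 0` continuous on `K`, `∫⁻_K ofReal f_n ≤ ofReal C`. Fatou
(`lintegral_liminf_le`): `∫⁻_K liminf ofReal f_n ≤ ofReal C < ∞`. At a point with `q = 0 < F` the liminf is `∞`, so the set of
these points is null (`ae_lt_top`); at a point with `q > 0` it is `ofReal (F/√q)`; at `F = 0` both are `0`. -/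
theorem KH_fatou {K : Set E3} (hK : IsCompact K) {F q : E3 → ℝ} (hF : ContinuousOn F K) (hq : ContinuousOn q K)
    (hF0 : ∀ x ∈ K, 0 ≤ F x) (hq0 : ∀ x ∈ K, 0 ≤ q x) {C : ℝ}
    (h : ∀ e : ℝ, 0 < e → e ≤ 1 → ∫ x in K, F x / Real.sqrt (q x + e) ≤ C) :
    IntegrableOn (fun x => F x / Real.sqrt (q x)) K ∧ ∀ᵐ x ∂(volume.restrict K), q x = 0 → F x = 0 := by
  classical
  set μ : Measure E3 := volume.restrict K with hμ
  have hmK : MeasurableSet K := hK.measurableSet
  have hmem : ∀ᵐ x ∂μ, x ∈ K := ae_restrict_mem hmK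
  set e : ℕ → ℝ := fun n => 1 / ((n : ℝ) + 1) with he
  have he0 : ∀ n, 0 < e n := fun n => by
    rw [he]
    positivity
  have he1 : ∀ n, e n ≤ 1 := fun n => by
    rw [he]
    simp only
    rw [div_le_one (by positivity)]
    have : (0 : ℝ) ≤ n := Nat.cast_nonneg n
    linarith
  have helim : Tendsto e atTop (𝓝 0) := tendsto_one_div_add_atTop_nhds_zero_nat
  set f : ℕ → E3 → ℝ := fun n x => F x / Real.sqrt (q x + e n) with hf
  have hfc : ∀ n, ContinuousOn (f n) K := by
    intro n
    rw [hf]
    apply hF.div (Real.continuous_sqrt.comp_continuousOn (hq.add continuousOn_const))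
    intro x hx
    have h1 := hq0 x hx
    have h2 := he0 n
    have h3 : 0 < q x + e n := by linarith
    exact (Real.sqrt_pos.2 h3).ne'
  have hf0 : ∀ n, ∀ x ∈ K, 0 ≤ f n x := by
    intro n x hx
    rw [hf]
    exact div_nonneg (hF0 x hx) (Real.sqrt_nonneg _)
  have hfi : ∀ n, Integrable (f n) μ := fun n => (hfc n).integrableOn_compact hK
  have hfle : ∀ n, ∫⁻ x, ENNReal.ofReal (f n x) ∂μ ≤ ENNReal.ofReal C := by
    intro n
    rw [← ofReal_integral_eq_lintegral_ofReal (hfi n)]
    · exact ENNReal.ofReal_le_ofReal (h (e n) (he0 n) (he1 n))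
    · filter_upwards [hmem] with x hx
      exact hf0 n x hx
  have hmeas : ∀ n, AEMeasurable (fun x => ENNReal.ofReal (f n x)) μ := fun n =>
    (hfi n).aestronglyMeasurable.aemeasurable.ennreal_ofReal
  have hfatou : ∫⁻ x, liminf (fun n => ENNReal.ofReal (f n x)) atTop ∂μ ≤ ENNReal.ofReal C := by
    refine (lintegral_liminf_le' hmeas).trans ?_
    refine liminf_le_of_le ?_ ?_
    · isBoundedDefault
    · intro b hb
      obtain ⟨n, hn⟩ := hb.exists
      exact hn.trans (hfle n)
  have hgm : AEMeasurable (fun x => liminf (fun n => ENNReal.ofReal (f n x)) atTop) μ :=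
    ⟨fun x => liminf (fun n => (hmeas n).mk _ x) atTop,
      Measurable.liminf (fun n => (hmeas n).measurable_mk), by
        have hall := ae_all_iff.2 (fun n => (hmeas n).ae_eq_mk)
        filter_upwards [hall] with x hx
        have h1 : (fun n => ENNReal.ofReal (f n x)) = fun n => (hmeas n).mk _ x := funext hx
        rw [h1]⟩
  have hfin : ∀ᵐ x ∂μ, liminf (fun n => ENNReal.ofReal (f n x)) atTop < ⊤ :=
    ae_lt_top' hgm (lt_of_le_of_lt hfatou ENNReal.ofReal_lt_top).ne
  have hzero : ∀ᵐ x ∂μ, q x = 0 → F x = 0 := by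
    filter_upwards [hmem, hfin] with x hx hx2 hqx
    by_contra hFx
    have hFpos : 0 < F x := lt_of_le_of_ne (hF0 x hx) (Ne.symm hFx)
    have h1 : Tendsto (fun n => f n x) atTop atTop := by
      have h2 : Tendsto (fun n => Real.sqrt (q x + e n)) atTop (𝓝[>] 0) := by
        rw [tendsto_nhdsWithin_iff]
        constructor
        · have h3 : Tendsto (fun n => Real.sqrt (q x + e n)) atTop (𝓝 (Real.sqrt (q x + 0))) :=
            (Real.continuous_sqrt.tendsto _).comp (tendsto_const_nhds.add helim)
          rw [hqx, add_zero, Real.sqrt_zero] at h3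
          rw [hqx]
          exact h3
        · filter_upwards with n
          have h4 := he0 n
          exact Real.sqrt_pos.2 (by rw [hqx]; linarith)
      have h3 : Tendsto (fun n => (Real.sqrt (q x + e n))⁻¹) atTop atTop :=
        tendsto_inv_nhdsGT_zero.comp h2
      have h4 : Tendsto (fun n => F x * (Real.sqrt (q x + e n))⁻¹) atTop atTop :=
        Tendsto.const_mul_atTop hFpos h3
      refine h4.congr fun n => ?_
      rw [hf]
      simp only [div_eq_mul_inv]
    have h2 : Tendsto (fun n => ENNReal.ofReal (f n x)) atTop (𝓝 ⊤) :=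
      ENNReal.tendsto_ofReal_atTop.comp h1
    rw [h2.liminf_eq] at hx2
    exact lt_irrefl _ hx2
  refine ⟨?_, hzero⟩
  have hlim : ∀ᵐ x ∂μ, ENNReal.ofReal (F x / Real.sqrt (q x)) =
      liminf (fun n => ENNReal.ofReal (f n x)) atTop := by
    filter_upwards [hmem, hzero] with x hx hx0
    rcases (hq0 x hx).eq_or_lt with h0 | h0
    · have hFx : F x = 0 := hx0 h0.symm
      have h1 : (fun n => ENNReal.ofReal (f n x)) = fun _ => 0 := by
        funext n
        rw [hf]
        simp [hFx]
      rw [h1, hFx]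
      simp
    · have h1 : Tendsto (fun n => f n x) atTop (𝓝 (F x / Real.sqrt (q x))) := by
        rw [hf]
        apply Tendsto.div tendsto_const_nhds
        · have h3 : Tendsto (fun n => Real.sqrt (q x + e n)) atTop (𝓝 (Real.sqrt (q x + 0))) :=
            (Real.continuous_sqrt.tendsto _).comp (tendsto_const_nhds.add helim)
          rw [add_zero] at h3
          exact h3
        · exact (Real.sqrt_pos.2 h0).ne'
      have h2 : Tendsto (fun n => ENNReal.ofReal (f n x)) atTop (𝓝 (ENNReal.ofReal (F x / Real.sqrt (q x)))) :=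
        (ENNReal.continuous_ofReal.tendsto _).comp h1
      exact h2.liminf_eq.symm
  constructor
  · have h1 : AEMeasurable F μ := (hF.aestronglyMeasurable hmK).aemeasurable
    have h2 : AEMeasurable q μ := (hq.aestronglyMeasurable hmK).aemeasurable
    exact (h1.div (Real.continuous_sqrt.measurable.comp_aemeasurable h2)).aestronglyMeasurable
  · rw [hasFiniteIntegral_iff_ofReal]
    · rw [lintegral_congr_ae hlim]
      exact lt_of_le_of_lt hfatou ENNReal.ofReal_lt_top
    · filter_upwards [hmem] with x hx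
      exact div_nonneg (hF0 x hx) (Real.sqrt_nonneg _)

end UMB
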