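import Pool.Agent.Lib.UMB.M.KG
import Pool.Agent.Lib.UMB.M.KX
import Pool.Agent.Lib.UMB.W.A4

/-! # UMB section 1 (lemma KF), chunk KH: integrability (monotone convergence) -/

set_option autoImplicit false

open Filter Topology Set MeasureTheory
open scoped ContDiff BigOperators

namespace UMB

open Pool.Agent.Lib.PenroseSph (E3 Tens pd)

theorem kh_D1_cont {U : Set E3} (hU : IsOpen U) {w : E3 → ℝ} (hw : ContDiffOn ℝ ∞ w U) (i : Fin 3) :
    ContinuousOn (fun x => D1 w x i) U := by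
  have h2 : ContDiffOn ℝ 1 (fderiv ℝ w) U := hw.fderiv_of_isOpen hU (m := 1) (by norm_cast)
  exact h2.continuousOn.clm_apply continuousOn_const

theorem kh_D2_cont {U : Set E3} (hU : IsOpen U) {w : E3 → ℝ} (hw : ContDiffOn ℝ ∞ w U) (i j : Fin 3) :
    ContinuousOn (fun x => D2 w x i j) U := by
  have h2 : ContDiffOn ℝ 1 (fderiv ℝ w) U := hw.fderiv_of_isOpen hU (m := 1) (by norm_cast)
  have h3 : ContDiffOn ℝ 1 (pd j w) U := h2.clm_apply contDiffOn_const
  have h4 : ContinuousOn (fderiv ℝ (pd j w)) U := h3.continuousOn_fderiv_of_isOpen hU (by norm_num)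
  exact h4.clm_apply continuousOn_const

theorem KF_local {U : Set E3} (hU : IsOpen U) {w : E3 → ℝ} (hw : ContDiffOn ℝ ∞ w U) {S : Tens}
    (hS : ∀ i j, ContDiffOn ℝ ∞ (fun x => S x i j) U) (hs : ∀ x ∈ U, ∀ i j, S x i j = S x j i)
    (hp : ∀ x ∈ U, ∀ u : Fin 3 → ℝ, u ≠ 0 → 0 < q1 (S x) u) {K : Set E3} (hK : IsCompact K) (hKU : K ⊆ U) {C0 : ℝ}
    (hC0 : ∀ x ∈ U, |tr2 (S x) (D2 w x)| ≤ C0 * Real.sqrt (vsq (D1 w x))) :
    IntegrableOn (fun x => fsq (D2 w x) / Real.sqrt (vsq (D1 w x))) K ∧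
      ∀ᵐ x ∂(volume.restrict K), D1 w x = 0 → D2 w x = 0 := by
  obtain ⟨C, hC⟩ := KG_bound hU hw hS hs hp hK hKU hC0
  have hKm : MeasurableSet K := hK.measurableSet
  have cF : ContinuousOn (fun x => fsq (D2 w x)) K := by
    unfold fsq
    exact continuousOn_finsetSum _ fun i _ => continuousOn_finsetSum _ fun j _ =>
      ((kh_D2_cont hU hw i j).mono hKU).pow 2
  have cV : ContinuousOn (fun x => vsq (D1 w x)) K := by
    unfold vsq
    exact continuousOn_finsetSum _ fun i _ => ((kh_D1_cont hU hw i).mono hKU).pow 2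
  have cq : ContinuousOn (fun x => q1 (S x) (D1 w x)) K := by
    unfold q1
    exact continuousOn_finsetSum _ fun i _ => continuousOn_finsetSum _ fun j _ =>
      ((((hS i j).continuousOn).mono hKU).mul ((kh_D1_cont hU hw i).mono hKU)).mul
        ((kh_D1_cont hU hw j).mono hKU)
  have hF0 : ∀ x, 0 ≤ fsq (D2 w x) := fun x =>
    Finset.sum_nonneg fun _ _ => Finset.sum_nonneg fun _ _ => sq_nonneg _
  have hq0 : ∀ x ∈ K, 0 ≤ q1 (S x) (D1 w x) := by
    intro x hx
    by_cases h : D1 w x = 0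
    · rw [h]
      simp [q1]
    · exact (hp x (hKU hx) _ h).le
  obtain ⟨hI, hae⟩ := KH_fatou hK cF cq (fun x _ => hF0 x) hq0 hC
  choose Bd hBd using fun i j => hK.exists_bound_of_continuousOn (((hS i j).continuousOn).mono hKU)
  set Lam : ℝ := ∑ i, ∑ j, |Bd i j| with hLam
  have hLam0 : 0 ≤ Lam := Finset.sum_nonneg fun _ _ => Finset.sum_nonneg fun _ _ => abs_nonneg _
  have hbd : ∀ x ∈ K, ∀ i j, |S x i j| ≤ Lam := by
    intro x hx i j
    have e1 : |S x i j| ≤ |Bd i j| := (hBd i j x hx).trans (le_abs_self _)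
    have e2 : |Bd i j| ≤ ∑ j, |Bd i j| :=
      Finset.single_le_sum (f := fun j => |Bd i j|) (fun _ _ => abs_nonneg _) (Finset.mem_univ j)
    have e3 : ∑ j, |Bd i j| ≤ Lam :=
      Finset.single_le_sum (f := fun i => ∑ j, |Bd i j|)
        (fun _ _ => Finset.sum_nonneg fun _ _ => abs_nonneg _) (Finset.mem_univ i)
    linarith
  constructor
  · have hm : AEStronglyMeasurable (fun x => fsq (D2 w x) / Real.sqrt (vsq (D1 w x))) (volume.restrict K) := by
      have m1 : AEMeasurable (fun x => fsq (D2 w x)) (volume.restrict K) := cF.aemeasurable hKm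
      have m2 : AEMeasurable (fun x => Real.sqrt (vsq (D1 w x))) (volume.restrict K) :=
        (cV.aemeasurable hKm).sqrt
      exact (m1.div m2).aestronglyMeasurable
    refine Integrable.mono' (hI.const_mul (Real.sqrt (9 * Lam))) hm ?_
    filter_upwards [ae_restrict_mem hKm] with x hx
    rw [Real.norm_eq_abs, abs_of_nonneg (div_nonneg (hF0 x) (Real.sqrt_nonneg _))]
    by_cases hD : D1 w x = 0
    · have : vsq (D1 w x) = 0 := by rw [hD]; simp [vsq]
      rw [this, Real.sqrt_zero, div_zero]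
      exact mul_nonneg (Real.sqrt_nonneg _) (div_nonneg (hF0 x) (Real.sqrt_nonneg _))
    · have hqpos : 0 < q1 (S x) (D1 w x) := hp x (hKU hx) _ hD
      have hqle : q1 (S x) (D1 w x) ≤ 9 * Lam * vsq (D1 w x) := W.q1_le (hbd x hx) _
      have hvpos : 0 < vsq (D1 w x) := by
        by_contra hc
        push Not at hc
        have : 9 * Lam * vsq (D1 w x) ≤ 0 := mul_nonpos_of_nonneg_of_nonpos (by positivity) hc
        linarith
      have h1 : Real.sqrt (q1 (S x) (D1 w x)) ≤ Real.sqrt (9 * Lam) * Real.sqrt (vsq (D1 w x)) := by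
        rw [← Real.sqrt_mul (by positivity)]
        exact Real.sqrt_le_sqrt hqle
      have h2 : 0 < Real.sqrt (q1 (S x) (D1 w x)) := Real.sqrt_pos.2 hqpos
      have h3 : 0 < Real.sqrt (vsq (D1 w x)) := Real.sqrt_pos.2 hvpos
      rw [mul_div_assoc', div_le_div_iff₀ h3 h2]
      calc fsq (D2 w x) * Real.sqrt (q1 (S x) (D1 w x))
          ≤ fsq (D2 w x) * (Real.sqrt (9 * Lam) * Real.sqrt (vsq (D1 w x))) :=
            mul_le_mul_of_nonneg_left h1 (hF0 x)
        _ = _ := by ring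
  · filter_upwards [hae] with x hx hD
    have h1 : q1 (S x) (D1 w x) = 0 := by rw [hD]; simp [q1]
    have h2 : fsq (D2 w x) = 0 := hx h1
    ext i j
    have h3 := W.a4_ent (D2 w x) i j
    rw [h2] at h3
    have h4 : D2 w x i j ^ 2 = 0 := le_antisymm h3 (sq_nonneg _)
    exact pow_eq_zero_iff (n := 2) (by norm_num) |>.1 h4

end UMB
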