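import Pool.Agent.Lib.UMB.M.KH
import Pool.Agent.Lib.UMB.M.Defs
import Pool.Agent.Lib.UMB.Lin.P5
import Pool.Agent.Lib.UMB.Lin.P6
import Pool.Agent.Lib.UMB.Lin.P4

/-! # UMB section 1 (lemma KF), chunk KI: lemma KF for the solution -/

set_option autoImplicit false

open Filter Topology Set MeasureTheory
open scoped ContDiff BigOperators

namespace UMB

open Pool.Agent.Lib.PenroseSph (E3 Tens pd)

/-- **KI1.** PROOF. `S x := Matrix.of fun i j => UMB.Lin.ga D v i j x` is globally smooth (`UMB.Lin.p5_ub`: the family `UBf`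
contains smoothness), symmetric (`p6_symm`), `= D.aa v x` on `cAnn` (`p4_eq`), positive definite on `cAnn` (`p6_ell`).
`K01 D.R v` from `hv.cont, nonneg, le_one`. The equation `hv.solves`: `tr2 (aa) (D2 v) = - ∑ bb_i D1 v_i`, `bb` bounded on
`cAnn` (continuous, `p5_ub`). On `U = ann D.R`: KF_local. -/
theorem KI_local {D : OpData} (hD : D.Ok) {v : E3 → ℝ} (hv : W.Sol D v) {K : Set E3} (hK : IsCompact K)
    (hKU : K ⊆ ann D.R) : IntegrableOn (fun x => fsq (D2 v x) / Real.sqrt (vsq (D1 v x))) K ∧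
      ∀ᵐ x ∂(volume.restrict K), D1 v x = 0 → D2 v x = 0 := by
  have hR := hD.one_lt_R
  have hK01 : UMB.Lin.K01 D.R v := by
    unfold UMB.Lin.K01
    exact ⟨hv.cont, fun x hx => ⟨hv.nonneg x hx, hv.le_one x hx⟩⟩
  obtain ⟨hga, hgb⟩ := UMB.Lin.p5_ub hD
  have hS : ∀ i j, ContDiff ℝ ∞ (fun x => UMB.Lin.ga D v i j x) := fun i j =>
    (hga i j).smooth ⟨v, hK01⟩
  have hB : ∀ i, ContDiff ℝ ∞ (fun x => UMB.Lin.gb D v i x) := fun i => (hgb i).smooth ⟨v, hK01⟩
  have hbd : ∀ i : Fin 3, ∃ C : ℝ, ∀ x ∈ UMB.Lin.cAnn D.R, |UMB.Lin.gb D v i x| ≤ C := by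
    intro i
    obtain ⟨C, hC⟩ := (UMB.Lin.isCompact_cAnn D.R).exists_bound_of_continuousOn
      (hB i).continuous.continuousOn
    exact ⟨C, fun x hx => by simpa [Real.norm_eq_abs] using hC x hx⟩
  choose C hC using hbd
  obtain ⟨lam, hlam, hell⟩ := UMB.Lin.p6_ell hD
  have hsub : ∀ x ∈ ann D.R, x ∈ UMB.Lin.cAnn D.R := fun x hx => ⟨hx.1.le, hx.2.le⟩
  refine KF_local (U := ann D.R) (UMB.Lin.isOpen_Ann D.R) hv.smooth
    (S := fun x => Matrix.of fun i j => UMB.Lin.ga D v i j x)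
    (fun i j => (hS i j).contDiffOn) (fun x _ i j => UMB.Lin.p6_symm hD v i j x) ?_ hK hKU
    (C0 := ∑ i, C i) ?_
  · intro x hx u hu
    have h1 := hell v hK01 x (hsub x hx) u
    have h2 : 0 < ∑ i, u i ^ 2 := by
      have h3 : 0 ≤ ∑ i, u i ^ 2 := Finset.sum_nonneg fun i _ => sq_nonneg _
      rcases h3.eq_or_lt with h4 | h4
      · exfalso
        apply hu
        funext i
        have h5 := (Finset.sum_eq_zero_iff_of_nonneg (fun i _ => sq_nonneg (u i))).1 h4.symm i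
          (Finset.mem_univ i)
        exact pow_eq_zero_iff (two_ne_zero) |>.1 h5
      · exact h4
    have h3 : 0 < lam * ∑ i, u i ^ 2 := mul_pos hlam h2
    exact lt_of_lt_of_le h3 h1
  · intro x hx
    have hx' := hsub x hx
    obtain ⟨_, h2, h3⟩ := UMB.Lin.p4_eq hD v hx'.1
    have hsol := hv.solves x hx
    have e1 : tr2 (Matrix.of fun i j => UMB.Lin.ga D v i j x) (D2 v x) = tr2 (D.aa v x) (D2 v x) := by
      unfold tr2
      refine Finset.sum_congr rfl fun i _ => Finset.sum_congr rfl fun j _ => ?_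
      rw [Matrix.of_apply, h2 i j]
    rw [e1]
    have e2 : tr2 (D.aa v x) (D2 v x) = -∑ i, UMB.Lin.gb D v i x * D1 v x i := by
      have : ∑ i, UMB.Lin.gb D v i x * D1 v x i = ∑ i, D.bb v x i * D1 v x i :=
        Finset.sum_congr rfl fun i _ => by rw [h3 i]
      rw [this]
      linarith
    rw [e2, abs_neg]
    refine (Finset.abs_sum_le_sum_abs _ _).trans ?_
    rw [Finset.sum_mul]
    refine Finset.sum_le_sum fun i _ => ?_
    rw [abs_mul]
    apply mul_le_mul (hC i x hx') _ (abs_nonneg _) ((abs_nonneg _).trans (hC i x hx'))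
    apply Real.abs_le_sqrt
    exact Finset.single_le_sum (f := fun j => D1 v x j ^ 2) (fun j _ => sq_nonneg _) (Finset.mem_univ i)

end UMB
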