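import Pool.Agent.Lib.UMB.M.KI

/-! # UMB section 1 (lemma KF), chunk KJ: lemma KF up to the spheres -/

set_option autoImplicit false

open Filter Topology Set MeasureTheory
open scoped ContDiff BigOperators

namespace UMB

open Pool.Agent.Lib.PenroseSph (E3 Tens pd)

/-- partial derivatives of `C^(n+1)` functions -/
theorem kj_pd {W : Set E3} (hW : IsOpen W) {n m : WithTop ℕ∞} (hnm : n + 1 ≤ m) {f : E3 → ℝ}
    (hf : ContDiffOn ℝ m f W) (k : Fin 3) : ContDiffOn ℝ n (pd k f) W := by
  have h2 : ContDiffOn ℝ n (fun x => fderiv ℝ f x) W := hf.fderiv_of_isOpen hW hnm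
  exact h2.clm_apply contDiffOn_const

/-- **KI2.** PROOF. `v` is `C³` near the compact set `cann R` and `D1 v ≠ 0` on the spheres: there is `δ > 0` with
`vsq (D1 v) ≥ δ` and `fsq (D2 v)` bounded for `1 ≤ |x| ≤ 1 + δ` and `R - δ ≤ |x| ≤ R` (compactness: otherwise a sequence
with `D1 v → 0` converging to a point of a sphere). So the quotient is bounded and continuous there; the rest
`{1 + δ ≤ |x| ≤ R - δ}` is compact in `ann R`: KI1. -/
theorem KI_global {D : OpData} (hD : D.Ok) {v : E3 → ℝ} (hv : SolX D v) :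
    IntegrableOn (fun x => fsq (D2 v x) / Real.sqrt (vsq (D1 v x))) (ann D.R) ∧
      ∀ᵐ x ∂(volume.restrict (ann D.R)), D1 v x = 0 → D2 v x = 0 := by
  obtain ⟨W, hWo, hcW, hv3⟩ := hv.c3
  have hR := hD.one_lt_R
  have h1 : ∀ i, ContDiffOn ℝ 2 (pd i v) W := fun i => kj_pd hWo (by norm_num) hv3 i
  have h2 : ∀ i j, ContDiffOn ℝ 1 (pd i (pd j v)) W := fun i j => kj_pd hWo (by norm_num) (h1 j) i
  set q : E3 → ℝ := fun x => vsq (D1 v x) with hq
  set F : E3 → ℝ := fun x => fsq (D2 v x) with hF
  have hqc : ContinuousOn q (cann D.R) := by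
    have : ContinuousOn q W := by
      rw [hq]
      unfold vsq D1
      exact continuousOn_finsetSum _ fun i _ => ((h1 i).continuousOn).pow 2
    exact this.mono hcW
  have hFc : ContinuousOn F (cann D.R) := by
    have : ContinuousOn F W := by
      rw [hF]
      unfold fsq D2
      exact continuousOn_finsetSum _ fun i _ => continuousOn_finsetSum _ fun j _ =>
        ((h2 i j).continuousOn).pow 2
    exact this.mono hcW
  have hcc : IsCompact (cann D.R) := UMB.Lin.isCompact_cAnn D.R
  have hclosed : IsClosed (cann D.R) := hcc.isClosed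
  -- positivity on the spheres
  have hmin : ∀ r : ℝ, (r = 1 ∨ r = D.R) → ∃ c : ℝ, 0 < c ∧ ∀ x : E3, ‖x‖ = r → c ≤ q x := by
    intro r hr
    have hr1 : 1 ≤ r := by
      rcases hr with h | h
      · exact h.ge
      · rw [h]
        exact hR.le
    have hrR : r ≤ D.R := by
      rcases hr with h | h
      · rw [h]
        exact hR.le
      · exact h.le
    have hsub : Metric.sphere (0 : E3) r ⊆ cann D.R := by
      intro x hx
      rw [mem_sphere_zero_iff_norm] at hx
      exact ⟨by rw [hx]; exact hr1, by rw [hx]; exact hrR⟩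
    have hne : (Metric.sphere (0 : E3) r).Nonempty := by
      obtain ⟨y, hy⟩ := exists_norm_eq E3 (show (0 : ℝ) ≤ r by linarith)
      exact ⟨y, by rw [mem_sphere_zero_iff_norm]; exact hy⟩
    obtain ⟨x0, hx0, hx1⟩ := (isCompact_sphere (0 : E3) r).exists_isMinOn hne (hqc.mono hsub)
    refine ⟨q x0, ?_, fun x hx => hx1 (by rw [mem_sphere_zero_iff_norm]; exact hx)⟩
    rw [mem_sphere_zero_iff_norm] at hx0
    have hnz : D1 v x0 ≠ 0 := by
      apply hv.nz x0
      rcases hr with h | h
      · left
        rw [hx0, h]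
      · right
        rw [hx0, h]
    rw [hq]
    simp only
    unfold vsq
    have h3 : 0 ≤ ∑ i, D1 v x0 i ^ 2 := Finset.sum_nonneg fun i _ => sq_nonneg _
    rcases h3.eq_or_lt with h4 | h4
    · exfalso
      apply hnz
      funext i
      have h5 := (Finset.sum_eq_zero_iff_of_nonneg (fun i _ => sq_nonneg (D1 v x0 i))).1 h4.symm i
        (Finset.mem_univ i)
      exact pow_eq_zero_iff (two_ne_zero) |>.1 h5
    · exact h4
  obtain ⟨c1, hc1, hc1'⟩ := hmin 1 (Or.inl rfl)
  obtain ⟨c2, hc2, hc2'⟩ := hmin D.R (Or.inr rfl)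
  set c : ℝ := min c1 c2 / 2 with hc
  have hmpos : 0 < min c1 c2 := lt_min hc1 hc2
  have hc0 : 0 < c := by
    rw [hc]
    linarith
  have hcc1 : c < c1 := by
    have := min_le_left c1 c2
    rw [hc]
    linarith
  have hcc2 : c < c2 := by
    have := min_le_right c1 c2
    rw [hc]
    linarith
  set A : Set E3 := cann D.R ∩ q ⁻¹' Set.Iic c with hA
  have hAclosed : IsClosed A := hqc.preimage_isClosed_of_isClosed hclosed isClosed_Iic
  have hAcompact : IsCompact A := hcc.of_isClosed_subset hAclosed Set.inter_subset_left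
  have hAann : A ⊆ ann D.R := by
    rintro x ⟨hx1, hx2⟩
    have hx3 : q x ≤ c := hx2
    refine ⟨lt_of_le_of_ne hx1.1 ?_, lt_of_le_of_ne hx1.2 ?_⟩
    · intro h
      have := hc1' x h.symm
      linarith
    · intro h
      have := hc2' x h
      linarith
  obtain ⟨hint, hae⟩ := KI_local hD hv.toSol hAcompact hAann
  have hAm : MeasurableSet A := hAclosed.measurableSet
  have hcm : MeasurableSet (cann D.R) := hclosed.measurableSet
  have hannsub : ann D.R ⊆ cann D.R := fun x hx => ⟨hx.1.le, hx.2.le⟩
  constructor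
  · have hint2 : IntegrableOn (fun x => F x / Real.sqrt (q x)) (cann D.R \ A) := by
      obtain ⟨M, hM⟩ := hcc.exists_bound_of_continuousOn hFc
      have hms : AEStronglyMeasurable (fun x => F x / Real.sqrt (q x)) (volume.restrict (cann D.R \ A)) := by
        have g1 : AEMeasurable F (volume.restrict (cann D.R)) :=
          (hFc.aestronglyMeasurable hcm).aemeasurable
        have g2 : AEMeasurable q (volume.restrict (cann D.R)) :=
          (hqc.aestronglyMeasurable hcm).aemeasurable
        have g3 : AEMeasurable (fun x => F x / Real.sqrt (q x)) (volume.restrict (cann D.R)) :=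
          g1.div (Real.continuous_sqrt.measurable.comp_aemeasurable g2)
        exact (g3.mono_measure (Measure.restrict_mono Set.sdiff_subset le_rfl)).aestronglyMeasurable
      refine ⟨hms, HasFiniteIntegral.restrict_of_bounded (C := M / Real.sqrt c) ?_ ?_⟩
      · exact lt_of_le_of_lt (measure_mono Set.sdiff_subset) hcc.measure_lt_top
      · filter_upwards [ae_restrict_mem (hcm.diff hAm)] with x hx
        have hx1 : c < q x := by
          by_contra hcon
          exact hx.2 ⟨hx.1, not_lt.1 hcon⟩
        rw [norm_div, Real.norm_of_nonneg (Real.sqrt_nonneg _)]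
        have hM0 : ‖F x‖ ≤ M := hM x hx.1
        apply div_le_div₀ ((norm_nonneg _).trans hM0) hM0 (Real.sqrt_pos.2 hc0)
        exact Real.sqrt_le_sqrt hx1.le
    have hun : IntegrableOn (fun x => F x / Real.sqrt (q x)) (A ∪ (cann D.R \ A)) :=
      hint.union hint2
    refine hun.mono_set ?_
    intro x hx
    by_cases hxA : x ∈ A
    · exact Or.inl hxA
    · exact Or.inr ⟨hannsub hx, hxA⟩
  · rw [ae_restrict_iff' hAm] at hae
    have hannm : MeasurableSet (ann D.R) := (UMB.Lin.isOpen_Ann D.R).measurableSet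
    rw [ae_restrict_iff' hannm]
    filter_upwards [hae] with x hx hxann hx0
    refine hx ⟨hannsub hxann, ?_⟩ hx0
    change q x ≤ c
    rw [hq]
    simp only
    rw [hx0]
    unfold vsq
    simp [hc0.le]

end UMB
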