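import Pool.Agent.Lib.UMB.M.Defs
import Pool.Agent.Lib.UMB.W.A4

/-! # UMB section 1, chunk P1: plane traces nonnegative imply tr k g + k >= 0 -/

set_option autoImplicit false

/-! # UMB section 1, chunk P1: plane traces nonnegative imply tr k g + k >= 0 -/

open Filter Topology Set MeasureTheory
open scoped ContDiff BigOperators

namespace UMB

open Pool.Agent.Lib.PenroseSph (E3 Tens pd chr ric scal trg normSqg divg energy momentum momNorm gradNorm normal meanCurv
  trLevel)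

theorem p1_quad (M : Tens) (x : E3) (w : Fin 3 → ℝ) : quad M x w = w ⬝ᵥ (M x).mulVec w := by
  simp only [dotProduct, Matrix.mulVec, quad, Finset.mul_sum]
  refine Finset.sum_congr rfl fun i _ => Finset.sum_congr rfl fun j _ => ?_
  ring

/-- Cauchy-Schwarz. -/
theorem p1_cs {M : Matrix (Fin 3) (Fin 3) ℝ} (hM : M.transpose = M) (hd : IsUnit M.det)
    (hpos : ∀ z : Fin 3 → ℝ, 0 ≤ z ⬝ᵥ M.mulVec z) (n v : Fin 3 → ℝ) :
    0 ≤ (v ⬝ᵥ M.mulVec v) * ((v ⬝ᵥ M.mulVec v) * (n ⬝ᵥ M⁻¹.mulVec n) - (n ⬝ᵥ v) ^ 2) := by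
  have hsymm : ∀ a b : Fin 3 → ℝ, a ⬝ᵥ M.mulVec b = b ⬝ᵥ M.mulVec a := by
    intro a b
    rw [Matrix.dotProduct_mulVec, ← Matrix.mulVec_transpose, hM, dotProduct_comm]
  have hw : M.mulVec (M⁻¹.mulVec n) = n := by
    rw [Matrix.mulVec_mulVec, Matrix.mul_nonsing_inv _ hd, Matrix.one_mulVec]
  have h1 : v ⬝ᵥ M.mulVec (M⁻¹.mulVec n) = n ⬝ᵥ v := by rw [hw, dotProduct_comm]
  have h2 : M⁻¹.mulVec n ⬝ᵥ M.mulVec v = n ⬝ᵥ v := by rw [hsymm, hw, dotProduct_comm]
  have h3 : M⁻¹.mulVec n ⬝ᵥ M.mulVec (M⁻¹.mulVec n) = n ⬝ᵥ M⁻¹.mulVec n := by rw [hw, dotProduct_comm]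
  have h4 := hpos ((n ⬝ᵥ v) • v - (v ⬝ᵥ M.mulVec v) • M⁻¹.mulVec n)
  simp only [Matrix.mulVec_sub, Matrix.mulVec_smul, sub_dotProduct, dotProduct_sub, smul_dotProduct, dotProduct_smul,
    smul_eq_mul, h1, h2, h3] at h4
  linarith

/-- **P1.** If `(tr k) g - k` is positive semidefinite then so is `(tr k) g + k`.
PROOF. `Q := (tr k) g - k` (with `t = trg g k x`) is a symmetric positive semidefinite matrix: `Q = Nᵀ N`
(`Matrix.posSemidef_iff_eq_conjTranspose_mul_self`), with rows `n_r`. For every `v`: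
`quad Q v = ∑_r (n_r · v)²` and by the Cauchy-Schwarz inequality for `g` (`(n · v)² ≤ (n g⁻¹ n) (v g v)`: expand
`0 ≤ quad g (v - s g⁻¹ n)`, or use `g = Lᵀ L`) `(n_r · v)² ≤ (n_r g⁻¹ n_r) quad g v`; the sum over `r` gives
`quad Q v ≤ tr(g⁻¹ Nᵀ N) quad g v = tr(g⁻¹ Q) quad g v = (3 t - t) quad g v` (`tr (g⁻¹ g) = 3`, `tr(g⁻¹ k) = t` with `trg`
and the symmetry of `g⁻¹`, `k`). So `t quad g v + quad k v = 2 t quad g v - quad Q v ≥ 0`. -/
theorem two_plus {g k : Tens} {x : E3} (hg : (g x).PosDef) (hk : (k x).IsSymm) (h : TwoNonneg g k x) (v : Fin 3 → ℝ) :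
    0 ≤ trg g k x * quad g x v + quad k x v := by
  have hMt : (g x).transpose = g x := by
    have := hg.isHermitian
    rwa [Matrix.IsHermitian, Matrix.conjTranspose_eq_transpose_of_trivial] at this
  have hd : IsUnit (g x).det := hg.det_pos.ne'.isUnit
  have hpos : ∀ z : Fin 3 → ℝ, 0 ≤ z ⬝ᵥ (g x).mulVec z := by
    intro z
    have := hg.posSemidef.dotProduct_mulVec_nonneg z
    simpa using this
  have hgs : ∀ i j, g x i j = g x j i := fun i j => by
    conv_lhs => rw [← hMt]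
    rfl
  have hks : ∀ i j, k x i j = k x j i := fun i j => hk.apply j i
  rcases (hpos v).eq_or_lt with hv | hv
  · -- v = 0
    have hv0 : v = 0 := by
      by_contra hne
      have h1 := hg.dotProduct_mulVec_pos hne
      simp only [star_trivial] at h1
      linarith
    rw [hv0]
    simp [quad]
  · obtain ⟨N, hN⟩ := W.a4_factor (S := fun i j => trg g k x * g x i j - k x i j)
      (fun i j => by rw [hgs i j, hks i j]) (fun u => by
        have h1 := h u
        have e : q1 (fun i j => trg g k x * g x i j - k x i j) u = trg g k x * quad g x u - quad k x u := by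
          simp only [q1, quad, Finset.mul_sum, ← Finset.sum_sub_distrib]
          refine Finset.sum_congr rfl fun i _ => Finset.sum_congr rfl fun j _ => ?_
          ring
        rw [e]
        exact h1)
    have hcs := fun m => p1_cs hMt hd hpos (N m) v
    obtain ⟨q, hq⟩ : ∃ q, q = v ⬝ᵥ (g x).mulVec v := ⟨_, rfl⟩
    rw [← hq] at hv
    simp only [← hq] at hcs
    have hcs' : ∀ m, (N m ⬝ᵥ v) ^ 2 ≤ q * (N m ⬝ᵥ (g x)⁻¹.mulVec (N m)) := by
      intro m
      have h1 := hcs m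
      have h2 : 0 ≤ q * (N m ⬝ᵥ (g x)⁻¹.mulVec (N m)) - (N m ⬝ᵥ v) ^ 2 := by
        by_contra hlt
        push Not at hlt
        have := mul_neg_of_pos_of_neg hv hlt
        linarith
      linarith
    have s1 : ∑ m, (N m ⬝ᵥ v) ^ 2 = trg g k x * quad g x v - quad k x v := by
      have e : trg g k x * quad g x v - quad k x v = ∑ i, ∑ j, (∑ m, N m i * N m j) * v i * v j := by
        simp only [← hN, quad, Finset.mul_sum, ← Finset.sum_sub_distrib]
        refine Finset.sum_congr rfl fun i _ => Finset.sum_congr rfl fun j _ => ?_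
        ring
      rw [e]
      simp only [dotProduct, Fin.sum_univ_three]
      ring
    have s2 : ∑ m, (N m ⬝ᵥ (g x)⁻¹.mulVec (N m)) = 2 * trg g k x := by
      have e : ∑ m, (N m ⬝ᵥ (g x)⁻¹.mulVec (N m)) = ∑ i, ∑ j, (g x)⁻¹ i j * (∑ m, N m i * N m j) := by
        simp only [dotProduct, Matrix.mulVec, Fin.sum_univ_three]
        ring
      have e2 : ∑ i, ∑ j, (g x)⁻¹ i j * g x i j = 3 := by
        have h5 : (g x)⁻¹ * g x = 1 := Matrix.nonsing_inv_mul _ hd
        have h6 : ((g x)⁻¹ * g x).trace = 3 := by rw [h5]; simp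
        rw [← h6]
        simp only [Matrix.trace, Matrix.diag_apply, Matrix.mul_apply]
        refine Finset.sum_congr rfl fun i _ => Finset.sum_congr rfl fun j _ => ?_
        rw [hgs i j]
      have e3 : ∑ i, ∑ j, (g x)⁻¹ i j * (∑ m, N m i * N m j) =
          trg g k x * (∑ i, ∑ j, (g x)⁻¹ i j * g x i j) - trg g k x := by
        have e4 : trg g k x * (∑ i, ∑ j, (g x)⁻¹ i j * g x i j) - trg g k x =
            trg g k x * (∑ i, ∑ j, (g x)⁻¹ i j * g x i j) - ∑ i, ∑ j, (g x)⁻¹ i j * k x i j := rfl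
        rw [e4]
        simp only [← hN, Finset.mul_sum, ← Finset.sum_sub_distrib]
        refine Finset.sum_congr rfl fun i _ => Finset.sum_congr rfl fun j _ => ?_
        ring
      rw [e, e3, e2]
      ring
    have s3 : ∑ m, (N m ⬝ᵥ v) ^ 2 ≤ q * ∑ m, (N m ⬝ᵥ (g x)⁻¹.mulVec (N m)) := by
      rw [Finset.mul_sum]
      exact Finset.sum_le_sum fun m _ => hcs' m
    rw [s1, s2] at s3
    have s4 : quad g x v = q := by rw [p1_quad, hq]
    rw [s4] at s3 ⊢
    linarith

end UMB
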