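import Pool.Agent.Lib.UMB.M.CO
import Pool.Agent.Lib.UMB.M.R0

/-! # UMB section 1, chunk R3: the regularised integrated identity -/

set_option autoImplicit false

open Filter Topology Set MeasureTheory
open scoped ContDiff BigOperators

namespace UMB

open Pool.Agent.Lib.PenroseSph (E3 Tens pd chr ric scal trg normSqg divg energy momentum momNorm gradNorm normal meanCurv
  trLevel)

theorem r3_ann_ext {g k : Tens} {a : ℝ} (hG : GK g k a) {R c1 c2 : ℝ} {u : E3 → ℝ} (hu : LF R c1 c2 u) {e : ℝ}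
    (he : 0 < e) : ∃ F : Fin 3 → E3 → ℝ, (∀ i, ContDiff ℝ 1 (F i)) ∧
      (∀ i, ∀ x ∈ cann R, F i x = vol g x * (Real.exp (u x) * Yvec g k u e i x)) ∧
      (∀ i, ∀ x ∈ ann R, pd i (F i) x = pd i (fun y => vol g y * (Real.exp (u y) * Yvec g k u e i y)) x) := by
  obtain ⟨W, hWo, hWc, hWu⟩ := hu.c3
  have hUo : IsOpen {x : E3 | a < ‖x‖} := hG.met.isOpen
  have hc : cann R ⊆ W ∩ {x : E3 | a < ‖x‖} := fun x hx => ⟨hWc hx, lt_of_lt_of_le hG.lt hx.1⟩
  have hf : ∀ i, ContDiffOn ℝ 1 (fun x => vol g x * (Real.exp (u x) * Yvec g k u e i x)) (W ∩ {x : E3 | a < ‖x‖}) :=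
    fun i => R0_c1 hG (hWo.inter hUo) (fun x hx => hx.2) (hWu.mono inter_subset_left) he i
  choose F V hF hVo hVc hEq using fun i => c1_ext hu.one_lt (hWo.inter hUo) hc (hf i)
  refine ⟨F, hF, fun i x hx => hEq i (hVc i hx), ?_⟩
  intro i x hx
  have hxV : x ∈ V i := hVc i ⟨hx.1.le, hx.2.le⟩
  have h1 : F i =ᶠ[𝓝 x] (fun y => vol g y * (Real.exp (u y) * Yvec g k u e i y)) := by
    filter_upwards [(hVo i).mem_nhds hxV] with y hy
    exact hEq i hy
  unfold pd
  rw [h1.fderiv_eq]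

/-- **R3.** PROOF. Let `W' = W ∩ {a < |x|}` (`W` from `LF.c3`), open neighbourhood of `cann R`. `f_i := vol e^u Y_e^i` is
`C¹` on `W'` (R0); `F_i` the global `C¹` function of CO, `F_i = f_i` near `cann R`. `UMB.Lin.int_pd` for each `i`, sum over
`i`: `∫_{Ann} ∑ pd i F_i = R² ∑ ∫ F_i(R n) n_i - ∑ ∫ F_i(n) n_i`. On `Ann R` (open) `pd i F_i = pd i f_i` and
`MetOn.master_div` (on `U = ann R`, where `u` is smooth; `MetOn g (ann R)` by restriction, `R3` uses `hG.lt`) gives
`∑ pd i f_i = vol (e^u RHe)`. On the spheres `F_i = f_i`; exchange sum and integral (continuous integrands on a compact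
sphere). -/
theorem R3_int {g k : Tens} {a : ℝ} (hG : GK g k a) {R c1 c2 : ℝ} {u : E3 → ℝ} (hu : LF R c1 c2 u) {e : ℝ} (he : 0 < e) :
    fl g k u e R - fl g k u e 1 = ∫ x in ann R, vol g x * (Real.exp (u x) * RHe g k u e x) := by
  obtain ⟨F, hF, hFc, hFa⟩ := r3_ann_ext hG hu he
  have hR := hu.one_lt
  have hR0 : 0 < R := by linarith
  have hmet : MetOn g (ann R) :=
    { isOpen := UMB.Lin.isOpen_Ann R
      smooth := fun i j => (hG.met.smooth i j).mono fun x hx => lt_trans hG.lt hx.1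
      symm := fun x hx => hG.met.symm x (lt_trans hG.lt hx.1)
      pos := fun x hx => hG.met.pos x (lt_trans hG.lt hx.1) }
  have hk : ∀ i j, ContDiffOn ℝ ∞ (fun x => k x i j) (ann R) := fun i j =>
    (hG.smooth i j).mono fun x hx => lt_trans hG.lt hx.1
  have h1 : ∀ x ∈ ann R, ∑ i, pd i (F i) x = vol g x * (Real.exp (u x) * RHe g k u e x) := by
    intro x hx
    rw [← hmet.master_div hu.smooth hk he hx]
    exact Finset.sum_congr rfl fun i _ => hFa i x hx
  have h2 : ∫ x in ann R, vol g x * (Real.exp (u x) * RHe g k u e x) = ∫ x in ann R, ∑ i, pd i (F i) x :=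
    setIntegral_congr_fun (UMB.Lin.measurableSet_Ann R) fun x hx => (h1 x hx).symm
  have hpc : ∀ i, Continuous (pd i (F i)) := fun i =>
    ((hF i).continuous_fderiv (by simp)).clm_apply continuous_const
  have h3 : ∫ x in ann R, ∑ i, pd i (F i) x = ∑ i, ∫ x in ann R, pd i (F i) x :=
    integral_finsetSum _ fun i _ => UMB.Lin.integrableOn_Ann (hpc i)
  have h4 : ∀ i, ∫ x in ann R, pd i (F i) x =
      R ^ 2 * (∫ n : Metric.sphere (0 : E3) 1, F i (R • (n : E3)) * (n : E3) i ∂UMB.Lin.sig)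
        - ∫ n : Metric.sphere (0 : E3) 1, F i (n : E3) * (n : E3) i ∂UMB.Lin.sig := fun i =>
    UMB.Lin.int_pd hR i (hF i)
  have hcs : ∀ (ρ : ℝ) (i : Fin 3), Continuous (fun n : Metric.sphere (0 : E3) 1 => F i (ρ • (n : E3)) * (n : E3) i) := by
    intro ρ i
    have hFc := (hF i).continuous
    have hc1 : Continuous (fun n : Metric.sphere (0 : E3) 1 => ρ • (n : E3)) := by fun_prop
    exact (hFc.comp hc1).mul ((EuclideanSpace.proj i : E3 →L[ℝ] ℝ).continuous.comp continuous_subtype_val)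
  have hflux : ∀ ρ : ℝ, (∀ n : Metric.sphere (0 : E3) 1, ρ • (n : E3) ∈ cann R) →
      fl g k u e ρ = ρ ^ 2 * ∑ i, ∫ n : Metric.sphere (0 : E3) 1, F i (ρ • (n : E3)) * (n : E3) i ∂UMB.Lin.sig := by
    intro ρ hρ
    unfold fl
    have hint : ∀ i, Integrable (fun n : Metric.sphere (0 : E3) 1 => F i (ρ • (n : E3)) * (n : E3) i) UMB.Lin.sig :=
      fun i => integrableOn_univ.1 ((hcs ρ i).continuousOn.integrableOn_compact isCompact_univ)
    rw [← integral_finsetSum _ fun i _ => hint i]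
    rw [← integral_const_mul]
    refine integral_congr_ae (Filter.Eventually.of_forall fun n => ?_)
    simp only
    congr 1
    refine Finset.sum_congr rfl fun i _ => ?_
    rw [hFc i _ (hρ n)]
  have hn : ∀ n : Metric.sphere (0 : E3) 1, ‖(n : E3)‖ = 1 := fun n => by simp
  have hRn : ∀ n : Metric.sphere (0 : E3) 1, R • (n : E3) ∈ cann R := by
    intro n
    have : ‖R • (n : E3)‖ = R := by rw [norm_smul, hn n, mul_one, Real.norm_eq_abs, abs_of_pos hR0]
    exact ⟨by rw [this]; exact hR.le, by rw [this]⟩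
  have h1n : ∀ n : Metric.sphere (0 : E3) 1, (1 : ℝ) • (n : E3) ∈ cann R := by
    intro n
    rw [one_smul]
    exact ⟨by rw [hn n], by rw [hn n]; exact hR.le⟩
  rw [h2, h3, hflux R hRn, hflux 1 h1n, Finset.sum_congr rfl fun i _ => h4 i, Finset.sum_sub_distrib, ← Finset.mul_sum]
  simp only [one_pow, one_mul, one_smul]

end UMB
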